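import Mathlib

/-!
# Hierarchical lattice gauge theory: square complexes and their refinements

A square complex consists of vertices, oriented edges and faces; the boundary of the face `f` is the
closed path `a f`, `b f`, `(c f)⁻¹`, `(d f)⁻¹`. In the refinement every edge is divided into two edges
and every face is replaced by four copies of the square divided into `2 × 2` squares, glued together
along their boundaries. This is the hierarchical lattice with the scale factor `2` in dimension `4`:
the number of the faces, which span a given closed path, grows by the factor `2 ^ (4 - 2)`.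
-/

open MeasureTheory

namespace Pool.Agent.T2H03.HX

noncomputable section

/-- A finite square complex. -/
structure Cx where
  V : Type
  E : Type
  F : Type
  fE : Fintype E
  fF : Fintype F
  src : E → V
  tgt : E → V
  a : F → E
  b : F → E
  c : F → E
  d : F → E
  had : ∀ f, src (a f) = src (d f)
  hab : ∀ f, tgt (a f) = src (b f)
  hbc : ∀ f, tgt (b f) = tgt (c f)
  hdc : ∀ f, tgt (d f) = src (c f)

attribute [instance] Cx.fE Cx.fF

/-- `a`, `b`, `c` or `d` for `i = 0`, `1`, `2` or `3`. -/
@[simp] abbrev four {α : Type} (i : Fin 4) (a b c d : α) : α := ![a, b, c, d] i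

/-- the sources of the edges of the square -/
@[simp] abbrev sqs (e : Fin 4) : Fin 4 := four e 0 1 2 0

/-- the targets of the edges of the square -/
@[simp] abbrev sqt (e : Fin 4) : Fin 4 := four e 1 3 3 2

/-- The square: the vertices `0, 1, 2, 3` are lower left, lower right, upper left, upper right, the
edges `0, 1, 2, 3` are bottom, right, top, left. -/
abbrev sq : Cx where
  V := Fin 4
  E := Fin 4
  F := Unit
  fE := inferInstance
  fF := inferInstance
  src := sqs
  tgt := sqt
  a := fun _ => 0
  b := fun _ => 1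
  c := fun _ => 2
  d := fun _ => 3
  had := fun _ => rfl
  hab := fun _ => rfl
  hbc := fun _ => rfl
  hdc := fun _ => rfl

section

variable (X : Cx)

/-- The vertices of the refinement: the old vertices, the middle points of the edges, and the centres
of the copies `(f, i)`, `i : Fin 4`, of the faces `f`. -/
abbrev Cx.RV : Type := (X.V ⊕ X.E) ⊕ X.F × Fin 4

/-- The edges of the refinement: the first halves and the second halves of the edges, and the four
inner edges of every copy of a face. -/
abbrev Cx.RE : Type := (X.E ⊕ X.E) ⊕ (X.F × Fin 4) × Fin 4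

/-- The faces of the refinement: the four quarters of every copy of a face. -/
abbrev Cx.RF : Type := (X.F × Fin 4) × Fin 4

/-- an old vertex -/
@[simp] abbrev Cx.old (v : X.V) : X.RV := .inl (.inl v)

/-- the middle point of an edge -/
@[simp] abbrev Cx.mdl (e : X.E) : X.RV := .inl (.inr e)

/-- the centre of a copy of a face -/
@[simp] abbrev Cx.ctr (x : X.F × Fin 4) : X.RV := .inr x

/-- the first half of an edge -/
@[simp] abbrev Cx.fst (e : X.E) : X.RE := .inl (.inl e)

/-- the second half of an edge -/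
@[simp] abbrev Cx.snd (e : X.E) : X.RE := .inl (.inr e)

/-- the inner edge from the middle of the left side to the centre of a copy of a face -/
@[simp] abbrev Cx.lft (x : X.F × Fin 4) : X.RE := .inr (x, 0)

/-- the inner edge from the centre to the middle of the right side -/
@[simp] abbrev Cx.rgt (x : X.F × Fin 4) : X.RE := .inr (x, 1)

/-- the inner edge from the middle of the bottom to the centre -/
@[simp] abbrev Cx.btm (x : X.F × Fin 4) : X.RE := .inr (x, 2)

/-- the inner edge from the centre to the middle of the top -/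
@[simp] abbrev Cx.top (x : X.F × Fin 4) : X.RE := .inr (x, 3)

/-- the face to which a quarter or an inner edge belongs -/
@[simp] abbrev Cx.fc (x : X.RF) : X.F := x.1.1

/-- the copy of the face to which a quarter or an inner edge belongs -/
@[simp] abbrev Cx.cp (x : X.RF) : X.F × Fin 4 := x.1

/-- the number of a quarter or of an inner edge -/
@[simp] abbrev Cx.no (x : X.RF) : Fin 4 := x.2

/-- the source of an edge of the refinement -/
@[simp] abbrev Cx.rsrc : X.RE → X.RV :=
  Sum.elim (Sum.elim (fun e => X.old (X.src e)) X.mdl) fun x =>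
    four (X.no x) (X.mdl (X.d (X.fc x))) (X.ctr (X.cp x)) (X.mdl (X.a (X.fc x))) (X.ctr (X.cp x))

/-- the target of an edge of the refinement -/
@[simp] abbrev Cx.rtgt : X.RE → X.RV :=
  Sum.elim (Sum.elim X.mdl fun e => X.old (X.tgt e)) fun x =>
    four (X.no x) (X.ctr (X.cp x)) (X.mdl (X.b (X.fc x))) (X.ctr (X.cp x)) (X.mdl (X.c (X.fc x)))

/-- the bottom of a face of the refinement: the faces `(x, 0)`, `(x, 1)`, `(x, 2)`, `(x, 3)` are the
lower left, lower right, upper left, upper right quarters of the copy `x` of a face -/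
@[simp] abbrev Cx.ra (x : X.RF) : X.RE :=
  four (X.no x) (X.fst (X.a (X.fc x))) (X.snd (X.a (X.fc x))) (X.lft (X.cp x)) (X.rgt (X.cp x))

/-- the right side of a face of the refinement -/
@[simp] abbrev Cx.rb (x : X.RF) : X.RE :=
  four (X.no x) (X.btm (X.cp x)) (X.fst (X.b (X.fc x))) (X.top (X.cp x)) (X.snd (X.b (X.fc x)))

/-- the top of a face of the refinement -/
@[simp] abbrev Cx.rc (x : X.RF) : X.RE :=
  four (X.no x) (X.lft (X.cp x)) (X.rgt (X.cp x)) (X.fst (X.c (X.fc x))) (X.snd (X.c (X.fc x)))

/-- the left side of a face of the refinement -/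
@[simp] abbrev Cx.rd (x : X.RF) : X.RE :=
  four (X.no x) (X.fst (X.d (X.fc x))) (X.btm (X.cp x)) (X.snd (X.d (X.fc x))) (X.top (X.cp x))

theorem Cx.rhad (x : X.RF) : X.rsrc (X.ra x) = X.rsrc (X.rd x) := by
  rcases x with ⟨⟨f, i⟩, s⟩
  fin_cases s <;> simp [X.had]

theorem Cx.rhab (x : X.RF) : X.rtgt (X.ra x) = X.rsrc (X.rb x) := by
  rcases x with ⟨⟨f, i⟩, s⟩
  fin_cases s <;> simp [X.hab]

theorem Cx.rhbc (x : X.RF) : X.rtgt (X.rb x) = X.rtgt (X.rc x) := by
  rcases x with ⟨⟨f, i⟩, s⟩
  fin_cases s <;> simp [X.hbc]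

theorem Cx.rhdc (x : X.RF) : X.rtgt (X.rd x) = X.rsrc (X.rc x) := by
  rcases x with ⟨⟨f, i⟩, s⟩
  fin_cases s <;> simp [X.hdc]

end

/-- The refinement. Every edge is divided into two halves, and every face is replaced by four copies,
each of which is divided into four quarters. -/
abbrev Cx.ref (X : Cx) : Cx where
  V := X.RV
  E := X.RE
  F := X.RF
  fE := inferInstance
  fF := inferInstance
  src := X.rsrc
  tgt := X.rtgt
  a := X.ra
  b := X.rb
  c := X.rc
  d := X.rd
  had := X.rhad
  hab := X.rhab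
  hbc := X.rhbc
  hdc := X.rhdc

/-- The iterated refinements. -/
def Cx.refs : Cx → ℕ → Cx
  | X, 0 => X
  | X, n + 1 => X.ref.refs n

/-- The box: the `n`-fold refinement of the square. -/
abbrev Bx (n : ℕ) : Cx := sq.refs n

/-- Maps of complexes. -/
structure Hom (X Y : Cx) where
  v : X.V → Y.V
  e : X.E → Y.E
  f : X.F → Y.F
  src : ∀ x, Y.src (e x) = v (X.src x)
  tgt : ∀ x, Y.tgt (e x) = v (X.tgt x)
  a : ∀ x, Y.a (f x) = e (X.a x)
  b : ∀ x, Y.b (f x) = e (X.b x)
  c : ∀ x, Y.c (f x) = e (X.c x)
  d : ∀ x, Y.d (f x) = e (X.d x)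

/-- the refinement of a map on the vertices -/
@[simp] abbrev Hom.rv {X Y : Cx} (φ : Hom X Y) : X.RV → Y.RV :=
  Sum.map (Sum.map φ.v φ.e) (Prod.map φ.f id)

/-- the refinement of a map on the edges -/
@[simp] abbrev Hom.re {X Y : Cx} (φ : Hom X Y) : X.RE → Y.RE :=
  Sum.map (Sum.map φ.e φ.e) (Prod.map (Prod.map φ.f id) id)

/-- the refinement of a map on the faces -/
@[simp] abbrev Hom.rf {X Y : Cx} (φ : Hom X Y) : X.RF → Y.RF :=
  Prod.map (Prod.map φ.f id) id

section

variable {X Y : Cx} (φ : Hom X Y)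

theorem Hom.rsrc (x : X.RE) : Y.rsrc (φ.re x) = φ.rv (X.rsrc x) := by
  rcases x with (x | x) | ⟨⟨f, i⟩, s⟩
  · simp [φ.src]
  · simp
  · fin_cases s <;> simp [φ.a, φ.d]

theorem Hom.rtgt (x : X.RE) : Y.rtgt (φ.re x) = φ.rv (X.rtgt x) := by
  rcases x with (x | x) | ⟨⟨f, i⟩, s⟩
  · simp
  · simp [φ.tgt]
  · fin_cases s <;> simp [φ.b, φ.c]

theorem Hom.ra (x : X.RF) : Y.ra (φ.rf x) = φ.re (X.ra x) := by
  rcases x with ⟨⟨f, i⟩, s⟩
  fin_cases s <;> simp [φ.a]

theorem Hom.rb (x : X.RF) : Y.rb (φ.rf x) = φ.re (X.rb x) := by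
  rcases x with ⟨⟨f, i⟩, s⟩
  fin_cases s <;> simp [φ.b]

theorem Hom.rc (x : X.RF) : Y.rc (φ.rf x) = φ.re (X.rc x) := by
  rcases x with ⟨⟨f, i⟩, s⟩
  fin_cases s <;> simp [φ.c]

theorem Hom.rd (x : X.RF) : Y.rd (φ.rf x) = φ.re (X.rd x) := by
  rcases x with ⟨⟨f, i⟩, s⟩
  fin_cases s <;> simp [φ.d]

end

/-- The refinement of a map. -/
def Hom.ref {X Y : Cx} (φ : Hom X Y) : Hom X.ref Y.ref where
  v := φ.rv
  e := φ.re
  f := φ.rf
  src := φ.rsrc
  tgt := φ.rtgt
  a := φ.ra
  b := φ.rb
  c := φ.rc
  d := φ.rd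

/-- The iterated refinements of a map. -/
def Hom.refs : {X Y : Cx} → Hom X Y → (n : ℕ) → Hom (X.refs n) (Y.refs n)
  | _, _, φ, 0 => φ
  | _, _, φ, n + 1 => φ.ref.refs n

/-- The face `f` of `X`, as a map of the square to `X`. -/
def Cx.face (X : Cx) (f : X.F) : Hom sq X where
  v := fun i => four i (X.src (X.a f)) (X.tgt (X.a f)) (X.tgt (X.d f)) (X.tgt (X.b f))
  e := fun i => four i (X.a f) (X.b f) (X.c f) (X.d f)
  f := fun _ => f
  src := by
    intro x
    fin_cases x <;> simp [X.hab, X.hdc, X.had]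
  tgt := by
    intro x
    fin_cases x <;> simp [X.hab, X.hdc, X.had, X.hbc]
  a := fun _ => rfl
  b := fun _ => rfl
  c := fun _ => rfl
  d := fun _ => rfl

/-- The box of side `2 ^ n` as one of the `16` parts of the box of side `2 ^ (n + 1)`: `p.1` is the
number of the copy and `p.2` is the position. -/
def emb (n : ℕ) (p : Fin 4 × Fin 4) : Hom (Bx n) (Bx (n + 1)) :=
  (sq.ref.face (((), p.1), p.2)).refs n

/-- The edges of the box of side `2 ^ n` at the position `x 0, ..., x (m - 1)` in the box of side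
`2 ^ (n + m)`. -/
def pos (n : ℕ) (x : ℕ → Fin 4 × Fin 4) : (m : ℕ) → (Bx n).E → (Bx (n + m)).E
  | 0 => id
  | m + 1 => (emb (n + m) (x m)).e ∘ pos n x m

section

variable {G : Type} [Group G]

/-- The holonomy around the face `f`. -/
def hol (X : Cx) (U : X.E → G) (f : X.F) : G :=
  U (X.a f) * U (X.b f) * (U (X.c f))⁻¹ * (U (X.d f))⁻¹

/-- The gauge transformations. -/
def gauge (X : Cx) (γ : X.V → G) (U : X.E → G) : X.E → G :=
  fun e => γ (X.src e) * U e * (γ (X.tgt e))⁻¹

/-- The holonomies along the edges of `X` of a configuration on the refinement of `X`. -/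
def blk (X : Cx) (U : X.ref.E → G) : X.E → G :=
  fun e => U (X.fst e) * U (X.snd e)

/-- The same for the last refinement. -/
def blkL : (n : ℕ) → (X : Cx) → ((X.refs (n + 1)).E → G) → (X.refs n).E → G
  | 0, X => blk X
  | n + 1, X => blkL n X.ref

/-- The holonomies along the edges of `X.refs n` of a configuration on `X.refs (n + q)`. -/
def blks (X : Cx) (n : ℕ) : (q : ℕ) → ((X.refs (n + q)).E → G) → (X.refs n).E → G
  | 0 => id
  | q + 1 => blks X n q ∘ blkL (n + q) X

variable [TopologicalSpace G] [MeasurableSpace G]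

/-- The Boltzmann factor of the lattice gauge theory with the plaquette function `w`. -/
def wt (X : Cx) (w : G → ℝ) (U : X.E → G) : ℝ := ∏ f, w (hol X U f)

/-- The expectations of the lattice gauge theory on `X` with the plaquette function `w`. -/
def ex (μ : Measure G) (X : Cx) (w : G → ℝ) (A : (X.E → G) → ℝ) : ℝ :=
  (∫ U, A U * wt X w U ∂Measure.pi fun _ => μ) / ∫ U, wt X w U ∂Measure.pi fun _ => μ

/-- The continuous gauge invariant functions of norm at most `1`. -/
structure Obs (X : Cx) (A : (X.E → G) → ℝ) : Prop where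
  cont : Continuous A
  inv : ∀ γ U, A (gauge X γ U) = A U
  le : ∀ U, |A U| ≤ 1

end

end

end Pool.Agent.T2H03.HX
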