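import Mathlib

/-!
# Integrals over finite products of a compact group
-/

open MeasureTheory

namespace Pool.Agent.T2H03.HX

set_option linter.unusedSectionVars false

noncomputable section

variable {G : Type} [Group G] [TopologicalSpace G] [IsTopologicalGroup G] [CompactSpace G]
  [SecondCountableTopology G] [MeasurableSpace G] [BorelSpace G] (μ : Measure G)
  [IsProbabilityMeasure μ]

/-- the product measure -/
abbrev P (ι : Type) [Fintype ι] : Measure (ι → G) := Measure.pi fun _ => μ

lemma integ {ι : Type} [Fintype ι] {F : (ι → G) → ℝ} (hF : Continuous F) :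
    Integrable F (P μ ι) :=
  hF.integrable_of_hasCompactSupport (HasCompactSupport.of_compactSpace _)

/-- continuity of an integral with a parameter -/
lemma cont_int {Y Z : Type} [TopologicalSpace Y] [TopologicalSpace Z] [CompactSpace Z]
    [MeasurableSpace Z] [BorelSpace Z] (ν : Measure Z) [IsFiniteMeasure ν] {F : Y → Z → ℝ}
    (hF : Continuous (Function.uncurry F)) : Continuous fun y => ∫ z, F y z ∂ν := by
  let F' : C(Y × Z, ℝ) := ⟨Function.uncurry F, hF⟩
  have h1 : Continuous fun h : C(Z, ℝ) => ∫ z, h z ∂ν := by
    refine LipschitzWith.continuous (K := (ν Set.univ).toNNReal)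
      (LipschitzWith.of_dist_le_mul fun h h' => ?_)
    have hi : ∀ h : C(Z, ℝ), Integrable h ν := fun h =>
      h.continuous.integrable_of_hasCompactSupport (HasCompactSupport.of_compactSpace _)
    rw [Real.dist_eq, ← integral_sub (hi h) (hi h'), ← Real.norm_eq_abs]
    have h1 := norm_integral_le_of_norm_le_const (μ := ν) (f := fun y => h y - h' y)
      (C := ‖h - h'‖) (Filter.Eventually.of_forall fun y => (h - h').norm_coe_le_norm y)
    rw [dist_eq_norm, mul_comm]
    exact h1
  exact h1.comp F'.curry.continuous

/-- Fubini for the disjoint union of two index sets -/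
lemma int_sum {ι κ : Type} [Fintype ι] [Fintype κ] {F : (ι ⊕ κ → G) → ℝ} (hF : Continuous F) :
    ∫ U, F U ∂P μ (ι ⊕ κ) = ∫ a, ∫ b, F (Sum.elim a b) ∂P μ κ ∂P μ ι := by
  have h := measurePreserving_sumPiEquivProdPi_symm (X := fun _ : ι ⊕ κ => G) (fun _ => μ)
  rw [← h.integral_comp']
  have he : ∀ p : (ι → G) × (κ → G),
      (MeasurableEquiv.sumPiEquivProdPi (fun _ : ι ⊕ κ => G)).symm p = Sum.elim p.1 p.2 := by
    intro p
    funext i
    cases i <;> rfl
  simp only [he]
  have hc : Continuous fun p : (ι → G) × (κ → G) => F (Sum.elim p.1 p.2) := by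
    refine hF.comp (continuous_pi fun i => ?_)
    cases i with
    | inl i => exact (continuous_apply i).comp continuous_fst
    | inr i => exact (continuous_apply i).comp continuous_snd
  exact integral_prod _ (hc.integrable_of_hasCompactSupport (HasCompactSupport.of_compactSpace _))

/-- Fubini for the first coordinate -/
lemma int_cons {n : ℕ} {F : (Fin (n + 1) → G) → ℝ} (hF : Continuous F) :
    ∫ U, F U ∂P μ (Fin (n + 1)) = ∫ x, ∫ b, F (Fin.cons x b) ∂P μ (Fin n) ∂μ := by
  have h := (measurePreserving_piFinSuccAbove (α := fun _ : Fin (n + 1) => G)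
    (fun _ => μ) 0).symm
  rw [← h.integral_comp']
  have he : ∀ p : G × (Fin n → G),
      (MeasurableEquiv.piFinSuccAbove (fun _ : Fin (n + 1) => G) 0).symm p = Fin.cons p.1 p.2 := by
    intro p
    show Fin.insertNth (α := fun _ => G) 0 p.1 p.2 = _
    rw [Fin.insertNth_zero']
  simp only [he]
  have hc : Continuous fun p : G × (Fin n → G) => F (Fin.cons p.1 p.2) := by
    refine hF.comp (continuous_pi fun i => ?_)
    refine Fin.cases ?_ (fun i => ?_) i
    · simp only [Fin.cons_zero]
      exact continuous_fst
    · simp only [Fin.cons_succ]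
      exact (continuous_apply i).comp continuous_snd
  exact integral_prod _ (hc.integrable_of_hasCompactSupport (HasCompactSupport.of_compactSpace _))

lemma int_fin4 {F : (Fin 4 → G) → ℝ} (hF : Continuous F) :
    ∫ U, F U ∂P μ (Fin 4) = ∫ p, ∫ q, ∫ r, ∫ s, F ![p, q, r, s] ∂μ ∂μ ∂μ ∂μ := by
  rw [int_cons μ hF]
  refine integral_congr_ae (Filter.Eventually.of_forall fun p => ?_)
  simp only
  rw [int_cons μ (F := fun b => F (Fin.cons p b)) (by
    refine hF.comp (continuous_pi fun i => ?_)
    refine Fin.cases ?_ (fun i => ?_) i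
    · simp only [Fin.cons_zero]
      exact continuous_const
    · simp only [Fin.cons_succ]
      exact continuous_apply i)]
  refine integral_congr_ae (Filter.Eventually.of_forall fun q => ?_)
  simp only
  rw [int_cons μ (F := fun b => F (Fin.cons p (Fin.cons q b : Fin 3 → G))) (by
    refine hF.comp (continuous_pi fun i => ?_)
    refine Fin.cases ?_ (fun i => ?_) i
    · simp only [Fin.cons_zero]
      exact continuous_const
    · simp only [Fin.cons_succ]
      refine Fin.cases ?_ (fun i => ?_) i
      · simp only [Fin.cons_zero]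
        exact continuous_const
      · simp only [Fin.cons_succ]
        exact continuous_apply i)]
  refine integral_congr_ae (Filter.Eventually.of_forall fun r => ?_)
  simp only
  rw [int_cons μ (F := fun b => F (Fin.cons p (Fin.cons q (Fin.cons r b : Fin 2 → G)))) (by
    refine hF.comp (continuous_pi fun i => ?_)
    refine Fin.cases ?_ (fun i => ?_) i
    · simp only [Fin.cons_zero]
      exact continuous_const
    · simp only [Fin.cons_succ]
      refine Fin.cases ?_ (fun i => ?_) i
      · simp only [Fin.cons_zero]
        exact continuous_const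
      · simp only [Fin.cons_succ]
        refine Fin.cases ?_ (fun i => ?_) i
        · simp only [Fin.cons_zero]
          exact continuous_const
        · simp only [Fin.cons_succ]
          exact continuous_apply i)]
  refine integral_congr_ae (Filter.Eventually.of_forall fun s => ?_)
  simp only
  have h0 : ∀ b : Fin 0 → G, F (Fin.cons p (Fin.cons q (Fin.cons r (Fin.cons s b : Fin 1 → G)))) =
      F ![p, q, r, s] := by
    intro b
    congr 1
    funext i
    fin_cases i <;> rfl
  simp only [h0]
  rw [integral_const, probReal_univ, one_smul]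

/-- Fubini for blocks: the integral of a product of functions of different blocks -/
lemma int_blocks {ι κ : Type} [Fintype ι] [Fintype κ] (k : ι → (κ → G) → ℝ) :
    ∫ U, ∏ i, k i (fun s => U (i, s)) ∂P μ (ι × κ) = ∏ i, ∫ v, k i v ∂P μ κ := by
  rw [← integral_fintype_prod_eq_prod]
  have h1 := Measure.infinitePi_map_curry (ι := ι) (κ := κ) (X := G) fun _ _ => μ
  simp only [Measure.infinitePi_eq_pi] at h1
  have h2 : MeasurePreserving (MeasurableEquiv.curry ι κ G) (P μ (ι × κ))
      (Measure.pi fun _ : ι => P μ κ) := ⟨(MeasurableEquiv.curry ι κ G).measurable, h1⟩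
  rw [← h2.integral_comp']
  rfl

/-- reindexing -/
lemma int_reindex {ι κ : Type} [Fintype ι] [Fintype κ] (e : ι ≃ κ) (F : (ι → G) → ℝ) :
    ∫ U, F (U ∘ e) ∂P μ κ = ∫ U, F U ∂P μ ι := by
  have h := measurePreserving_piCongrLeft (α := fun _ : κ => G) (fun _ => μ) e
  rw [← h.integral_comp']
  refine integral_congr_ae (Filter.Eventually.of_forall fun U => ?_)
  simp only
  congr 1
  funext i
  simp [MeasurableEquiv.piCongrLeft, Equiv.piCongrLeft, Equiv.piCongrLeft']

variable [μ.IsHaarMeasure]

/-- right invariance -/
lemma rinv : μ.IsMulRightInvariant := by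
  refine ⟨fun g => ?_⟩
  have h1 : IsProbabilityMeasure (Measure.map (fun x => x * g) μ) :=
    Measure.isProbabilityMeasure_map (measurable_mul_const g).aemeasurable
  exact Measure.isHaarMeasure_eq_of_isProbabilityMeasure _ _

lemma int_left {ι : Type} [Fintype ι] (F : (ι → G) → ℝ) (l : ι → G) :
    ∫ U, F (l * U) ∂P μ ι = ∫ U, F U ∂P μ ι := integral_mul_left_eq_self F l

lemma int_right {ι : Type} [Fintype ι] (F : (ι → G) → ℝ) (r : ι → G) :
    ∫ U, F (U * r) ∂P μ ι = ∫ U, F U ∂P μ ι := by
  have h0 := rinv μ
  have h1 : (P μ ι).IsMulRightInvariant := by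
    refine ⟨fun g => ?_⟩
    symm
    refine Measure.pi_eq fun s hs => ?_
    have h2 : Measurable fun x : ι → G => x * g := by fun_prop
    rw [Measure.map_apply h2 (MeasurableSet.univ_pi hs)]
    have h3 : (fun x : ι → G => x * g) ⁻¹' Set.pi Set.univ s =
        Set.pi Set.univ fun i => (fun x => x * g i) ⁻¹' s i := by
      ext x
      simp [Set.mem_pi]
    rw [h3, Measure.pi_pi]
    refine Finset.prod_congr rfl fun i _ => ?_
    rw [measure_preimage_mul_right]
  exact integral_mul_right_eq_self F r

end

end Pool.Agent.T2H03.HX
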