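import Mathlib
import Pool.Agent.T2H03.HX.Cx
import Pool.Agent.T2H03.HX.Int

/-!
# Integration over the new variables of a refinement
-/

open MeasureTheory

namespace Pool.Agent.T2H03.HX

set_option linter.unusedSectionVars false

noncomputable section

/-- the interior edges of the refinement -/
abbrev In (X : Cx) : Type := (X.F × Fin 4) × Fin 4

section alg

variable {G : Type} [Group G]

/-- the configuration on the refinement with the values `1` on the first halves of the edges and `V`
on the second halves -/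
def asm (X : Cx) (V : X.E → G) (u : In X → G) : X.ref.E → G :=
  Sum.elim (Sum.elim (fun _ => 1) V) u

/-- gauge transformations at the middle points of the edges -/
def mid (X : Cx) (h : X.E → G) : X.ref.V → G :=
  Sum.elim (Sum.elim (fun _ => 1) h) fun _ => 1

/-- invariance under the gauge transformations at the middle points -/
def MidInv (X : Cx) (F : (X.ref.E → G) → ℝ) : Prop := ∀ h U, F (gauge X.ref (mid X h) U) = F U

/-- the extension of a gauge transformation -/
def ext (X : Cx) (γ : X.V → G) : X.ref.V → G :=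
  Sum.elim (Sum.elim γ fun e => γ (X.src e)) fun _ => 1

/-- factors from the left -/
def lm (X : Cx) (h : X.E → G) (x : In X) : G := ![h (X.d x.1.1), 1, h (X.a x.1.1), 1] x.2

/-- factors from the right -/
def rm (X : Cx) (h : X.E → G) (x : In X) : G := ![1, (h (X.b x.1.1))⁻¹, 1, (h (X.c x.1.1))⁻¹] x.2

lemma gauge_mid (X : Cx) (x V : X.E → G) (u : In X → G) :
    gauge X.ref (mid X x) (Sum.elim (Sum.elim x (x⁻¹ * V)) u) = asm X V (lm X x * u * rm X x) := by
  funext e
  rcases e with (e | e) | ⟨⟨f, i⟩, s⟩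
  · simp [gauge, mid, asm]
  · simp [gauge, mid, asm]
  · fin_cases s <;> simp [gauge, mid, asm, lm, rm]

lemma gauge_asm (X : Cx) (γ : X.V → G) (V : X.E → G) (u : In X → G) :
    gauge X.ref (ext X γ) (asm X V u) =
      asm X (gauge X γ V) (lm X (fun e => γ (X.src e)) * u * rm X fun e => γ (X.src e)) := by
  funext e
  rcases e with (e | e) | ⟨⟨f, i⟩, s⟩
  · simp [gauge, ext, asm]
  · simp [gauge, ext, asm]
  · fin_cases s <;> simp [gauge, ext, asm, lm, rm]

lemma blk_asm (X : Cx) (V : X.E → G) (u : In X → G) : blk X (asm X V u) = V := by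
  funext e
  simp [blk, asm]

lemma blk_gauge (X : Cx) (γ : X.ref.V → G) (U : X.ref.E → G) :
    blk X (gauge X.ref γ U) = gauge X (fun v => γ (.inl (.inl v))) (blk X U) := by
  funext e
  simp [blk, gauge, mul_assoc]

lemma blk_mid (X : Cx) (h : X.E → G) (U : X.ref.E → G) :
    blk X (gauge X.ref (mid X h) U) = blk X U := by
  rw [blk_gauge]
  funext e
  simp [gauge, mid]

/-- the holonomy of a gauge transform -/
lemma hol_gauge (X : Cx) (γ : X.V → G) (U : X.E → G) (f : X.F) :
    hol X (gauge X γ U) f = γ (X.src (X.a f)) * hol X U f * (γ (X.src (X.a f)))⁻¹ := by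
  simp only [hol, gauge, X.hab, X.hbc, X.had, X.hdc]
  group

lemma hol_hom {X Y : Cx} (φ : Hom X Y) (U : Y.E → G) (f : X.F) :
    hol Y U (φ.f f) = hol X (U ∘ φ.e) f := by
  simp only [hol, φ.a, φ.b, φ.c, φ.d, Function.comp_apply]

lemma gauge_hom {X Y : Cx} (φ : Hom X Y) (γ : Y.V → G) (U : Y.E → G) :
    gauge Y γ U ∘ φ.e = gauge X (γ ∘ φ.v) (U ∘ φ.e) := by
  funext e
  simp [gauge, φ.src, φ.tgt]

lemma asm_hom {X Y : Cx} (φ : Hom X Y) (V : Y.E → G) (u : In Y → G) :
    asm Y V u ∘ φ.ref.e = asm X (V ∘ φ.e) (u ∘ Prod.map (Prod.map φ.f id) id) := by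
  funext e
  rcases e with (e | e) | ⟨⟨f, i⟩, s⟩ <;> rfl

lemma wt_gauge {w : G → ℝ} (hw : ∀ x y, w (y * x * y⁻¹) = w x) (X : Cx) (γ : X.V → G)
    (U : X.E → G) : wt X w (gauge X γ U) = wt X w U := by
  unfold wt
  refine Finset.prod_congr rfl fun f _ => ?_
  rw [hol_gauge, hw]

end alg

section top

variable {G : Type} [Group G] [TopologicalSpace G] [IsTopologicalGroup G]

lemma hol_cont (X : Cx) (f : X.F) : Continuous fun U : X.E → G => hol X U f := by
  unfold hol
  fun_prop

lemma wt_cont (X : Cx) {w : G → ℝ} (hw : Continuous w) : Continuous (wt X w) := by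
  unfold wt
  exact continuous_finsetProd _ fun f _ => hw.comp (hol_cont X f)

lemma blk_cont (X : Cx) : Continuous (blk X : (X.ref.E → G) → X.E → G) := by
  unfold blk
  exact continuous_pi fun e => (continuous_apply _).mul (continuous_apply _)

lemma blkL_cont (n : ℕ) (X : Cx) :
    Continuous (blkL n X : ((X.refs (n + 1)).E → G) → (X.refs n).E → G) := by
  induction n generalizing X with
  | zero => exact blk_cont X
  | succ n ih => exact ih X.ref

lemma blks_cont (X : Cx) (n q : ℕ) :
    Continuous (blks X n q : ((X.refs (n + q)).E → G) → (X.refs n).E → G) := by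
  induction q with
  | zero => exact continuous_id
  | succ q ih => exact ih.comp (blkL_cont (n + q) X)

lemma asm_cont (X : Cx) : Continuous fun p : (X.E → G) × (In X → G) => asm X p.1 p.2 := by
  refine continuous_pi fun e => ?_
  rcases e with (e | e) | e
  · exact continuous_const
  · exact (continuous_apply e).comp continuous_fst
  · exact (continuous_apply e).comp continuous_snd

lemma elim_cont {ι κ : Type} : Continuous fun p : (ι → G) × (κ → G) => Sum.elim p.1 p.2 := by
  refine continuous_pi fun e => ?_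
  cases e with
  | inl e => exact (continuous_apply e).comp continuous_fst
  | inr e => exact (continuous_apply e).comp continuous_snd

end top

variable {G : Type} [Group G] [TopologicalSpace G] [IsTopologicalGroup G] [CompactSpace G]
  [SecondCountableTopology G] [MeasurableSpace G] [BorelSpace G] (μ : Measure G)
  [IsProbabilityMeasure μ]

/-- the integral over the interior variables -/
def C (X : Cx) (F : (X.ref.E → G) → ℝ) (V : X.E → G) : ℝ := ∫ u, F (asm X V u) ∂P μ (In X)

/-- the same for several refinements -/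
def Cn : (n : ℕ) → (X : Cx) → (((X.refs n).E → G) → ℝ) → (X.E → G) → ℝ
  | 0, _, F => F
  | n + 1, X, F => C μ X (Cn n X.ref F)

lemma C_cont (X : Cx) {F : (X.ref.E → G) → ℝ} (hF : Continuous F) : Continuous (C μ X F) :=
  cont_int (P μ (In X)) (F := fun V u => F (asm X V u)) (hF.comp (asm_cont X))

lemma Cn_cont (n : ℕ) (X : Cx) {F : ((X.refs n).E → G) → ℝ} (hF : Continuous F) :
    Continuous (Cn μ n X F) := by
  induction n generalizing X with
  | zero => exact hF
  | succ n ih => exact C_cont μ X (ih X.ref hF)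

variable [μ.IsHaarMeasure]

/-- gauge invariance of the integral over the interior variables -/
lemma C_gauge (X : Cx) {F : (X.ref.E → G) → ℝ} (hF : ∀ γ U, F (gauge X.ref γ U) = F U)
    (γ : X.V → G) (V : X.E → G) : C μ X F (gauge X γ V) = C μ X F V := by
  unfold C
  set l := lm X fun e => γ (X.src e) with hl
  set r := rm X fun e => γ (X.src e) with hr
  rw [← int_left μ (fun u => F (asm X (gauge X γ V) u)) l,
    ← int_right μ (fun u => F (asm X (gauge X γ V) (l * u))) r]
  refine integral_congr_ae (Filter.Eventually.of_forall fun u => ?_)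
  simp only
  rw [← hF (ext X γ) (asm X V u), gauge_asm, mul_assoc]

lemma Cn_gauge (n : ℕ) (X : Cx) {F : ((X.refs n).E → G) → ℝ}
    (hF : ∀ γ U, F (gauge (X.refs n) γ U) = F U) (γ : X.V → G) (V : X.E → G) :
    Cn μ n X F (gauge X γ V) = Cn μ n X F V := by
  induction n generalizing X with
  | zero => exact hF γ V
  | succ n ih => exact C_gauge μ X (fun γ U => ih X.ref hF γ U) γ V

/-- **The new variables can be integrated out.** -/
theorem int_ref (X : Cx) {F : (X.ref.E → G) → ℝ} (hF : Continuous F) (hi : MidInv X F) :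
    ∫ U, F U ∂P μ X.ref.E = ∫ V, C μ X F V ∂P μ X.E := by
  have h1 : ∫ U, F U ∂P μ X.ref.E = ∫ ab, ∫ u, F (Sum.elim ab u) ∂P μ (In X) ∂P μ (X.E ⊕ X.E) :=
    int_sum μ (ι := X.E ⊕ X.E) (κ := In X) hF
  rw [h1]
  have hc : Continuous fun p : (X.E ⊕ X.E → G) × (In X → G) => F (Sum.elim p.1 p.2) :=
    hF.comp elim_cont
  rw [int_sum μ (F := fun ab : X.E ⊕ X.E → G => ∫ u, F (Sum.elim ab u) ∂P μ (In X))
    (cont_int (P μ (In X)) (F := fun ab u => F (Sum.elim ab u)) hc)]
  have h2 : ∀ x : X.E → G, ∫ y, ∫ u, F (Sum.elim (Sum.elim x y) u) ∂P μ (In X) ∂P μ X.E =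
      ∫ V, C μ X F V ∂P μ X.E := by
    intro x
    rw [← int_left μ (fun y => ∫ u, F (Sum.elim (Sum.elim x y) u) ∂P μ (In X)) x⁻¹]
    refine integral_congr_ae (Filter.Eventually.of_forall fun V => ?_)
    simp only
    unfold C
    rw [← int_left μ (fun u => F (asm X V u)) (lm X x),
      ← int_right μ (fun u => F (asm X V (lm X x * u))) (rm X x)]
    refine integral_congr_ae (Filter.Eventually.of_forall fun u => ?_)
    simp only
    have h3 := hi x (Sum.elim (Sum.elim x (x⁻¹ * V)) u)
    rw [gauge_mid] at h3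
    rw [← mul_assoc]
    exact h3.symm
  simp only [h2]
  rw [integral_const, probReal_univ, one_smul]

lemma midInv_of {X : Cx} {F : (X.ref.E → G) → ℝ} (hF : ∀ γ U, F (gauge X.ref γ U) = F U) :
    MidInv X F := fun _ U => hF _ U

theorem int_refs (n : ℕ) (X : Cx) {F : ((X.refs n).E → G) → ℝ} (hF : Continuous F)
    (hi : ∀ γ U, F (gauge (X.refs n) γ U) = F U) :
    ∫ U, F U ∂P μ (X.refs n).E = ∫ V, Cn μ n X F V ∂P μ X.E := by
  induction n generalizing X with
  | zero => rfl
  | succ n ih =>
    have h1 := ih X.ref hF hi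
    have h2 := int_ref μ X (F := Cn μ n X.ref F) (Cn_cont μ n X.ref hF)
      (midInv_of fun γ U => Cn_gauge μ n X.ref hi γ U)
    exact h1.trans h2

end

end Pool.Agent.T2H03.HX
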