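import Mathlib
import Pool.Agent.T2H04.HY.AsmA
import Pool.Agent.T2H03.HX.Ref

/-!
# Integration over the interior variables: products of class functions of the plaquettes
-/

open MeasureTheory
open Pool.Agent.T2H04.HY (cnv cnv4 mk continuous_cnv right_inv' inv_inv' PD)

namespace Pool.Agent.T2H03.HX

set_option linter.unusedSectionVars false

noncomputable section

section basic

variable {G : Type} [Group G]

/-- class functions -/
def IsCls (f : G → ℝ) : Prop := ∀ x y, f (y * x * y⁻¹) = f x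

/-- continuous class functions -/
structure CC [TopologicalSpace G] (f : G → ℝ) : Prop where
  cont : Continuous f
  cls : IsCls f

lemma IsCls.comm {f : G → ℝ} (hf : IsCls f) (x y : G) : f (x * y) = f (y * x) := by
  have h := hf (x * y) y
  rw [← h]
  congr 1
  group

end basic

variable {G : Type} [Group G] [TopologicalSpace G] [IsTopologicalGroup G] [CompactSpace G]
  [SecondCountableTopology G] [MeasurableSpace G] [BorelSpace G] (μ : Measure G)
  [IsProbabilityMeasure μ] [μ.IsHaarMeasure]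

/-- the convolution of four functions -/
def cv (k : Fin 4 → G → ℝ) : G → ℝ := cnv μ (cnv μ (k 0) (k 1)) (cnv μ (k 2) (k 3))

omit [SecondCountableTopology G] in
lemma cnv_cc {f g : G → ℝ} (hf : CC f) (hg : CC g) : CC (cnv μ f g) :=
  ⟨continuous_cnv μ hf.cont hg.cont, fun x y =>
    Pool.Agent.T2H04.HY.Asm.cnv_cls μ hf.cls hg.cls x y⟩

omit [SecondCountableTopology G] in
lemma cv_cc {k : Fin 4 → G → ℝ} (hk : ∀ s, CC (k s)) : CC (cv μ k) :=
  cnv_cc μ (cnv_cc μ (hk 0) (hk 1)) (cnv_cc μ (hk 2) (hk 3))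

/-- the four plaquettes of the divided square, with the values `1` on the first halves of the
boundary edges and `A`, `B`, `C`, `D` on the second halves -/
def cell (A B C D : G) (v : Fin 4 → G) : Fin 4 → G :=
  ![v 2 * (v 0)⁻¹, A * (v 1)⁻¹ * (v 2)⁻¹, v 0 * v 3 * D⁻¹, v 1 * B * C⁻¹ * (v 3)⁻¹]

omit [SecondCountableTopology G] in
lemma shl (f : G → ℝ) (g : G) : ∫ y, f (g * y) ∂μ = ∫ y, f y ∂μ := integral_mul_left_eq_self f g

omit [SecondCountableTopology G] in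
lemma shr (f : G → ℝ) (g : G) : ∫ y, f (y * g) ∂μ = ∫ y, f y ∂μ := by
  have := right_inv' μ
  exact integral_mul_right_eq_self f g

omit [SecondCountableTopology G] in
lemma shi (f : G → ℝ) : ∫ y, f y⁻¹ ∂μ = ∫ y, f y ∂μ := by
  have := inv_inv' μ
  exact integral_inv_eq_self f μ

omit [SecondCountableTopology G] in
lemma cell_1 {f g : G → ℝ} (hg : IsCls g) (A r s : G) :
    ∫ p, f (p * r⁻¹) * g (A * s⁻¹ * p⁻¹) ∂μ = cnv μ f g (A * s⁻¹ * r⁻¹) := by
  rw [← shr μ (fun p => f (p * r⁻¹) * g (A * s⁻¹ * p⁻¹)) r]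
  unfold cnv
  refine integral_congr_ae (Filter.Eventually.of_forall fun y => ?_)
  simp only
  rw [hg.comm y⁻¹ (A * s⁻¹ * r⁻¹)]
  congr 2 <;> group

omit [SecondCountableTopology G] in
lemma cell_2 {f g : G → ℝ} (hg : IsCls g) (B C D r s : G) :
    ∫ q, f (r * q * D⁻¹) * g (s * B * C⁻¹ * q⁻¹) ∂μ = cnv μ f g (r * (s * (B * C⁻¹ * D⁻¹))) := by
  rw [← shl μ (fun q => f (r * q * D⁻¹) * g (s * B * C⁻¹ * q⁻¹)) r⁻¹,
    ← shr μ (fun q => f (r * (r⁻¹ * q) * D⁻¹) * g (s * B * C⁻¹ * (r⁻¹ * q)⁻¹)) D]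
  unfold cnv
  refine integral_congr_ae (Filter.Eventually.of_forall fun y => ?_)
  simp only
  have e1 : r * (r⁻¹ * (y * D)) * D⁻¹ = y := by group
  have e2 : s * B * C⁻¹ * (r⁻¹ * (y * D))⁻¹ = (s * (B * C⁻¹ * D⁻¹)) * (y⁻¹ * r) := by group
  rw [e1, e2, hg.comm]
  congr 2
  group

omit [SecondCountableTopology G] in
lemma cell_3 (f g : G → ℝ) (A E r : G) :
    ∫ s, f (A * s⁻¹ * r⁻¹) * g (r * (s * E)) ∂μ = cnv μ f g (A * E) := by
  rw [← shl μ (fun s => f (A * s⁻¹ * r⁻¹) * g (r * (s * E))) r⁻¹,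
    ← shi μ (fun s => f (A * (r⁻¹ * s)⁻¹ * r⁻¹) * g (r * (r⁻¹ * s * E))),
    ← shr μ (fun s => f (A * (r⁻¹ * s⁻¹)⁻¹ * r⁻¹) * g (r * (r⁻¹ * s⁻¹ * E))) 1]
  rw [← shl μ (fun s => f (A * (r⁻¹ * (s * 1)⁻¹)⁻¹ * r⁻¹) * g (r * (r⁻¹ * (s * 1)⁻¹ * E))) A⁻¹]
  unfold cnv
  refine integral_congr_ae (Filter.Eventually.of_forall fun y => ?_)
  simp only
  congr 2 <;> group

/-- **The integral over the four inner links of a divided square.** -/
theorem int_cell {k : Fin 4 → G → ℝ} (hk : ∀ s, CC (k s)) (A B C D : G) :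
    ∫ v, ∏ s, k s (cell A B C D v s) ∂P μ (Fin 4) = cv μ k (A * B * C⁻¹ * D⁻¹) := by
  have hc : Continuous fun v : Fin 4 → G => ∏ s, k s (cell A B C D v s) := by
    refine continuous_finsetProd _ fun s _ => (hk s).cont.comp ?_
    fin_cases s <;> simp [cell] <;> fun_prop
  rw [int_fin4 μ hc]
  have h1 : ∀ r s p q : G, ∏ i, k i (cell A B C D ![r, s, p, q] i) =
      (k 0 (p * r⁻¹) * k 1 (A * s⁻¹ * p⁻¹)) * (k 2 (r * q * D⁻¹) * k 3 (s * B * C⁻¹ * q⁻¹)) := by
    intro r s p q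
    rw [Fin.prod_univ_four]
    simp only [cell]
    simp
    ring
  simp only [h1, integral_const_mul]
  have h2 : ∀ r s : G, ∫ p, (k 0 (p * r⁻¹) * k 1 (A * s⁻¹ * p⁻¹)) *
      ∫ q, k 2 (r * q * D⁻¹) * k 3 (s * B * C⁻¹ * q⁻¹) ∂μ ∂μ =
      cnv μ (k 0) (k 1) (A * s⁻¹ * r⁻¹) * cnv μ (k 2) (k 3) (r * (s * (B * C⁻¹ * D⁻¹))) := by
    intro r s
    rw [integral_mul_const, cell_1 μ (hk 1).cls, cell_2 μ (hk 3).cls]
  simp only [h2]
  have h3 : ∀ r : G, ∫ s, cnv μ (k 0) (k 1) (A * s⁻¹ * r⁻¹) *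
      cnv μ (k 2) (k 3) (r * (s * (B * C⁻¹ * D⁻¹))) ∂μ = cv μ k (A * B * C⁻¹ * D⁻¹) := by
    intro r
    rw [cell_3]
    unfold cv
    congr 1
    group
  simp only [h3]
  rw [integral_const, probReal_univ, one_smul]

/-- **One renormalisation step for general plaquette functions.** -/
theorem C_prod (X : Cx) {W : X.ref.F → G → ℝ} (hW : ∀ f, CC (W f)) (V : X.E → G) :
    C μ X (fun U => ∏ f, W f (hol X.ref U f)) V =
      ∏ x : X.F × Fin 4, cv μ (fun s => W (x, s)) (hol X V x.1) := by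
  unfold C
  set K : X.F × Fin 4 → (Fin 4 → G) → ℝ := fun x v => ∏ s, W (x, s)
    (cell (V (X.a x.1)) (V (X.b x.1)) (V (X.c x.1)) (V (X.d x.1)) v s) with hK
  have h1 : ∀ u : In X → G, ∏ f, W f (hol X.ref (asm X V u) f) = ∏ x : X.F × Fin 4,
      K x (fun s => u (x, s)) := by
    intro u
    refine (Fintype.prod_prod_type' (f := fun x s => W (x, s) (hol X.ref (asm X V u) (x, s)))).trans
      ?_
    refine Finset.prod_congr rfl fun x _ => Finset.prod_congr rfl fun s _ => ?_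
    congr 1
    obtain ⟨f, i⟩ := x
    fin_cases s <;> simp [hol, asm, cell]
  refine (integral_congr_ae (Filter.Eventually.of_forall h1)).trans ?_
  refine (int_blocks μ (ι := X.F × Fin 4) (κ := Fin 4) K).trans ?_
  refine Finset.prod_congr rfl fun x _ => ?_
  exact int_cell μ (fun s => hW (x, s)) _ _ _ _

end

end Pool.Agent.T2H03.HX
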