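import Mathlib
import Pool.Agent.T2H03.HX.Cell

/-!
# Reduction of gauge invariant functions to class functions of one holonomy
-/

open MeasureTheory
open Pool.Agent.T2H04.HY (cnv cnv4 mk continuous_cnv right_inv' inv_inv' PD)

namespace Pool.Agent.T2H03.HX

set_option linter.unusedSectionVars false

noncomputable section

/-! ### Covers by copies of a complex -/

/-- the faces of `X` are the disjoint union of the images of the faces of `Z` -/
def Cov (Z X : Cx) (I : Type) (φ : I → Hom Z X) : Prop :=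
  Function.Bijective fun p : I × Z.F => (φ p.1).f p.2

lemma Cov.ref {Z X : Cx} {I : Type} {φ : I → Hom Z X} (h : Cov Z X I φ) :
    Cov Z.ref X.ref I fun i => (φ i).ref := by
  constructor
  · rintro ⟨i, ⟨⟨f, c⟩, s⟩⟩ ⟨i', ⟨⟨f', c'⟩, s'⟩⟩ he
    simp only [Hom.ref, Prod.map, id, Prod.mk.injEq] at he
    have h1 := h.1 (a₁ := (i, f)) (a₂ := (i', f')) he.1.1
    simp only [Prod.mk.injEq] at h1
    obtain ⟨h2, h3⟩ := h1
    obtain ⟨⟨-, h4⟩, h5⟩ := he
    rw [h2, h3, h4, h5]
  · rintro ⟨⟨f, c⟩, s⟩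
    obtain ⟨⟨i, f'⟩, h1⟩ := h.2 f
    refine ⟨(i, ((f', c), s)), ?_⟩
    simp only at h1
    simp only [Hom.ref, Prod.map, id]
    rw [h1]

lemma Cov.refs {Z X : Cx} {I : Type} {φ : I → Hom Z X} (h : Cov Z X I φ) (n : ℕ) :
    Cov (Z.refs n) (X.refs n) I fun i => (φ i).refs n := by
  induction n generalizing Z X with
  | zero => exact h
  | succ n ih => exact ih h.ref

lemma cov_face (X : Cx) : Cov sq X X.F X.face := by
  constructor
  · rintro ⟨f, u⟩ ⟨f', u'⟩ he
    have h1 : f = f' := he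
    subst h1
    rfl
  · intro f
    exact ⟨(f, ()), rfl⟩

/-- the sixteen parts of the divided square -/
def part (p : Fin 4 × Fin 4) : Hom sq sq.ref := sq.ref.face (((), p.1), p.2)

lemma cov_part : Cov sq sq.ref (Fin 4 × Fin 4) part := by
  constructor
  · rintro ⟨⟨i, s⟩, u⟩ ⟨⟨i', s'⟩, u'⟩ he
    have h1 : ((((), i), s) : sq.ref.F) = (((), i'), s') := he
    simp only [Prod.mk.injEq, true_and] at h1
    rw [h1.1, h1.2]
  · rintro ⟨⟨f, i⟩, s⟩
    exact ⟨((i, s), ()), rfl⟩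

lemma cov_emb (n : ℕ) : Cov (Bx n) (Bx (n + 1)) (Fin 4 × Fin 4) (emb n) := cov_part.refs n

section alg

variable {G : Type} [Group G] [TopologicalSpace G] [MeasurableSpace G]

lemma wt_cov {Z X : Cx} {I : Type} [Fintype I] {φ : I → Hom Z X} (h : Cov Z X I φ) (w : G → ℝ)
    (U : X.E → G) : wt X w U = ∏ i, wt Z w (U ∘ (φ i).e) := by
  unfold wt
  rw [← Fintype.prod_prod_type' (f := fun i f => w (hol Z (U ∘ (φ i).e) f))]
  symm
  refine Fintype.prod_bijective _ h _ _ fun p => ?_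
  rw [hol_hom]

lemma hol_sq (T : G) : hol sq ![T, 1, 1, 1] () = T := by
  simp [hol]

end alg

variable {G : Type} [Group G] [TopologicalSpace G] [IsTopologicalGroup G] [CompactSpace G]
  [SecondCountableTopology G] [MeasurableSpace G] [BorelSpace G] (μ : Measure G)
  [IsProbabilityMeasure μ]

theorem C_cover {Z X : Cx} {I : Type} [Fintype I] {φ : I → Hom Z X} (h : Cov Z X I φ)
    (K : I → (Z.ref.E → G) → ℝ) (V : X.E → G) :
    C μ X (fun U => ∏ i, K i (U ∘ (φ i).ref.e)) V = ∏ i, C μ Z (K i) (V ∘ (φ i).e) := by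
  unfold C
  set e : I × In Z ≃ In X := Equiv.ofBijective (fun p => (φ p.1).ref.f p.2) h.ref with he
  rw [← int_blocks μ (fun i u => K i (asm Z (V ∘ (φ i).e) u)),
    ← int_reindex μ e (fun u => ∏ i, K i (asm Z (V ∘ (φ i).e) fun s => u (i, s)))]
  refine integral_congr_ae (Filter.Eventually.of_forall fun u => ?_)
  simp only
  refine Finset.prod_congr rfl fun i _ => ?_
  rw [asm_hom]
  rfl

theorem Cn_cover {Z X : Cx} {I : Type} [Fintype I] {φ : I → Hom Z X} (h : Cov Z X I φ) (n : ℕ)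
    (K : I → ((Z.refs n).E → G) → ℝ) (V : X.E → G) :
    Cn μ n X (fun U => ∏ i, K i (U ∘ ((φ i).refs n).e)) V =
      ∏ i, Cn μ n Z (K i) (V ∘ (φ i).e) := by
  induction n generalizing Z X with
  | zero => rfl
  | succ n ih =>
    show C μ X (Cn μ n X.ref (fun U => ∏ i, K i (U ∘ ((φ i).ref.refs n).e))) V =
      ∏ i, C μ Z (Cn μ n Z.ref (K i)) (V ∘ (φ i).e)
    rw [← C_cover μ h]
    congr 1
    funext V'
    exact ih h.ref K V'

/-- the reduction of a gauge invariant function on the box to a class function -/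
def red (n : ℕ) (K : ((Bx n).E → G) → ℝ) (T : G) : ℝ := Cn μ n sq K ![T, 1, 1, 1]

/-- continuous gauge invariant functions -/
structure Inv (X : Cx) (K : (X.E → G) → ℝ) : Prop where
  cont : Continuous K
  inv : ∀ γ U, K (gauge X γ U) = K U

omit [IsTopologicalGroup G] [CompactSpace G] [SecondCountableTopology G] [MeasurableSpace G]
  [BorelSpace G] in
lemma Inv.mul {X : Cx} {K K' : (X.E → G) → ℝ} (h : Inv X K) (h' : Inv X K') :
    Inv X fun U => K U * K' U :=
  ⟨h.cont.mul h'.cont, fun γ U => by rw [h.inv, h'.inv]⟩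

omit [IsTopologicalGroup G] [CompactSpace G] [SecondCountableTopology G] [MeasurableSpace G]
  [BorelSpace G] in
lemma Inv.const (X : Cx) (c : ℝ) : Inv X fun _ : X.E → G => c :=
  ⟨continuous_const, fun _ _ => rfl⟩

omit [IsTopologicalGroup G] [CompactSpace G] [SecondCountableTopology G] [MeasurableSpace G]
  [BorelSpace G] in
lemma Inv.comp {X Y : Cx} {K : (X.E → G) → ℝ} (h : Inv X K) (φ : Hom X Y) :
    Inv Y fun U => K (U ∘ φ.e) :=
  ⟨h.cont.comp (continuous_pi fun _ => continuous_apply _), fun γ U => by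
    rw [gauge_hom, h.inv]⟩

omit [CompactSpace G] [SecondCountableTopology G] [BorelSpace G] in
lemma inv_wt (X : Cx) {w : G → ℝ} (hw : CC w) : Inv X (wt X w) :=
  ⟨wt_cont X hw.cont, fun γ U => wt_gauge hw.cls X γ U⟩

lemma vec_cont : Continuous fun T : G => (![T, 1, 1, 1] : Fin 4 → G) := by
  refine continuous_pi fun i => ?_
  fin_cases i
  · exact continuous_id
  all_goals exact continuous_const

lemma red_cont {n : ℕ} {K : ((Bx n).E → G) → ℝ} (hK : Continuous K) : Continuous (red μ n K) :=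
  (Cn_cont μ n sq hK).comp vec_cont

variable [μ.IsHaarMeasure]

lemma red_eq {n : ℕ} {K : ((Bx n).E → G) → ℝ} (hK : Inv (Bx n) K) (V : sq.E → G) :
    Cn μ n sq K V = red μ n K (hol sq V ()) := by
  unfold red
  set γ : Fin 4 → G := ![1, V (3 : Fin 4) * V (2 : Fin 4) * (V (1 : Fin 4))⁻¹, V (3 : Fin 4),
    V (3 : Fin 4) * V (2 : Fin 4)] with hγ
  rw [← Cn_gauge μ n sq hK.inv γ V]
  congr 1
  funext i
  fin_cases i <;> simp [gauge, hol, hγ, mul_assoc]

lemma red_cc {n : ℕ} {K : ((Bx n).E → G) → ℝ} (hK : Inv (Bx n) K) : CC (red μ n K) := by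
  refine ⟨red_cont μ hK.cont, fun T g => ?_⟩
  have h1 := Cn_gauge μ n sq hK.inv (fun _ => g) ![T, 1, 1, 1]
  have h2 : gauge sq (fun _ => g) ![T, 1, 1, 1] = ![g * T * g⁻¹, 1, 1, 1] := by
    funext i
    fin_cases i <;> simp [gauge]
  rw [h2] at h1
  exact h1

/-- the holonomy around the square has the Haar distribution -/
lemma int_hol {h : G → ℝ} (hh : Continuous h) :
    ∫ V, h (hol sq V ()) ∂P μ sq.E = ∫ T, h T ∂μ := by
  have h1 : ∫ V, h (hol sq V ()) ∂P μ sq.E =
      ∫ V : Fin 4 → G, h (V 0 * V 1 * (V 2)⁻¹ * (V 3)⁻¹) ∂P μ (Fin 4) := rfl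
  rw [h1, int_fin4 μ (by fun_prop)]
  simp only [Matrix.cons_val_zero, Matrix.cons_val_one, Matrix.cons_val]
  have h2 : ∀ p q r : G, ∫ s, h (p * q * r⁻¹ * s⁻¹) ∂μ = ∫ T, h T ∂μ := by
    intro p q r
    rw [shi μ fun s => h (p * q * r⁻¹ * s), shl μ h]
  simp only [h2, integral_const, probReal_univ, one_smul]

theorem int_red {n : ℕ} {K : ((Bx n).E → G) → ℝ} (hK : Inv (Bx n) K) :
    ∫ U, K U ∂P μ (Bx n).E = ∫ T, red μ n K T ∂μ := by
  rw [int_refs μ n sq hK.cont hK.inv, ← int_hol μ (red_cont μ hK.cont)]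
  exact integral_congr_ae (Filter.Eventually.of_forall fun V => red_eq μ hK V)

/-- the renormalisation step for sixteen different plaquette functions -/
def J (k : Fin 4 × Fin 4 → G → ℝ) (T : G) : ℝ := ∏ i, cv μ (fun s => k (i, s)) T

/-- **The recursion for products over the sixteen parts of a box.** -/
theorem red_prod {n : ℕ} {K : Fin 4 × Fin 4 → ((Bx n).E → G) → ℝ}
    (hK : ∀ p, Inv (Bx n) (K p)) :
    red μ (n + 1) (fun U => ∏ p, K p (U ∘ (emb n p).e)) = J μ fun p => red μ n (K p) := by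
  funext T
  show C μ sq (Cn μ n sq.ref (fun U => ∏ p, K p (U ∘ ((part p).refs n).e))) ![T, 1, 1, 1] = _
  have h1 : Cn μ n sq.ref (fun U => ∏ p, K p (U ∘ ((part p).refs n).e)) = fun V =>
      ∏ f : sq.ref.F, red μ n (K (f.1.2, f.2)) (hol sq.ref V f) := by
    funext V
    rw [Cn_cover μ cov_part n K V]
    refine Fintype.prod_bijective (fun p : Fin 4 × Fin 4 => ((((), p.1), p.2) : sq.ref.F)) ?_ _ _
      fun p => ?_
    · constructor
      · rintro ⟨i, s⟩ ⟨i', s'⟩ he
        simp only [Prod.mk.injEq, true_and] at he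
        rw [he.1, he.2]
      · rintro ⟨⟨f, i⟩, s⟩
        exact ⟨(i, s), rfl⟩
    · rw [red_eq μ (hK p), ← hol_hom (part p)]
      rfl
  rw [h1, C_prod μ sq (W := fun f => red μ n (K (f.1.2, f.2))) fun f => red_cc μ (hK _)]
  unfold J
  have h2 : ∀ x : sq.F × Fin 4, cv μ (fun s => red μ n (K (((x, s) : sq.ref.F).1.2,
      ((x, s) : sq.ref.F).2))) (hol sq ![T, 1, 1, 1] x.1) =
      cv μ (fun s => red μ n (K (x.2, s))) T := by
    rintro ⟨⟨⟩, i⟩
    rw [hol_sq]
  simp only [h2]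
  refine Fintype.prod_bijective (fun x : sq.F × Fin 4 => x.2) ?_ _ _ fun x => rfl
  constructor
  · rintro ⟨⟨⟩, i⟩ ⟨⟨⟩, i'⟩ he
    simp only at he
    rw [he]
  · intro i
    exact ⟨((), i), rfl⟩

end

end Pool.Agent.T2H03.HX
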