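import Mathlib
import Pool.Agent.T2H03.HX.Red

/-!
# Exactness of the renormalisation group map
-/

open MeasureTheory Filter
open scoped Topology
open Pool.Agent.T2H04.HY (cnv cnv4 continuous_cnv right_inv' inv_inv' PD norm_pos pd_mk)
open Pool.Agent.T2H04

namespace Pool.Agent.T2H03.HX

set_option linter.unusedSectionVars false

noncomputable section

variable {G : Type} [Group G] [TopologicalSpace G] [IsTopologicalGroup G] [CompactSpace G]
  [SecondCountableTopology G] [MeasurableSpace G] [BorelSpace G] (μ : Measure G)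
  [IsProbabilityMeasure μ] [μ.IsHaarMeasure]

omit [SecondCountableTopology G] in
lemma mk_cc {w : G → ℝ} (hw : PD μ w) (hc : IsCls w) : CC (HY.mk μ w) :=
  ⟨(pd_mk μ w hw).cont, Pool.Agent.T2H04.HY.Asm.mk_cls μ hc⟩

lemma C_wt (X : Cx) {w : G → ℝ} (hw : PD μ w) (hc : IsCls w) (V : X.E → G) :
    C μ X (wt X.ref w) V = (∫ y, (cnv4 μ w y) ^ 4 ∂μ) ^ Fintype.card X.F * wt X (HY.mk μ w) V := by
  have hz := norm_pos μ hw
  have h1 := C_prod μ X (W := fun _ => w) (fun _ => ⟨hw.cont, hc⟩) V
  have h2 : C μ X (wt X.ref w) V = C μ X (fun U => ∏ f, w (hol X.ref U f)) V := rfl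
  rw [h2, h1]
  have h3 : ∏ x : X.F × Fin 4, cv μ (fun _ => w) (hol X V x.1) =
      ∏ f : X.F, ∏ _i : Fin 4, cnv4 μ w (hol X V f) :=
    Fintype.prod_prod_type' (f := fun f _ => cnv4 μ w (hol X V f))
  rw [h3]
  have h4 : ∀ f : X.F, ∏ _i : Fin 4, cnv4 μ w (hol X V f) =
      (∫ y, (cnv4 μ w y) ^ 4 ∂μ) * HY.mk μ w (hol X V f) := by
    intro f
    rw [Finset.prod_const, Finset.card_univ, Fintype.card_fin]
    unfold HY.mk
    field_simp
  simp only [h4, Finset.prod_mul_distrib, Finset.prod_const, Finset.card_univ]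
  rfl

lemma num_ref (X : Cx) {w : G → ℝ} (hw : PD μ w) (hc : IsCls w) {A : (X.E → G) → ℝ}
    (hA : Continuous A) :
    ∫ U, A (blk X U) * wt X.ref w U ∂P μ X.ref.E = (∫ y, (cnv4 μ w y) ^ 4 ∂μ) ^ Fintype.card X.F *
      ∫ V, A V * wt X (HY.mk μ w) V ∂P μ X.E := by
  have h1 := int_ref μ X (F := fun U => A (blk X U) * wt X.ref w U)
    ((hA.comp (blk_cont X)).mul (wt_cont X.ref hw.cont)) (fun h U => by
      show A (blk X (gauge X.ref (mid X h) U)) * wt X.ref w (gauge X.ref (mid X h) U) = _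
      rw [blk_mid, wt_gauge hc])
  rw [h1, ← integral_const_mul]
  refine integral_congr_ae (Filter.Eventually.of_forall fun V => ?_)
  simp only
  have h2 : C μ X (fun U => A (blk X U) * wt X.ref w U) V = A V * C μ X (wt X.ref w) V := by
    unfold C
    rw [← integral_const_mul]
    refine integral_congr_ae (Filter.Eventually.of_forall fun u => ?_)
    simp only
    rw [blk_asm]
  rw [h2, C_wt μ X hw hc]
  ring

/-- **Exactness of the renormalisation group map.** -/
theorem ex_ref (X : Cx) {w : G → ℝ} (hw : PD μ w) (hc : IsCls w) {A : (X.E → G) → ℝ}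
    (hA : Continuous A) : ex μ X.ref w (fun U => A (blk X U)) = ex μ X (HY.mk μ w) A := by
  have hz := norm_pos μ hw
  have h1 := num_ref μ X hw hc hA
  have h2 := num_ref μ X hw hc (A := fun _ => 1) continuous_const
  simp only [one_mul] at h2
  unfold ex
  rw [show (∫ U, A (blk X U) * wt X.ref w U ∂Measure.pi fun _ => μ) = _ from h1,
    show (∫ U, wt X.ref w U ∂Measure.pi fun _ => μ) = _ from h2]
  rw [mul_div_mul_left _ _ (pow_pos hz _).ne']

theorem ex_refL (n : ℕ) (X : Cx) {w : G → ℝ} (hw : PD μ w) (hc : IsCls w)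
    {A : ((X.refs n).E → G) → ℝ} (hA : Continuous A) :
    ex μ (X.refs (n + 1)) w (fun U => A (blkL n X U)) = ex μ (X.refs n) (HY.mk μ w) A := by
  induction n generalizing X with
  | zero => exact ex_ref μ X hw hc hA
  | succ n ih => exact ih X.ref hA

/-- **Exactness of the iterated renormalisation group map.** -/
theorem ex_refs (X : Cx) (n q : ℕ) {w : G → ℝ} (hw : PD μ w) (hc : IsCls w)
    {A : ((X.refs n).E → G) → ℝ} (hA : Continuous A) :
    ex μ (X.refs (n + q)) w (fun U => A (blks X n q U)) = ex μ (X.refs n) ((HY.mk μ)^[q] w) A := by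
  induction q generalizing w with
  | zero => rfl
  | succ q ih =>
    have h1 := ex_refL μ (n + q) X hw hc (A := fun U => A (blks X n q U))
      (hA.comp (blks_cont X n q))
    rw [Function.iterate_succ_apply, ← ih (pd_mk μ w hw) (mk_cc μ hw hc).cls]
    exact h1

omit [SecondCountableTopology G] [μ.IsHaarMeasure] in
lemma wt_pos (X : Cx) {w : G → ℝ} (hw : ∀ x, 0 < w x) (U : X.E → G) : 0 < wt X w U :=
  Finset.prod_pos fun _ _ => hw _

lemma Z_pos (X : Cx) {w : G → ℝ} (hc : Continuous w) (hw : ∀ x, 0 < w x) :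
    0 < ∫ U, wt X w U ∂P μ X.E := by
  have h1 : Continuous (wt X w) := wt_cont X hc
  obtain ⟨U₀, -, h2⟩ := isCompact_univ.exists_isMinOn (Set.univ_nonempty (α := X.E → G))
    h1.continuousOn
  have h3 : ∫ _U, wt X w U₀ ∂P μ X.E ≤ ∫ U, wt X w U ∂P μ X.E :=
    integral_mono (integ μ continuous_const) (integ μ h1) fun U => h2 (Set.mem_univ U)
  rw [integral_const, probReal_univ, one_smul] at h3
  exact lt_of_lt_of_le (wt_pos X hw U₀) h3

/-- expectations depend continuously on the plaquette function -/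
theorem ex_tendsto (X : Cx) {w : ℕ → G → ℝ} {w' : G → ℝ} (hw : ∀ j, Continuous (w j))
    (hc : Continuous w') (hpos : ∀ x, 0 < w' x) (h : TendstoUniformly w w' atTop)
    {A : (X.E → G) → ℝ} (hA : Continuous A) :
    Tendsto (fun j => ex μ X (w j) A) atTop (𝓝 (ex μ X w' A)) := by
  set W : ℕ → C(G, ℝ) := fun j => ⟨w j, hw j⟩ with hW
  set W' : C(G, ℝ) := ⟨w', hc⟩ with hW'
  have h0 : Tendsto W atTop (𝓝 W') := ContinuousMap.tendsto_iff_tendstoUniformly.2 h
  have key : ∀ B : (X.E → G) → ℝ, Continuous B →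
      Tendsto (fun j => ∫ U, B U * wt X (w j) U ∂P μ X.E) atTop
        (𝓝 (∫ U, B U * wt X w' U ∂P μ X.E)) := by
    intro B hB
    set H : C(G, ℝ) → C(X.E → G, ℝ) := fun v => ⟨B, hB⟩ * ∏ f : X.F, v.comp ⟨fun U => hol X U f,
      hol_cont X f⟩ with hH
    have hHc : Continuous H := by
      refine continuous_const.mul (continuous_finsetProd _ fun f _ => ?_)
      exact ContinuousMap.continuous_precomp _
    have hI : Continuous fun h : C(X.E → G, ℝ) => ∫ U, h U ∂P μ X.E :=
      cont_int (P μ X.E) (F := fun (h : C(X.E → G, ℝ)) U => h U) (by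
        exact ContinuousEval.continuous_eval)
    have h1 := ((hI.comp hHc).tendsto W').comp h0
    have h2 : ∀ v : C(G, ℝ), ∫ U, H v U ∂P μ X.E = ∫ U, B U * wt X v U ∂P μ X.E := by
      intro v
      refine integral_congr_ae (Filter.Eventually.of_forall fun U => ?_)
      simp only [hH, ContinuousMap.mul_apply, ContinuousMap.coe_mk, ContinuousMap.prod_apply,
        ContinuousMap.comp_apply]
      rfl
    simp only [Function.comp_def, h2] at h1
    exact h1
  have h1 := key A hA
  have h2 := key (fun _ => 1) continuous_const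
  simp only [one_mul] at h2
  exact h1.div h2 (Z_pos μ X hc hpos).ne'

end

end Pool.Agent.T2H03.HX
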