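import Mathlib
import Pool.Agent.T2H03.HX.Exact
import Pool.Agent.T2H04.HY.Low

/-!
# Estimates for the renormalisation step near the constant function
-/

open MeasureTheory Filter
open scoped Topology
open Pool.Agent.T2H04.HY (cnv cnv4 continuous_cnv right_inv' inv_inv' PD norm_pos pd_mk)
open Pool.Agent.T2H04

namespace Pool.Agent.T2H03.HX

set_option linter.unusedSectionVars false

noncomputable section

variable {G : Type} [Group G] [TopologicalSpace G] [IsTopologicalGroup G] [CompactSpace G]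
  [MeasurableSpace G] [BorelSpace G] (μ : Measure G)
  [IsProbabilityMeasure μ] [μ.IsHaarMeasure]

/-- the `L¹` norm -/
def N1 (g : G → ℝ) : ℝ := ∫ x, |g x| ∂μ

lemma ig {g : G → ℝ} (hg : Continuous g) : Integrable g μ :=
  hg.integrable_of_hasCompactSupport (HasCompactSupport.of_compactSpace _)

lemma N1_nonneg (g : G → ℝ) : 0 ≤ N1 μ g := integral_nonneg fun _ => abs_nonneg _

lemma abs_int_le (g : G → ℝ) : |∫ x, g x ∂μ| ≤ N1 μ g := abs_integral_le_integral_abs

lemma shr' (f : G → ℝ) (g : G) : ∫ y, f (y⁻¹ * g) ∂μ = ∫ y, f y ∂μ := by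
  rw [shi μ fun y => f (y * g), shr μ]

lemma cnv_abs_le {g h g' h' : G → ℝ} (hg' : Continuous g') (hh' : Continuous h')
    (h1 : ∀ x, |g x| ≤ g' x) (h2 : ∀ x, |h x| ≤ h' x) (x : G) :
    |cnv μ g h x| ≤ cnv μ g' h' x := by
  unfold cnv
  refine (abs_integral_le_integral_abs).trans ?_
  refine integral_mono_of_nonneg (Filter.Eventually.of_forall fun y => abs_nonneg _)
    (ig μ (by fun_prop)) (Filter.Eventually.of_forall fun y => ?_)
  simp only
  rw [abs_mul]
  exact mul_le_mul (h1 _) (h2 _) (abs_nonneg _) ((abs_nonneg _).trans (h1 _))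

lemma cnv_left {g h : G → ℝ} (hg : Continuous g) {b : ℝ}
    (hb : ∀ x, |h x| ≤ b) (x : G) : |cnv μ g h x| ≤ N1 μ g * b := by
  refine (cnv_abs_le μ (g' := fun x => |g x|) (h' := fun _ => b) (by fun_prop)
    continuous_const (fun _ => le_rfl) hb x).trans (le_of_eq ?_)
  unfold cnv N1
  rw [integral_mul_const]

lemma cnv_right {g h : G → ℝ} (hh : Continuous h) {b : ℝ}
    (hb : ∀ x, |g x| ≤ b) (x : G) : |cnv μ g h x| ≤ b * N1 μ h := by
  refine (cnv_abs_le μ (g' := fun _ => b) (h' := fun x => |h x|) continuous_const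
    (by fun_prop) hb (fun _ => le_rfl) x).trans (le_of_eq ?_)
  unfold cnv N1
  rw [integral_const_mul, shr' μ fun y => |h y|]

lemma N1_cnv {g h : G → ℝ} (hg : Continuous g) (hh : Continuous h) :
    N1 μ (cnv μ g h) ≤ N1 μ g * N1 μ h := by
  have h1 := HY.Low.int_cnv μ (f := fun x => |g x|) (g := fun x => |h x|) (by fun_prop)
    (by fun_prop)
  unfold N1
  rw [← h1]
  refine integral_mono (ig μ (by have := continuous_cnv μ hg hh; fun_prop))
    (ig μ (continuous_cnv μ (by fun_prop) (by fun_prop))) fun x => ?_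
  exact cnv_abs_le μ (by fun_prop) (by fun_prop) (fun _ => le_rfl) (fun _ => le_rfl) x

lemma cnv_near {f β : G → ℝ} (hf : Continuous f) (hβ : Continuous β) {ε : ℝ}
    (he : ∀ x, |f x - 1| ≤ ε) (x : G) : |cnv μ β f x - ∫ y, β y ∂μ| ≤ N1 μ β * ε := by
  have h1 : cnv μ β f x - ∫ y, β y ∂μ = cnv μ β (fun y => f y - 1) x := by
    unfold cnv
    rw [← integral_sub (ig μ (by fun_prop)) (ig μ (by fun_prop))]
    exact integral_congr_ae (Filter.Eventually.of_forall fun y => by simp only; ring)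
  rw [h1]
  exact cnv_left μ hβ he x

lemma cnv_near' {f β : G → ℝ} (hf : Continuous f) (hβ : Continuous β) {ε : ℝ}
    (he : ∀ x, |f x - 1| ≤ ε) (x : G) : |cnv μ f β x - ∫ y, β y ∂μ| ≤ ε * N1 μ β := by
  have h1 : cnv μ f β x - ∫ y, β y ∂μ = cnv μ (fun y => f y - 1) β x := by
    unfold cnv
    rw [← shr' μ β x, ← integral_sub (ig μ (by fun_prop)) (ig μ (by fun_prop))]
    exact integral_congr_ae (Filter.Eventually.of_forall fun y => by simp only; ring)
  rw [h1]
  exact cnv_right μ hβ he x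

/-- a density near the constant function -/
structure Near (f : G → ℝ) (ε : ℝ) : Prop where
  cont : Continuous f
  cls : IsCls f
  nonneg : ∀ x, 0 ≤ f x
  int : ∫ x, f x ∂μ = 1
  near : ∀ x, |f x - 1| ≤ ε
  small : ε ≤ 1 / 2

variable {μ}

lemma N1_of_nonneg {f : G → ℝ} (hf : ∀ x, 0 ≤ f x) : N1 μ f = ∫ x, f x ∂μ := by
  unfold N1
  exact integral_congr_ae (Filter.Eventually.of_forall fun x => abs_of_nonneg (hf x))

lemma Near.N1 {f : G → ℝ} {ε : ℝ} (h : Near μ f ε) : N1 μ f = 1 := by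
  rw [N1_of_nonneg h.nonneg, h.int]

lemma cnv_nonneg {f g : G → ℝ} (hf : ∀ x, 0 ≤ f x) (hg : ∀ x, 0 ≤ g x) (x : G) :
    0 ≤ cnv μ f g x := integral_nonneg fun y => mul_nonneg (hf y) (hg _)

lemma Near.conv {f : G → ℝ} {ε : ℝ} (h : Near μ f ε) : Near μ (cnv μ f f) ε := by
  refine ⟨continuous_cnv μ h.cont h.cont, fun x y => HY.Asm.cnv_cls μ h.cls h.cls x y,
    fun x => cnv_nonneg h.nonneg h.nonneg x, ?_, fun x => ?_, h.small⟩
  · rw [HY.Low.int_cnv μ h.cont h.cont, h.int, one_mul]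
  · have h1 := cnv_near μ h.cont h.cont h.near x
    rwa [h.int, h.N1, one_mul] at h1

lemma Near.eps {f : G → ℝ} {ε : ℝ} (h : Near μ f ε) : 0 ≤ ε := (abs_nonneg _).trans (h.near 1)

lemma Near.le {f : G → ℝ} {ε : ℝ} (h : Near μ f ε) (x : G) : f x ≤ 3 / 2 := by
  have h1 := (abs_le.1 (h.near x)).2
  have := h.small
  linarith

lemma Near.ge {f : G → ℝ} {ε : ℝ} (h : Near μ f ε) (x : G) : 1 / 2 ≤ f x := by
  have h1 := (abs_le.1 (h.near x)).1
  have := h.small
  linarith

lemma Near.c4 {f : G → ℝ} {ε : ℝ} (h : Near μ f ε) : Near μ (cnv4 μ f) ε := h.conv.conv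

lemma cnv_add {f f' g : G → ℝ} (hf : Continuous f) (hf' : Continuous f') (hg : Continuous g)
    (c : ℝ) : cnv μ (fun x => f x + c * f' x) g = fun x => cnv μ f g x + c * cnv μ f' g x := by
  funext x
  unfold cnv
  rw [← integral_const_mul, ← integral_add (ig μ (by fun_prop)) (ig μ (by fun_prop))]
  exact integral_congr_ae (Filter.Eventually.of_forall fun y => by simp only; ring)

lemma cnv_add' {f g g' : G → ℝ} (hf : Continuous f) (hg : Continuous g) (hg' : Continuous g')
    (c : ℝ) : cnv μ f (fun x => g x + c * g' x) = fun x => cnv μ f g x + c * cnv μ f g' x := by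
  funext x
  unfold cnv
  rw [← integral_const_mul, ← integral_add (ig μ (by fun_prop)) (ig μ (by fun_prop))]
  exact integral_congr_ae (Filter.Eventually.of_forall fun y => by simp only; ring)

/-- two marks in one copy -/
lemma two_small {f δ α : G → ℝ} {ε : ℝ} (h : Near μ f ε) (hδ : Continuous δ) (hα : Continuous α)
    (hα1 : N1 μ α ≤ 1) {s s' : Fin 4} (hs : s ≠ s') (x : G) :
    |cv μ (fun r => if r = s then δ else if r = s' then α else f) x| ≤
      |∫ y, δ y ∂μ| + N1 μ δ * ε := by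
  have he := h.eps
  have hN := N1_nonneg μ δ
  have hNα := N1_nonneg μ α
  set b := |∫ y, δ y ∂μ| + N1 μ δ * ε with hb
  have hb0 : 0 ≤ b := by positivity
  -- basic bounds
  have a1 : ∀ x, |cnv μ δ f x| ≤ b := by
    intro x
    have h1 := cnv_near μ h.cont hδ h.near x
    have h2 : |cnv μ δ f x| ≤ |cnv μ δ f x - ∫ y, δ y ∂μ| + |∫ y, δ y ∂μ| := by
      have := abs_add_le (cnv μ δ f x - ∫ y, δ y ∂μ) (∫ y, δ y ∂μ)
      rwa [sub_add_cancel] at this
    linarith
  have a2 : ∀ x, |cnv μ f δ x| ≤ b := by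
    intro x
    have h1 := cnv_near' μ h.cont hδ h.near x
    have h2 : |cnv μ f δ x| ≤ |cnv μ f δ x - ∫ y, δ y ∂μ| + |∫ y, δ y ∂μ| := by
      have := abs_add_le (cnv μ f δ x - ∫ y, δ y ∂μ) (∫ y, δ y ∂μ)
      rwa [sub_add_cancel] at this
    rw [mul_comm] at h1
    linarith
  have b1 : N1 μ (cnv μ α f) ≤ 1 := by
    have h1 := N1_cnv μ hα h.cont
    rw [h.N1, mul_one] at h1
    exact h1.trans hα1
  have b2 : N1 μ (cnv μ f α) ≤ 1 := by
    have h1 := N1_cnv μ h.cont hα
    rw [h.N1, one_mul] at h1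
    exact h1.trans hα1
  have c1 := continuous_cnv μ hα h.cont
  have c2 := continuous_cnv μ h.cont hα
  have c3 := continuous_cnv μ hδ h.cont
  have c4 := continuous_cnv μ h.cont hδ
  have c5 := continuous_cnv μ hδ hα
  have c6 := continuous_cnv μ hα hδ
  -- the marks in the same pair
  have key : ∀ g : G → ℝ, Continuous g → |∫ y, g y ∂μ| ≤ |∫ y, δ y ∂μ| → N1 μ g ≤ N1 μ δ →
      ∀ x, |cnv μ g (cnv μ f f) x| ≤ b ∧ |cnv μ (cnv μ f f) g x| ≤ b := by
    intro g hg h1 h2 x
    have h3 := cnv_near μ h.conv.cont hg h.conv.near x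
    have h4 := cnv_near' μ h.conv.cont hg h.conv.near x
    have h5 : N1 μ g * ε ≤ N1 μ δ * ε := mul_le_mul_of_nonneg_right h2 he
    constructor
    · have h6 := abs_add_le (cnv μ g (cnv μ f f) x - ∫ y, g y ∂μ) (∫ y, g y ∂μ)
      rw [sub_add_cancel] at h6
      linarith
    · have h6 := abs_add_le (cnv μ (cnv μ f f) g x - ∫ y, g y ∂μ) (∫ y, g y ∂μ)
      rw [sub_add_cancel] at h6
      rw [mul_comm] at h4
      linarith
  have hαi : |∫ y, α y ∂μ| ≤ 1 := (abs_int_le μ α).trans hα1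
  have k1 := key (cnv μ δ α) c5 (by
    rw [HY.Low.int_cnv μ hδ hα, abs_mul]
    exact mul_le_of_le_one_right (abs_nonneg _) hαi) ((N1_cnv μ hδ hα).trans
      (mul_le_of_le_one_right hN hα1))
  have k2 := key (cnv μ α δ) c6 (by
    rw [HY.Low.int_cnv μ hα hδ, abs_mul]
    exact mul_le_of_le_one_left (abs_nonneg _) hαi) ((N1_cnv μ hα hδ).trans
      (mul_le_of_le_one_left hN hα1))
  have r1 : ∀ {g g' : G → ℝ}, Continuous g' → (∀ x, |g x| ≤ b) → N1 μ g' ≤ 1 →
      |cnv μ g g' x| ≤ b := by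
    intro g g' hg' h1 h2
    exact (cnv_right μ hg' h1 x).trans (mul_le_of_le_one_right hb0 h2)
  have r2 : ∀ {g g' : G → ℝ}, Continuous g → (∀ x, |g' x| ≤ b) → N1 μ g ≤ 1 →
      |cnv μ g g' x| ≤ b := by
    intro g g' hg h1 h2
    exact (cnv_left μ hg h1 x).trans (mul_le_of_le_one_left hb0 h2)
  unfold cv
  fin_cases s <;> fin_cases s' <;> simp at hs ⊢
  · exact (k1 x).1
  · exact r1 c1 a1 b1
  · exact r1 c2 a1 b2
  · exact (k2 x).1
  · exact r1 c1 a2 b1
  · exact r1 c2 a2 b2
  · exact r2 c1 a1 b1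
  · exact r2 c2 a1 b2
  · exact (k1 x).2
  · exact r2 c1 a2 b1
  · exact r2 c2 a2 b2
  · exact (k2 x).2

/-- one mark -/
lemma one_small {f δ : G → ℝ} {ε : ℝ} (h : Near μ f ε) (hδ : Continuous δ) (s : Fin 4) (x : G) :
    |cv μ (fun r => if r = s then δ else f) x| ≤ |∫ y, δ y ∂μ| + N1 μ δ * ε := by
  have h1 : s ≠ s + 1 := by fin_cases s <;> simp
  have h2 := two_small h hδ h.cont h.N1.le h1 x
  have h3 : (fun r : Fin 4 => if r = s then δ else if r = s + 1 then f else f) =
      fun r => if r = s then δ else f := by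
    funext r
    split_ifs <;> rfl
  rwa [h3] at h2

lemma cv_abs_le {k k' : Fin 4 → G → ℝ} (hk' : ∀ s, Continuous (k' s))
    (h : ∀ s x, |k s x| ≤ k' s x) (x : G) : |cv μ k x| ≤ cv μ k' x := by
  unfold cv
  exact cnv_abs_le μ (continuous_cnv μ (hk' 0) (hk' 1)) (continuous_cnv μ (hk' 2) (hk' 3))
    (fun x => cnv_abs_le μ (hk' 0) (hk' 1) (h 0) (h 1) x)
    (fun x => cnv_abs_le μ (hk' 2) (hk' 3) (h 2) (h 3) x) x

lemma J_abs_le {k k' : Fin 4 × Fin 4 → G → ℝ} (hk' : ∀ p, Continuous (k' p))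
    (h : ∀ p x, |k p x| ≤ k' p x) (x : G) : |J μ k x| ≤ J μ k' x := by
  unfold J
  rw [Finset.abs_prod]
  exact Finset.prod_le_prod (fun i _ => abs_nonneg _) fun i _ =>
    cv_abs_le (fun s => hk' (i, s)) (fun s => h (i, s)) x

lemma J_const (f : G → ℝ) (x : G) : J μ (fun _ => f) x = (cnv4 μ f x) ^ 4 := by
  unfold J
  rw [Finset.prod_const, Finset.card_univ, Fintype.card_fin]
  rfl

lemma J_cc {k : Fin 4 × Fin 4 → G → ℝ} (hk : ∀ p, CC (k p)) : CC (J μ k) := by
  refine ⟨?_, fun x y => ?_⟩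
  · unfold J
    exact continuous_finsetProd _ fun i _ => (cv_cc μ fun s => hk (i, s)).cont
  · unfold J
    exact Finset.prod_congr rfl fun i _ => (cv_cc μ fun s => hk (i, s)).cls x y

/-- a bound in terms of the smallest factor -/
lemma J_small {k : Fin 4 × Fin 4 → G → ℝ} (i : Fin 4) {b : ℝ} (x : G)
    (h1 : |cv μ (fun s => k (i, s)) x| ≤ b)
    (h2 : ∀ j, j ≠ i → |cv μ (fun s => k (j, s)) x| ≤ 3 / 2) : |J μ k x| ≤ b * (27 / 8) := by
  have hb : 0 ≤ b := (abs_nonneg _).trans h1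
  unfold J
  rw [Finset.abs_prod, ← Finset.mul_prod_erase Finset.univ _ (Finset.mem_univ i)]
  have h3 : ∏ j ∈ Finset.univ.erase i, |cv μ (fun s => k (j, s)) x| ≤
      ∏ _j ∈ Finset.univ.erase i, (3 / 2 : ℝ) :=
    Finset.prod_le_prod (fun _ _ => abs_nonneg _) fun j hj => h2 j (Finset.ne_of_mem_erase hj)
  rw [Finset.prod_const, Finset.card_erase_of_mem (Finset.mem_univ i), Finset.card_univ,
    Fintype.card_fin] at h3
  have h4 : ((3 : ℝ) / 2) ^ (4 - 1) = 27 / 8 := by norm_num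
  rw [h4] at h3
  exact mul_le_mul h1 h3 (Finset.prod_nonneg fun _ _ => abs_nonneg _) hb

/-- two marks -/
lemma J_two {f δ α : G → ℝ} {ε : ℝ} (h : Near μ f ε) (hδ : Continuous δ)
    (hα1 : ∀ x, |α x| ≤ f x) (hα : Continuous α) {p q : Fin 4 × Fin 4} (hpq : p ≠ q) (x : G) :
    |J μ (fun r => if r = p then δ else if r = q then α else f) x| ≤
      (|∫ y, δ y ∂μ| + N1 μ δ * ε) * (27 / 8) := by
  obtain ⟨i, s⟩ := p
  obtain ⟨j, t⟩ := q
  have hN : N1 μ α ≤ 1 := by
    rw [← h.N1]
    unfold N1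
    exact integral_mono (ig μ (by fun_prop)) (ig μ (by have := h.cont; fun_prop)) fun x =>
      (hα1 x).trans (le_abs_self _)
  refine J_small i x ?_ fun i' hi' => ?_
  · by_cases hij : j = i
    · subst hij
      have hst : s ≠ t := fun hh => hpq (by rw [hh])
      simp only [Prod.mk.injEq, true_and]
      exact two_small h hδ hα hN hst x
    · have h1 : (fun s' : Fin 4 => if (i, s') = (i, s) then δ else
          if (i, s') = (j, t) then α else f) = fun r => if r = s then δ else f := by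
        funext r
        have : i ≠ j := fun hh => hij hh.symm
        simp [this]
      simp only [h1]
      exact one_small h hδ s x
  · have h1 : ∀ s' : Fin 4, ∀ x, |(if (i', s') = (i, s) then δ else
        if (i', s') = (j, t) then α else f) x| ≤ f x := by
      intro s' x
      have : ¬((i', s') = (i, s)) := fun hh => hi' (Prod.mk.inj hh).1
      rw [if_neg this]
      split_ifs
      · exact hα1 x
      · rw [abs_of_nonneg (h.nonneg x)]
    refine (cv_abs_le (k' := fun _ => f) (fun _ => h.cont) h1 x).trans ?_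
    exact h.c4.le x

/-- one mark -/
lemma J_one {f δ : G → ℝ} {ε : ℝ} (h : Near μ f ε) (hδ : Continuous δ) (p : Fin 4 × Fin 4)
    (x : G) : |J μ (fun r => if r = p then δ else f) x| ≤
      (|∫ y, δ y ∂μ| + N1 μ δ * ε) * (27 / 8) := by
  have h1 : p ≠ (p.1 + 1, p.2) := by
    obtain ⟨i, s⟩ := p
    intro hh
    have := (Prod.mk.inj hh).1
    revert this
    fin_cases i <;> simp
  have h2 := J_two h hδ (α := f) (fun x => by rw [abs_of_nonneg (h.nonneg x)]) h.cont h1 x
  have h3 : (fun r : Fin 4 × Fin 4 => if r = p then δ else if r = (p.1 + 1, p.2) then f else f) =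
      fun r => if r = p then δ else f := by
    funext r
    split_ifs <;> rfl
  rwa [h3] at h2

lemma cv_lin {f β γ : G → ℝ} {k : Fin 4 → G → ℝ} (hk : ∀ s, Continuous (k s))
    (hβ : Continuous β) (hγ : Continuous γ) (c : ℝ) (s : Fin 4) :
    cv μ (fun r => if r = s then (fun x => β x + c * γ x) else k r) = fun x =>
      cv μ (fun r => if r = s then β else k r) x + c * cv μ (fun r => if r = s then γ else k r) x := by
  have h0 := hk 0
  have h1 := hk 1
  have h2 := hk 2
  have h3 := hk 3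
  unfold cv
  fin_cases s <;> simp
  · rw [cnv_add hβ hγ h1 c, cnv_add (continuous_cnv μ hβ h1) (continuous_cnv μ hγ h1)
      (continuous_cnv μ h2 h3)]
  · rw [cnv_add' h0 hβ hγ c, cnv_add (continuous_cnv μ h0 hβ) (continuous_cnv μ h0 hγ)
      (continuous_cnv μ h2 h3)]
  · rw [cnv_add hβ hγ h3 c, cnv_add' (continuous_cnv μ h0 h1) (continuous_cnv μ hβ h3)
      (continuous_cnv μ hγ h3)]
  · rw [cnv_add' h2 hβ hγ c, cnv_add' (continuous_cnv μ h0 h1) (continuous_cnv μ h2 hβ)
      (continuous_cnv μ h2 hγ)]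

/-- linearity in one of the sixteen functions -/
lemma J_lin {β γ : G → ℝ} {k : Fin 4 × Fin 4 → G → ℝ} (hk : ∀ p, Continuous (k p))
    (hβ : Continuous β) (hγ : Continuous γ) (c : ℝ) (p : Fin 4 × Fin 4) (x : G) :
    J μ (fun r => if r = p then (fun x => β x + c * γ x) else k r) x =
      J μ (fun r => if r = p then β else k r) x + c * J μ (fun r => if r = p then γ else k r) x := by
  obtain ⟨i, s⟩ := p
  unfold J
  rw [← Finset.mul_prod_erase Finset.univ _ (Finset.mem_univ i),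
    ← Finset.mul_prod_erase Finset.univ (fun i' => cv μ (fun s' => if (i', s') = (i, s) then β
      else k (i', s')) x) (Finset.mem_univ i),
    ← Finset.mul_prod_erase Finset.univ (fun i' => cv μ (fun s' => if (i', s') = (i, s) then γ
      else k (i', s')) x) (Finset.mem_univ i)]
  have h1 : ∀ g : G → ℝ, ∏ i' ∈ Finset.univ.erase i, cv μ (fun s' => if (i', s') = (i, s) then g
      else k (i', s')) x = ∏ i' ∈ Finset.univ.erase i, cv μ (fun s' => k (i', s')) x := by
    intro g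
    refine Finset.prod_congr rfl fun i' hi' => ?_
    have h2 : (fun s' : Fin 4 => if (i', s') = (i, s) then g else k (i', s')) =
        fun s' => k (i', s') := by
      funext s'
      rw [if_neg fun hh => Finset.ne_of_mem_erase hi' (Prod.mk.inj hh).1]
    rw [h2]
  rw [h1, h1, h1]
  have h2 := cv_lin (μ := μ) (f := β) (k := fun s' => k (i, s')) (fun s' => hk (i, s')) hβ hγ c s
  have h3 : ∀ g : G → ℝ, (fun s' : Fin 4 => if (i, s') = (i, s) then g else k (i, s')) =
      fun r => if r = s then g else k (i, r) := by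
    intro g
    funext r
    simp
  rw [h3, h3, h3, h2]
  ring

end

end Pool.Agent.T2H03.HX
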