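import Mathlib
import Pool.Agent.T2H03.HX.Ana

/-!
# Reduced expectations of local observables
-/

open MeasureTheory Filter
open scoped Topology
open Pool.Agent.T2H04.HY (cnv cnv4 continuous_cnv continuous_cnv4 right_inv' inv_inv' PD norm_pos
  pd_mk)
open Pool.Agent.T2H04

namespace Pool.Agent.T2H03.HX

set_option linter.unusedSectionVars false

noncomputable section

variable {G : Type} [Group G] [TopologicalSpace G] [IsTopologicalGroup G] [CompactSpace G]
  [SecondCountableTopology G] [MeasurableSpace G] [BorelSpace G] (μ : Measure G)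
  [IsProbabilityMeasure μ] [μ.IsHaarMeasure]

/-- the normalising factor of a renormalisation step -/
def zz (w : G → ℝ) : ℝ := ∫ y, (cnv4 μ w y) ^ 4 ∂μ

lemma int_cnv4 {w : G → ℝ} (hw : PD μ w) : ∫ y, cnv4 μ w y ∂μ = 1 := by
  have hc := continuous_cnv μ hw.cont hw.cont
  have h1 := HY.Low.int_cnv μ hc hc
  rw [HY.Low.int_cnv μ hw.cont hw.cont, hw.int, one_mul, one_mul] at h1
  exact h1

lemma zz_ge {w : G → ℝ} (hw : PD μ w) : 1 ≤ zz μ w := by
  have hc := continuous_cnv4 μ hw.cont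
  have h1 : ∫ y, (4 * cnv4 μ w y - 3) ∂μ ≤ ∫ y, cnv4 μ w y ^ 4 ∂μ :=
    integral_mono (ig μ (by fun_prop)) (ig μ (by fun_prop)) fun y => by
      nlinarith [sq_nonneg (cnv4 μ w y ^ 2 - 1), sq_nonneg (cnv4 μ w y - 1)]
  rw [integral_sub (ig μ (by fun_prop)) (ig μ (by fun_prop)), integral_const_mul,
    int_cnv4 μ hw, integral_const, probReal_univ, one_smul] at h1
  unfold zz
  linarith

lemma mk_eq (w : G → ℝ) (x : G) : HY.mk μ w x = cnv4 μ w x ^ 4 / zz μ w := rfl

lemma cnv_smul (f g : G → ℝ) (c d : ℝ) :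
    cnv μ (fun x => c * f x) (fun x => d * g x) = fun x => (c * d) * cnv μ f g x := by
  funext x
  unfold cnv
  rw [← integral_const_mul]
  exact integral_congr_ae (Filter.Eventually.of_forall fun y => by simp only; ring)

lemma cv_smul (k : Fin 4 → G → ℝ) (c : ℝ) :
    cv μ (fun s x => c * k s x) = fun x => c ^ 4 * cv μ k x := by
  unfold cv
  simp only [cnv_smul]
  funext x
  ring

lemma J_smul (k : Fin 4 × Fin 4 → G → ℝ) (c : ℝ) (x : G) :
    J μ (fun p x => c * k p x) x = c ^ 16 * J μ k x := by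
  unfold J
  have h1 : ∀ i : Fin 4, cv μ (fun s => (fun p x => c * k p x) (i, s)) x =
      c ^ 4 * cv μ (fun s => k (i, s)) x := fun i => congrFun (cv_smul μ (fun s => k (i, s)) c) x
  simp only [h1]
  rw [Finset.prod_mul_distrib, Finset.prod_const, Finset.card_univ, Fintype.card_fin]
  ring

/-- the normalising constant of a box -/
def cc (w : G → ℝ) : ℕ → ℝ
  | 0 => 1
  | n + 1 => cc w n ^ 16 * zz μ ((HY.mk μ)^[n] w)

/-- the reduced expectation -/
def nr (w : G → ℝ) (n : ℕ) (K : ((Bx n).E → G) → ℝ) (T : G) : ℝ :=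
  red μ n (fun U => K U * wt (Bx n) w U) T / cc μ w n

variable {μ}

lemma cc_pos {w : G → ℝ} (hw : PD μ w) (n : ℕ) : 0 < cc μ w n := by
  induction n with
  | zero => exact one_pos
  | succ n ih =>
    exact mul_pos (pow_pos ih _) (lt_of_lt_of_le one_pos (zz_ge μ (HY.Asm.iter_pd μ hw n)))

lemma wc {w : G → ℝ} (hw : PD μ w) (hc : IsCls w) : CC w := ⟨hw.cont, hc⟩

lemma iter_cc {w : G → ℝ} (hw : PD μ w) (hc : IsCls w) (n : ℕ) : CC ((HY.mk μ)^[n] w) :=
  ⟨(HY.Asm.iter_pd μ hw n).cont, HY.Asm.iter_cls μ hc n⟩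

lemma nr_cc {w : G → ℝ} (hw : PD μ w) (hc : IsCls w) {n : ℕ} {K : ((Bx n).E → G) → ℝ}
    (hK : Inv (Bx n) K) : CC (nr μ w n K) := by
  have h1 := red_cc μ (hK.mul (inv_wt (Bx n) (wc hw hc)))
  refine ⟨h1.cont.div_const _, fun x y => ?_⟩
  unfold nr
  rw [h1.cls x y]

theorem nr_prod {w : G → ℝ} (hw : PD μ w) (hc : IsCls w) {n : ℕ}
    {K : Fin 4 × Fin 4 → ((Bx n).E → G) → ℝ} (hK : ∀ p, Inv (Bx n) (K p)) :
    nr μ w (n + 1) (fun U => ∏ p, K p (U ∘ (emb n p).e)) =
      fun T => J μ (fun p => nr μ w n (K p)) T / zz μ ((HY.mk μ)^[n] w) := by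
  funext T
  have hcn := cc_pos hw n
  have h1 : (fun U : (Bx (n + 1)).E → G => (∏ p, K p (U ∘ (emb n p).e)) * wt (Bx (n + 1)) w U) =
      fun U => ∏ p, (fun V => K p V * wt (Bx n) w V) (U ∘ (emb n p).e) := by
    funext U
    rw [wt_cov (cov_emb n), ← Finset.prod_mul_distrib]
  unfold nr
  rw [h1, red_prod μ (K := fun p V => K p V * wt (Bx n) w V) fun p =>
    (hK p).mul (inv_wt (Bx n) (wc hw hc))]
  have h2 : (fun p => red μ n fun V => K p V * wt (Bx n) w V) =
      fun p x => cc μ w n * (red μ n (fun V => K p V * wt (Bx n) w V) x / cc μ w n) := by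
    funext p x
    field_simp
  rw [h2, J_smul μ (fun p x => red μ n (fun V => K p V * wt (Bx n) w V) x / cc μ w n)]
  show _ / (cc μ w n ^ 16 * zz μ ((HY.mk μ)^[n] w)) = _
  rw [mul_div_mul_left _ _ (pow_pos hcn 16).ne']

theorem nr_one {w : G → ℝ} (hw : PD μ w) (hc : IsCls w) (n : ℕ) :
    nr μ w n (fun _ => 1) = (HY.mk μ)^[n] w := by
  induction n with
  | zero =>
    funext T
    show (1 * ∏ f : sq.F, w (hol sq ![T, 1, 1, 1] f)) / 1 = w T
    rw [div_one, one_mul, Fintype.prod_unique]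
    show w (hol sq ![T, 1, 1, 1] ()) = w T
    rw [hol_sq]
  | succ n ih =>
    have h1 := nr_prod hw hc (n := n) (K := fun _ _ => 1) fun p => Inv.const (Bx n) 1
    simp only [Finset.prod_const_one] at h1
    rw [h1, ih]
    funext T
    rw [Function.iterate_succ_apply', J_const, mk_eq]

lemma Cn_abs_le (n : ℕ) (X : Cx) {F F' : ((X.refs n).E → G) → ℝ} (hF' : Continuous F')
    (h : ∀ U, |F U| ≤ F' U) (V : X.E → G) : |Cn μ n X F V| ≤ Cn μ n X F' V := by
  induction n generalizing X with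
  | zero => exact h V
  | succ n ih =>
    show |∫ u, Cn μ n X.ref F (asm X V u) ∂P μ (In X)| ≤
      ∫ u, Cn μ n X.ref F' (asm X V u) ∂P μ (In X)
    refine (abs_integral_le_integral_abs).trans ?_
    refine integral_mono_of_nonneg (Filter.Eventually.of_forall fun y => abs_nonneg _)
      (integ μ ?_) (Filter.Eventually.of_forall fun u => ih X.ref hF' h _)
    exact (Cn_cont μ n X.ref hF').comp ((asm_cont X).comp (Continuous.prodMk_right V))

theorem nr_abs {w : G → ℝ} (hw : PD μ w) (hc : IsCls w) {n : ℕ} {K : ((Bx n).E → G) → ℝ}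
    (hK : ∀ U, |K U| ≤ 1) (T : G) : |nr μ w n K T| ≤ (HY.mk μ)^[n] w T := by
  rw [← nr_one hw hc n]
  unfold nr
  rw [abs_div, abs_of_pos (cc_pos hw n)]
  refine div_le_div_of_nonneg_right ?_ (cc_pos hw n).le
  refine Cn_abs_le n sq ?_ (fun U => ?_) _
  · exact continuous_const.mul (wt_cont _ hw.cont)
  · rw [abs_mul]
    have h1 : 0 ≤ wt (Bx n) w U := Finset.prod_nonneg fun _ _ => hw.nonneg _
    rw [abs_of_nonneg h1]
    exact mul_le_mul_of_nonneg_right (hK U) h1

theorem nr_int {w : G → ℝ} (hw : PD μ w) (hc : IsCls w) {n : ℕ} {K : ((Bx n).E → G) → ℝ}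
    (hK : Inv (Bx n) K) : ex μ (Bx n) w K = ∫ T, nr μ w n K T ∂μ := by
  have hcn := cc_pos hw n
  have key : ∀ K : ((Bx n).E → G) → ℝ, Inv (Bx n) K →
      ∫ U, K U * wt (Bx n) w U ∂P μ (Bx n).E = cc μ w n * ∫ T, nr μ w n K T ∂μ := by
    intro K hK
    rw [int_red μ (hK.mul (inv_wt (Bx n) (wc hw hc))), ← integral_const_mul]
    refine integral_congr_ae (Filter.Eventually.of_forall fun T => ?_)
    simp only [nr]
    field_simp
  have h1 := key K hK
  have h2 := key (fun _ => 1) (Inv.const _ 1)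
  simp only [one_mul] at h2
  rw [nr_one hw hc, (HY.Asm.iter_pd μ hw n).int, mul_one] at h2
  unfold ex
  rw [show (∫ U, K U * wt (Bx n) w U ∂Measure.pi fun _ => μ) = _ from h1,
    show (∫ U, wt (Bx n) w U ∂Measure.pi fun _ => μ) = _ from h2]
  field_simp

/-- one mark -/
theorem nr_mark {w : G → ℝ} (hw : PD μ w) (hc : IsCls w) {n : ℕ} {A : ((Bx n).E → G) → ℝ}
    (hA : Inv (Bx n) A) (p : Fin 4 × Fin 4) :
    nr μ w (n + 1) (fun U => A (U ∘ (emb n p).e)) =
      fun T => J μ (fun r => if r = p then nr μ w n A else (HY.mk μ)^[n] w) T /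
        zz μ ((HY.mk μ)^[n] w) := by
  have h1 := nr_prod hw hc (n := n) (K := fun r => if r = p then A else fun _ => 1) fun r => by
    split_ifs
    · exact hA
    · exact Inv.const (Bx n) 1
  have h2 : (fun U : (Bx (n + 1)).E → G => ∏ r : Fin 4 × Fin 4,
      (if r = p then A else fun _ => 1) (U ∘ (emb n r).e)) = fun U => A (U ∘ (emb n p).e) := by
    funext U
    rw [Finset.prod_eq_single p]
    · rw [if_pos rfl]
    · intro r _ hr
      rw [if_neg hr]
    · intro h
      exact absurd (Finset.mem_univ p) h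
  rw [h2] at h1
  rw [h1]
  funext T
  congr 2
  funext r
  split_ifs
  · rfl
  · exact nr_one hw hc n

/-- two marks -/
theorem nr_mark2 {w : G → ℝ} (hw : PD μ w) (hc : IsCls w) {n : ℕ} {A B : ((Bx n).E → G) → ℝ}
    (hA : Inv (Bx n) A) (hB : Inv (Bx n) B) {p q : Fin 4 × Fin 4} (hpq : p ≠ q) :
    nr μ w (n + 1) (fun U => A (U ∘ (emb n p).e) * B (U ∘ (emb n q).e)) =
      fun T => J μ (fun r => if r = p then nr μ w n A else if r = q then nr μ w n B else
        (HY.mk μ)^[n] w) T / zz μ ((HY.mk μ)^[n] w) := by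
  have h1 := nr_prod hw hc (n := n)
    (K := fun r => if r = p then A else if r = q then B else fun _ => 1) fun r => by
    split_ifs
    · exact hA
    · exact hB
    · exact Inv.const (Bx n) 1
  have h2 : (fun U : (Bx (n + 1)).E → G => ∏ r : Fin 4 × Fin 4,
      (if r = p then A else if r = q then B else fun _ => 1) (U ∘ (emb n r).e)) =
      fun U => A (U ∘ (emb n p).e) * B (U ∘ (emb n q).e) := by
    funext U
    rw [← Finset.mul_prod_erase Finset.univ _ (Finset.mem_univ p), if_pos rfl,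
      Finset.prod_eq_single q]
    · rw [if_neg hpq.symm, if_pos rfl]
    · intro r hr hr'
      rw [if_neg (Finset.ne_of_mem_erase hr), if_neg hr']
    · intro h
      exact absurd (Finset.mem_erase.2 ⟨hpq.symm, Finset.mem_univ q⟩) h
  rw [h2] at h1
  rw [h1]
  funext T
  congr 2
  funext r
  split_ifs
  · rfl
  · rfl
  · exact nr_one hw hc n

end

end Pool.Agent.T2H03.HX
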