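import Mathlib
import Pool.Agent.T2H03.HX.Nr

/-!
# The infinite volume limit of the reduced expectations
-/

open MeasureTheory Filter
open scoped Topology
open Pool.Agent.T2H04.HY (cnv cnv4 continuous_cnv continuous_cnv4 right_inv' inv_inv' PD norm_pos
  pd_mk)
open Pool.Agent.T2H04

namespace Pool.Agent.T2H03.HX

set_option linter.unusedSectionVars false

noncomputable section

variable {G : Type} [Group G] [TopologicalSpace G] [IsTopologicalGroup G] [CompactSpace G]
  [SecondCountableTopology G] [MeasurableSpace G] [BorelSpace G] (μ : Measure G)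
  [IsProbabilityMeasure μ] [μ.IsHaarMeasure]

/-- one step of the reduced expectation of an observable -/
def stp (v α : G → ℝ) (T : G) : ℝ := J μ (fun r => if r = (0, 0) then α else v) T / zz μ v

/-- several steps -/
def al (v α : G → ℝ) : ℕ → G → ℝ
  | 0 => α
  | m + 1 => stp μ ((HY.mk μ)^[m] v) (al v α m)

variable {μ}

lemma cnv_comm {f g : G → ℝ} (hf : IsCls f) : cnv μ f g = cnv μ g f := by
  funext x
  unfold cnv
  rw [← shl μ (fun y => f y * g (y⁻¹ * x)) x, ← shi μ (fun y => f (x * y) * g ((x * y)⁻¹ * x))]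
  refine integral_congr_ae (Filter.Eventually.of_forall fun y => ?_)
  simp only
  have e2 : (x * y⁻¹)⁻¹ * x = y := by group
  rw [e2, hf.comm, mul_comm]

lemma cv_at (α : G → ℝ) {f : G → ℝ} (hf : CC f) (s : Fin 4) :
    cv μ (fun r => if r = s then α else f) = cnv μ (cnv μ α f) (cnv μ f f) := by
  have h1 : cnv μ f α = cnv μ α f := cnv_comm hf.cls
  have h2 : cnv μ (cnv μ f f) (cnv μ α f) = cnv μ (cnv μ α f) (cnv μ f f) :=
    cnv_comm (cnv_cc μ hf hf).cls
  unfold cv
  fin_cases s <;> simp [h1, h2]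

lemma J_eq (α : G → ℝ) {f : G → ℝ} (hf : CC f) (p : Fin 4 × Fin 4) :
    J μ (fun r => if r = p then α else f) = fun T =>
      cnv μ (cnv μ α f) (cnv μ f f) T * (cnv4 μ f T) ^ 3 := by
  obtain ⟨i, s⟩ := p
  funext T
  unfold J
  rw [← Finset.mul_prod_erase Finset.univ _ (Finset.mem_univ i)]
  have h1 : (fun s' : Fin 4 => if (i, s') = (i, s) then α else f) =
      fun r => if r = s then α else f := by
    funext r
    simp
  rw [h1, cv_at α hf]
  congr 1
  have h2 : ∀ j ∈ Finset.univ.erase i, cv μ (fun s' => if (j, s') = (i, s) then α else f) T =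
      cnv4 μ f T := by
    intro j hj
    have h3 : (fun s' : Fin 4 => if (j, s') = (i, s) then α else f) = fun _ => f := by
      funext s'
      rw [if_neg fun hh => Finset.ne_of_mem_erase hj (Prod.mk.inj hh).1]
    rw [h3]
    rfl
  rw [Finset.prod_congr rfl h2, Finset.prod_const, Finset.card_erase_of_mem (Finset.mem_univ i),
    Finset.card_univ, Fintype.card_fin]

lemma J_at (α : G → ℝ) {f : G → ℝ} (hf : CC f) (p q : Fin 4 × Fin 4) :
    J μ (fun r => if r = p then α else f) = J μ (fun r => if r = q then α else f) := by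
  rw [J_eq α hf, J_eq α hf]

lemma stp_cc {v α : G → ℝ} (hv : CC v) (hα : CC α) : CC (stp μ v α) := by
  have h1 := J_cc (μ := μ) (k := fun r => if r = (0, 0) then α else v) fun p => by
    split_ifs
    · exact hα
    · exact hv
  refine ⟨h1.cont.div_const _, fun x y => ?_⟩
  unfold stp
  rw [h1.cls x y]

lemma stp_abs {v α : G → ℝ} (hv : PD μ v) (ha : ∀ x, |α x| ≤ v x) (T : G) :
    |stp μ v α T| ≤ HY.mk μ v T := by
  have hz : 0 < zz μ v := lt_of_lt_of_le one_pos (zz_ge μ hv)
  unfold stp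
  rw [abs_div, abs_of_pos hz, mk_eq, ← J_const]
  refine div_le_div_of_nonneg_right ?_ hz.le
  refine J_abs_le (fun _ => hv.cont) (fun p x => ?_) T
  split_ifs
  · exact ha x
  · rw [abs_of_nonneg (hv.nonneg x)]

/-- the reduced expectations of the observables at the position `x` -/
theorem al_cc {v α : G → ℝ} (hv : PD μ v) (hc : IsCls v) (hα : CC α) (m : ℕ) :
    CC (al μ v α m) := by
  induction m with
  | zero => exact hα
  | succ m ih => exact stp_cc (iter_cc hv hc m) ih

theorem al_abs {v α : G → ℝ} (hv : PD μ v) (ha : ∀ x, |α x| ≤ v x) (m : ℕ) (T : G) :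
    |al μ v α m T| ≤ (HY.mk μ)^[m] v T := by
  induction m generalizing T with
  | zero => exact ha T
  | succ m ih =>
    rw [Function.iterate_succ_apply']
    exact stp_abs (HY.Asm.iter_pd μ hv m) ih T

lemma inv_pos {n : ℕ} {A : ((Bx n).E → G) → ℝ} (hA : Inv (Bx n) A) (x : ℕ → Fin 4 × Fin 4)
    (m : ℕ) : Inv (Bx (n + m)) fun U => A (U ∘ pos n x m) := by
  induction m with
  | zero => exact hA
  | succ m ih => exact ih.comp (emb (n + m) (x m))

theorem nr_pos {w : G → ℝ} (hw : PD μ w) (hc : IsCls w) {n : ℕ} {A : ((Bx n).E → G) → ℝ}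
    (hA : Inv (Bx n) A) (x : ℕ → Fin 4 × Fin 4) (m : ℕ) :
    nr μ w (n + m) (fun U => A (U ∘ pos n x m)) = al μ ((HY.mk μ)^[n] w) (nr μ w n A) m := by
  induction m with
  | zero => rfl
  | succ m ih =>
    have h1 := nr_mark hw hc (inv_pos hA x m) (x m)
    have h2 : nr μ w (n + (m + 1)) (fun U => A (U ∘ pos n x (m + 1))) =
        nr μ w (n + m + 1) (fun U => (fun V : (Bx (n + m)).E → G => A (V ∘ pos n x m))
          (U ∘ (emb (n + m) (x m)).e)) := rfl
    have h3 : (HY.mk μ)^[m] ((HY.mk μ)^[n] w) = (HY.mk μ)^[n + m] w := by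
      rw [← Function.iterate_add_apply, add_comm]
    rw [h2, h1, ih]
    funext T
    show _ = J μ (fun r => if r = (0, 0) then _ else (HY.mk μ)^[m] ((HY.mk μ)^[n] w)) T /
      zz μ ((HY.mk μ)^[m] ((HY.mk μ)^[n] w))
    rw [h3, J_at _ (iter_cc hw hc (n + m)) (x m) (0, 0)]

/-! ### Estimates -/

lemma Near.pd {v : G → ℝ} {ε : ℝ} (h : Near μ v ε) : PD μ v := ⟨h.cont, h.nonneg, h.int⟩

lemma N1_le_of {v α : G → ℝ} (hv : PD μ v) (hα : Continuous α) (ha : ∀ x, |α x| ≤ v x) :
    N1 μ α ≤ 1 := by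
  rw [← hv.int]
  unfold N1
  exact integral_mono (ig μ (by fun_prop)) (ig μ hv.cont) ha

/-- the fluctuation part of a reduced expectation -/
lemma fluct {v α : G → ℝ} (hv : PD μ v) (hα : Continuous α) (ha : ∀ x, |α x| ≤ v x) :
    ∃ δ : G → ℝ, Continuous δ ∧ α = (fun x => δ x + (∫ y, α y ∂μ) * v x) ∧ ∫ y, δ y ∂μ = 0 ∧
      N1 μ δ ≤ 2 := by
  have hvc := hv.cont
  have hN := N1_le_of hv hα ha
  have ha1 : |∫ y, α y ∂μ| ≤ 1 := (abs_int_le μ α).trans hN
  refine ⟨fun x => α x - (∫ y, α y ∂μ) * v x, by fun_prop, ?_, ?_, ?_⟩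
  · funext x
    ring
  · rw [integral_sub (ig μ hα) (ig μ (by fun_prop)), integral_const_mul, hv.int]
    ring
  · have h1 : ∀ x, |α x - (∫ y, α y ∂μ) * v x| ≤ v x + v x := by
      intro x
      have h2 := abs_sub (α x) ((∫ y, α y ∂μ) * v x)
      have h3 : |(∫ y, α y ∂μ) * v x| ≤ v x := by
        rw [abs_mul, abs_of_nonneg (hv.nonneg x)]
        exact mul_le_of_le_one_left (hv.nonneg x) ha1
      linarith [ha x]
    unfold N1
    have h4 := integral_mono (μ := μ) (f := fun x => |α x - (∫ y, α y ∂μ) * v x|)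
      (g := fun x => v x + v x) (ig μ (by fun_prop)) (ig μ (by fun_prop)) h1
    rw [integral_add (ig μ hvc) (ig μ hvc), hv.int] at h4
    linarith

theorem stp_near {v α : G → ℝ} {ε : ℝ} (h : Near μ v ε) (hα : Continuous α)
    (ha : ∀ x, |α x| ≤ v x) (T : G) :
    |stp μ v α T - (∫ y, α y ∂μ) * HY.mk μ v T| ≤ 7 * ε := by
  have hz : 1 ≤ zz μ v := zz_ge μ h.pd
  have hz0 : 0 < zz μ v := lt_of_lt_of_le one_pos hz
  have he := h.eps
  obtain ⟨δ, hδ, hαδ, hδ0, hδ1⟩ := fluct h.pd hα ha
  set a := ∫ y, α y ∂μ with hadef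
  have h1 := J_lin (μ := μ) (β := δ) (γ := v) (k := fun _ => v) (fun _ => h.cont) hδ h.cont a
    (0, 0) T
  have h2 : (fun r : Fin 4 × Fin 4 => if r = (0, 0) then v else v) = fun _ => v := by
    funext r
    split_ifs <;> rfl
  rw [h2, J_const] at h1
  have h3 : stp μ v α T - a * HY.mk μ v T =
      J μ (fun r => if r = (0, 0) then δ else v) T / zz μ v := by
    unfold stp
    rw [mk_eq]
    have h4 : (fun r : Fin 4 × Fin 4 => if r = (0, 0) then α else v) =
        fun r => if r = (0, 0) then (fun x => δ x + a * v x) else v := by rw [← hαδ]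
    rw [h4, h1]
    field_simp
    ring
  rw [h3, abs_div, abs_of_pos hz0, div_le_iff₀ hz0]
  have h5 := J_one h hδ (0, 0) T
  rw [hδ0, abs_zero, zero_add] at h5
  have h6 : N1 μ δ * ε ≤ 2 * ε := mul_le_mul_of_nonneg_right hδ1 he
  nlinarith

theorem stp_int {v α : G → ℝ} {ε : ℝ} (h : Near μ v ε) (hα : CC α)
    (ha : ∀ x, |α x| ≤ v x) : |∫ T, stp μ v α T ∂μ - ∫ T, α T ∂μ| ≤ 7 * ε := by
  have h1 := (stp_cc (μ := μ) ⟨h.cont, h.cls⟩ hα).cont
  have h2 := (pd_mk μ v h.pd).cont
  have h3 : ∫ T, stp μ v α T ∂μ - ∫ T, α T ∂μ =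
      ∫ T, (stp μ v α T - (∫ y, α y ∂μ) * HY.mk μ v T) ∂μ := by
    rw [integral_sub (ig μ h1) (ig μ (by fun_prop)), integral_const_mul, (pd_mk μ v h.pd).int,
      mul_one]
  rw [h3]
  have h4 := norm_integral_le_of_norm_le_const (μ := μ)
    (f := fun T => stp μ v α T - (∫ y, α y ∂μ) * HY.mk μ v T) (C := 7 * ε)
    (Filter.Eventually.of_forall fun T => stp_near h hα.cont ha T)
  rw [probReal_univ, mul_one] at h4
  exact h4

/-- clustering in one step -/
theorem two_near {v α β : G → ℝ} {ε : ℝ} (h : Near μ v ε) (hα : CC α) (hβ : CC β)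
    (ha : ∀ x, |α x| ≤ v x) (hb : ∀ x, |β x| ≤ v x) {p q : Fin 4 × Fin 4} (hpq : p ≠ q) :
    |∫ T, J μ (fun r => if r = p then α else if r = q then β else v) T / zz μ v ∂μ -
      (∫ y, α y ∂μ) * ∫ T, stp μ v β T ∂μ| ≤ 7 * ε := by
  have hz : 1 ≤ zz μ v := zz_ge μ h.pd
  have hz0 : 0 < zz μ v := lt_of_lt_of_le one_pos hz
  have he := h.eps
  have hvc : CC v := ⟨h.cont, h.cls⟩
  obtain ⟨δ, hδ, hαδ, hδ0, hδ1⟩ := fluct h.pd hα.cont ha
  set a := ∫ y, α y ∂μ with hadef
  have hk : ∀ r : Fin 4 × Fin 4, CC (if r = q then β else v) := by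
    intro r
    split_ifs
    · exact hβ
    · exact hvc
  have hs := (stp_cc (μ := μ) hvc hβ).cont
  have hJ : Continuous (J μ (fun r => if r = p then α else if r = q then β else v)) :=
    (J_cc (μ := μ) fun r => by
      split_ifs
      · exact hα
      · exact hβ
      · exact hvc).cont
  have key : ∀ T, J μ (fun r => if r = p then α else if r = q then β else v) T / zz μ v -
      a * stp μ v β T =
      J μ (fun r => if r = p then δ else if r = q then β else v) T / zz μ v := by
    intro T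
    have h1 := J_lin (μ := μ) (β := δ) (γ := v) (k := fun r => if r = q then β else v)
      (fun r => (hk r).cont) hδ h.cont a p T
    have h2 : (fun r : Fin 4 × Fin 4 => if r = p then v else if r = q then β else v) =
        fun r => if r = q then β else v := by
      funext r
      by_cases hr : r = p
      · rw [if_pos hr, if_neg (fun hh => hpq (hr.symm.trans hh))]
      · rw [if_neg hr]
    rw [h2, J_at β hvc q (0, 0)] at h1
    have h4 : (fun r : Fin 4 × Fin 4 => if r = p then α else if r = q then β else v) =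
        fun r => if r = p then (fun x => δ x + a * v x) else if r = q then β else v := by
      rw [← hαδ]
    rw [h4, h1]
    unfold stp
    field_simp
    ring
  have h3 : ∫ T, J μ (fun r => if r = p then α else if r = q then β else v) T / zz μ v ∂μ -
      a * ∫ T, stp μ v β T ∂μ =
      ∫ T, J μ (fun r => if r = p then δ else if r = q then β else v) T / zz μ v ∂μ := by
    rw [← integral_const_mul, ← integral_sub (ig μ (by fun_prop)) (ig μ (by fun_prop))]
    exact integral_congr_ae (Filter.Eventually.of_forall key)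
  rw [h3]
  have h4 := norm_integral_le_of_norm_le_const (μ := μ)
    (f := fun T => J μ (fun r => if r = p then δ else if r = q then β else v) T / zz μ v)
    (C := 7 * ε) (Filter.Eventually.of_forall fun T => by
      rw [Real.norm_eq_abs, abs_div, abs_of_pos hz0, div_le_iff₀ hz0]
      have h5 := J_two h hδ hb hβ.cont hpq T
      rw [hδ0, abs_zero, zero_add] at h5
      have h6 : N1 μ δ * ε ≤ 2 * ε := mul_le_mul_of_nonneg_right hδ1 he
      nlinarith)
  rw [probReal_univ, mul_one] at h4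
  exact h4

end

end Pool.Agent.T2H03.HX
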