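import Mathlib
import Pool.Agent.T2H03.HX.Inf

/-!
# Infinite volume limit and clustering
-/

open MeasureTheory Filter
open scoped Topology
open Pool.Agent.T2H04.HY (cnv cnv4 continuous_cnv continuous_cnv4 right_inv' inv_inv' PD norm_pos
  pd_mk)
open Pool.Agent.T2H04

namespace Pool.Agent.T2H03.HX

set_option linter.unusedSectionVars false

noncomputable section

variable {G : Type} [Group G] [TopologicalSpace G] [IsTopologicalGroup G] [CompactSpace G]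
  [SecondCountableTopology G] [MeasurableSpace G] [BorelSpace G] (μ : Measure G)
  [IsProbabilityMeasure μ] [μ.IsHaarMeasure]

/-- trajectories which approach the constant function -/
structure Tail (v : G → ℝ) (C σ : ℝ) (k : ℤ) : Prop where
  pd : PD μ v
  cls : IsCls v
  c0 : 0 ≤ C
  s0 : 0 < σ
  le : ∀ i : ℕ, 0 ≤ k + i → ∀ x, |(HY.mk μ)^[i] v x - 1| ≤ C * Real.exp (-(σ * 4 ^ (k + i)))

/-- the limit of the reduced expectations -/
def li (v α : G → ℝ) : ℝ := limUnder atTop fun m => ∫ T, al μ v α m T ∂μ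

/-- the constant in the estimates -/
def DD (C σ : ℝ) : ℝ := 7 * C / (1 - Real.exp (-(3 * σ))) + 2 * Real.exp σ

variable {μ}

lemma Tail.shift {v : G → ℝ} {C σ : ℝ} {k : ℤ} (t : Tail μ v C σ k) (n : ℕ) :
    Tail μ ((HY.mk μ)^[n] v) C σ (k + n) := by
  refine ⟨HY.Asm.iter_pd μ t.pd n, HY.Asm.iter_cls μ t.cls n, t.c0, t.s0, fun i hi x => ?_⟩
  have h1 := t.le (i + n) (by push_cast; linarith) x
  rw [Function.iterate_add_apply] at h1
  have h2 : k + ((i + n : ℕ) : ℤ) = k + n + i := by push_cast; ring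
  rwa [h2] at h1

lemma Tail.near {v : G → ℝ} {C σ : ℝ} {k : ℤ} (t : Tail μ v C σ k) {i : ℕ} (hi : 0 ≤ k + i)
    (h : C * Real.exp (-(σ * 4 ^ (k + i))) ≤ 1 / 2) :
    Near μ ((HY.mk μ)^[i] v) (C * Real.exp (-(σ * 4 ^ (k + i)))) :=
  have h1 := HY.Asm.iter_pd μ t.pd i
  ⟨h1.cont, HY.Asm.iter_cls μ t.cls i, h1.nonneg, h1.int, t.le i hi, h⟩

lemma al_int_le {v α : G → ℝ} (hv : PD μ v) (hc : IsCls v) (hα : CC α) (ha : ∀ x, |α x| ≤ v x)
    (m : ℕ) : |∫ T, al μ v α m T ∂μ| ≤ 1 :=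
  (abs_int_le μ _).trans (N1_le_of (HY.Asm.iter_pd μ hv m) (al_cc hv hc hα m).cont
    (al_abs hv ha m))

lemma al_step {v α : G → ℝ} {C σ : ℝ} {k : ℤ} (t : Tail μ v C σ k) (hα : CC α)
    (ha : ∀ x, |α x| ≤ v x) {m : ℕ} (hm : 0 ≤ k + m) :
    |∫ T, al μ v α (m + 1) T ∂μ - ∫ T, al μ v α m T ∂μ| ≤
      7 * C * Real.exp (-(σ * 4 ^ (k + m))) := by
  by_cases h : C * Real.exp (-(σ * 4 ^ (k + m))) ≤ 1 / 2
  · have h1 := stp_int (t.near hm h) (al_cc t.pd t.cls hα m) (al_abs t.pd ha m)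
    rw [mul_assoc]
    exact h1
  · have h1 := al_int_le t.pd t.cls hα ha (m + 1)
    have h2 := al_int_le t.pd t.cls hα ha m
    have h3 := abs_sub (∫ T, al μ v α (m + 1) T ∂μ) (∫ T, al μ v α m T ∂μ)
    push Not at h
    rw [mul_assoc]
    linarith

/-! ### Elementary estimates -/

lemma ex_le {σ : ℝ} (hσ : 0 < σ) {z : ℤ} (hz : 0 ≤ z) (j : ℕ) :
    Real.exp (-(σ * 4 ^ (z + j))) ≤ Real.exp (-(σ * 4 ^ z)) * Real.exp (-(3 * σ)) ^ j := by
  rw [← Real.exp_nat_mul, ← Real.exp_add, Real.exp_le_exp]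
  have h1 : (1 : ℝ) ≤ 4 ^ z := one_le_zpow₀ (by norm_num) hz
  have h2 : (1 : ℝ) + 3 * j ≤ 4 ^ j := by
    have h3 := one_add_mul_le_pow (a := (3 : ℝ)) (by norm_num) j
    have h4 : (1 : ℝ) + 3 = 4 := by norm_num
    rw [h4] at h3
    linarith
  have h3 : (4 : ℝ) ^ (z + j) = 4 ^ z * 4 ^ j := by
    rw [zpow_add₀ (by norm_num), zpow_natCast]
  have hj : (0 : ℝ) ≤ j := Nat.cast_nonneg j
  have h4 : (4 : ℝ) ^ z + 3 * j ≤ 4 ^ (z + (j : ℤ)) := by
    rw [h3]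
    have h5 : (4 : ℝ) ^ z * (1 + 3 * j) ≤ 4 ^ z * 4 ^ j :=
      mul_le_mul_of_nonneg_left h2 (by linarith)
    nlinarith
  nlinarith

lemma ex_neg {σ : ℝ} (hσ : 0 < σ) {z : ℤ} (hz : z < 0) :
    1 ≤ Real.exp σ * Real.exp (-(σ * 4 ^ z)) := by
  rw [← Real.exp_add]
  refine Real.one_le_exp ?_
  have h1 : (4 : ℝ) ^ z ≤ 1 := zpow_le_one_of_nonpos₀ (by norm_num) hz.le
  nlinarith

lemma geo_le {r : ℝ} (h0 : 0 ≤ r) (h1 : r < 1) (i : ℕ) :
    ∑ j ∈ Finset.range i, r ^ j ≤ 1 / (1 - r) := by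
  have h2 := (hasSum_geometric_of_lt_one h0 h1).summable.sum_le_tsum (Finset.range i)
    (fun j _ => pow_nonneg h0 j)
  rwa [tsum_geometric_of_lt_one h0 h1, inv_eq_one_div] at h2

lemma r_lt {σ : ℝ} (hσ : 0 < σ) : Real.exp (-(3 * σ)) < 1 := by
  rw [Real.exp_lt_one_iff]
  linarith

lemma DD_pos {C σ : ℝ} (hC : 0 ≤ C) (hσ : 0 < σ) : 0 < DD C σ := by
  have h1 := r_lt hσ
  unfold DD
  have h2 : 0 ≤ 7 * C / (1 - Real.exp (-(3 * σ))) := by
    apply div_nonneg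
    · linarith
    · linarith
  have h3 := Real.exp_pos σ
  linarith

lemma le_DD {C σ : ℝ} (hC : 0 ≤ C) (hσ : 0 < σ) : 7 * C ≤ DD C σ := by
  have h1 := r_lt hσ
  have h0 := Real.exp_pos (-(3 * σ))
  unfold DD
  have h2 : 7 * C ≤ 7 * C / (1 - Real.exp (-(3 * σ))) := by
    rw [le_div_iff₀ (by linarith)]
    nlinarith
  have h3 := Real.exp_pos σ
  linarith

lemma triv_DD {C σ : ℝ} (hC : 0 ≤ C) (hσ : 0 < σ) {z : ℤ} (hz : z < 0) :
    2 ≤ DD C σ * Real.exp (-(σ * 4 ^ z)) := by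
  have h1 := r_lt hσ
  have h2 : 0 ≤ 7 * C / (1 - Real.exp (-(3 * σ))) := by
    apply div_nonneg
    · linarith
    · linarith
  have h3 := ex_neg hσ hz
  have h4 := Real.exp_pos (-(σ * (4 : ℝ) ^ z))
  unfold DD
  nlinarith

theorem al_cauchy {v α : G → ℝ} {C σ : ℝ} {k : ℤ} (t : Tail μ v C σ k) (hα : CC α)
    (ha : ∀ x, |α x| ≤ v x) (m i : ℕ) :
    |∫ T, al μ v α (m + i) T ∂μ - ∫ T, al μ v α m T ∂μ| ≤
      DD C σ * Real.exp (-(σ * 4 ^ (k + m))) := by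
  by_cases hm : 0 ≤ k + m
  · set r := Real.exp (-(3 * σ)) with hr
    have hr1 : r < 1 := r_lt t.s0
    have hr0 : 0 ≤ r := (Real.exp_pos _).le
    have he := Real.exp_pos (-(σ * (4 : ℝ) ^ (k + (m : ℤ))))
    have hC := t.c0
    have h1 : |∫ T, al μ v α (m + i) T ∂μ - ∫ T, al μ v α m T ∂μ| ≤
        7 * C * Real.exp (-(σ * 4 ^ (k + m))) * ∑ j ∈ Finset.range i, r ^ j := by
      induction i with
      | zero => simp
      | succ i ih =>
        have h2 := al_step t hα ha (m := m + i) (by push_cast; linarith)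
        have h3 := ex_le t.s0 hm i
        have h4 : k + ((m + i : ℕ) : ℤ) = k + m + i := by push_cast; ring
        rw [h4] at h2
        rw [Finset.sum_range_succ, mul_add]
        have h5 : 7 * C * Real.exp (-(σ * 4 ^ (k + m + (i : ℤ)))) ≤
            7 * C * (Real.exp (-(σ * 4 ^ (k + (m : ℤ)))) * r ^ i) :=
          mul_le_mul_of_nonneg_left h3 (by linarith)
        have h6 := abs_sub_le (∫ T, al μ v α (m + (i + 1)) T ∂μ) (∫ T, al μ v α (m + i) T ∂μ)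
          (∫ T, al μ v α m T ∂μ)
        have h7 : |∫ T, al μ v α (m + (i + 1)) T ∂μ - ∫ T, al μ v α (m + i) T ∂μ| ≤
            7 * C * Real.exp (-(σ * 4 ^ (k + m + (i : ℤ)))) := h2
        linarith
    have h2 := geo_le hr0 hr1 i
    have h3 : 7 * C * Real.exp (-(σ * 4 ^ (k + (m : ℤ)))) * ∑ j ∈ Finset.range i, r ^ j ≤
        7 * C * Real.exp (-(σ * 4 ^ (k + (m : ℤ)))) * (1 / (1 - r)) :=
      mul_le_mul_of_nonneg_left h2 (by positivity)
    refine h1.trans (h3.trans ?_)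
    unfold DD
    rw [← hr]
    have h4 : 7 * C * Real.exp (-(σ * 4 ^ (k + (m : ℤ)))) * (1 / (1 - r)) =
        7 * C / (1 - r) * Real.exp (-(σ * 4 ^ (k + (m : ℤ)))) := by ring
    rw [h4]
    refine mul_le_mul_of_nonneg_right ?_ he.le
    linarith [Real.exp_pos σ]
  · push Not at hm
    have h1 := al_int_le t.pd t.cls hα ha (m + i)
    have h2 := al_int_le t.pd t.cls hα ha m
    have h3 := abs_sub (∫ T, al μ v α (m + i) T ∂μ) (∫ T, al μ v α m T ∂μ)
    have h4 := triv_DD t.c0 t.s0 hm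
    linarith

lemma ex_tendsto_zero {σ : ℝ} (hσ : 0 < σ) (k : ℤ) :
    Tendsto (fun m : ℕ => Real.exp (-(σ * (4 : ℝ) ^ (k + (m : ℤ))))) atTop (𝓝 0) := by
  refine Real.tendsto_exp_atBot.comp ?_
  refine tendsto_neg_atTop_atBot.comp ?_
  have h1 : (fun m : ℕ => σ * (4 : ℝ) ^ (k + (m : ℤ))) = fun m : ℕ => (σ * 4 ^ k) * 4 ^ m := by
    funext m
    rw [zpow_add₀ (by norm_num), zpow_natCast]
    ring
  rw [h1]
  exact (tendsto_pow_atTop_atTop_of_one_lt (by norm_num)).const_mul_atTop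
    (mul_pos hσ (zpow_pos (by norm_num) _))

theorem li_tendsto {v α : G → ℝ} {C σ : ℝ} {k : ℤ} (t : Tail μ v C σ k) (hα : CC α)
    (ha : ∀ x, |α x| ≤ v x) :
    Tendsto (fun m => ∫ T, al μ v α m T ∂μ) atTop (𝓝 (li μ v α)) := by
  have h1 : CauchySeq fun m => ∫ T, al μ v α m T ∂μ := by
    refine cauchySeq_of_le_tendsto_0' (fun m : ℕ => DD C σ * Real.exp (-(σ * 4 ^ (k + (m : ℤ)))))
      (fun m m' hm => ?_) ?_
    · obtain ⟨i, rfl⟩ := Nat.exists_eq_add_of_le hm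
      rw [dist_comm, Real.dist_eq]
      exact al_cauchy t hα ha m i
    · have h2 := (ex_tendsto_zero t.s0 k).const_mul (DD C σ)
      rwa [mul_zero] at h2
  exact tendsto_nhds_limUnder (cauchySeq_tendsto_of_complete h1)

theorem li_le {v α : G → ℝ} {C σ : ℝ} {k : ℤ} (t : Tail μ v C σ k) (hα : CC α)
    (ha : ∀ x, |α x| ≤ v x) (m : ℕ) :
    |∫ T, al μ v α m T ∂μ - li μ v α| ≤ DD C σ * Real.exp (-(σ * 4 ^ (k + m))) := by
  have h1 : Tendsto (fun i => |∫ T, al μ v α m T ∂μ - ∫ T, al μ v α (i + m) T ∂μ|) atTop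
      (𝓝 |∫ T, al μ v α m T ∂μ - li μ v α|) :=
    (tendsto_const_nhds.sub ((tendsto_add_atTop_iff_nat m).2 (li_tendsto t hα ha))).abs
  refine le_of_tendsto h1 (Eventually.of_forall fun i => ?_)
  rw [abs_sub_comm, add_comm]
  exact al_cauchy t hα ha m i

theorem li_abs {v α : G → ℝ} {C σ : ℝ} {k : ℤ} (t : Tail μ v C σ k) (hα : CC α)
    (ha : ∀ x, |α x| ≤ v x) : |li μ v α| ≤ 1 :=
  le_of_tendsto (li_tendsto t hα ha).abs (Eventually.of_forall fun m =>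
    al_int_le t.pd t.cls hα ha m)

lemma Obs.Inv {X : Cx} {A : (X.E → G) → ℝ} (h : Obs X A) : HX.Inv X A := ⟨h.cont, h.inv⟩

/-- **Infinite volume limit.** -/
theorem inf_vol {w : G → ℝ} {C σ : ℝ} {k : ℤ} (t : Tail μ w C σ k) {n : ℕ}
    {A : ((Bx n).E → G) → ℝ} (hA : Obs (Bx n) A) (x : ℕ → Fin 4 × Fin 4) (m : ℕ) :
    |ex μ (Bx (n + m)) w (fun U => A (U ∘ pos n x m)) -
      li μ ((HY.mk μ)^[n] w) (nr μ w n A)| ≤ DD C σ * Real.exp (-(σ * 4 ^ (k + n + m))) := by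
  rw [nr_int t.pd t.cls (inv_pos hA.Inv x m), nr_pos t.pd t.cls hA.Inv x m]
  exact li_le (t.shift n) (nr_cc t.pd t.cls hA.Inv) (nr_abs t.pd t.cls hA.le) m

/-- **Clustering.** -/
theorem cluster {w : G → ℝ} {C σ : ℝ} {k : ℤ} (t : Tail μ w C σ k) {n : ℕ}
    {A B : ((Bx n).E → G) → ℝ} (hA : Obs (Bx n) A) (hB : Obs (Bx n) B)
    (x y : ℕ → Fin 4 × Fin 4) (m : ℕ) (hxy : x m ≠ y m) :
    |li μ ((HY.mk μ)^[n + m + 1] w) (nr μ w (n + m + 1) (fun U => A (U ∘ pos n x (m + 1)) *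
      B (U ∘ pos n y (m + 1)))) -
      li μ ((HY.mk μ)^[n] w) (nr μ w n A) * li μ ((HY.mk μ)^[n] w) (nr μ w n B)| ≤
      4 * DD C σ * Real.exp (-(σ * 4 ^ (k + n + m))) := by
  have hD := DD_pos t.c0 t.s0
  have hE := Real.exp_pos (-(σ * (4 : ℝ) ^ (k + n + m)))
  have tn := t.shift n
  set α := nr μ w n A with hα
  set β := nr μ w n B with hβ
  have cα : CC α := nr_cc t.pd t.cls hA.Inv
  have cβ : CC β := nr_cc t.pd t.cls hB.Inv
  have bα : ∀ T, |α T| ≤ (HY.mk μ)^[n] w T := nr_abs t.pd t.cls hA.le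
  have bβ : ∀ T, |β T| ≤ (HY.mk μ)^[n] w T := nr_abs t.pd t.cls hB.le
  have lα := li_abs tn cα bα
  have lβ := li_abs tn cβ bβ
  have hAB : Inv (Bx (n + m + 1)) fun U => A (U ∘ pos n x (m + 1)) * B (U ∘ pos n y (m + 1)) :=
    (inv_pos hA.Inv x (m + 1)).mul (inv_pos hB.Inv y (m + 1))
  have hAB1 : ∀ U, |A (U ∘ pos n x (m + 1)) * B (U ∘ pos n y (m + 1))| ≤ 1 := by
    intro U
    rw [abs_mul]
    exact mul_le_one₀ (hA.le _) (abs_nonneg _) (hB.le _)
  set γ := nr μ w (n + m + 1) (fun U => A (U ∘ pos n x (m + 1)) * B (U ∘ pos n y (m + 1)))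
    with hγ
  have cγ : CC γ := nr_cc t.pd t.cls hAB
  have bγ : ∀ T, |γ T| ≤ (HY.mk μ)^[n + m + 1] w T := nr_abs t.pd t.cls hAB1
  have lγ := li_abs (t.shift (n + m + 1)) cγ bγ
  have triv : |li μ ((HY.mk μ)^[n + m + 1] w) γ -
      li μ ((HY.mk μ)^[n] w) α * li μ ((HY.mk μ)^[n] w) β| ≤ 2 := by
    have h1 := abs_sub (li μ ((HY.mk μ)^[n + m + 1] w) γ)
      (li μ ((HY.mk μ)^[n] w) α * li μ ((HY.mk μ)^[n] w) β)
    have h2 : |li μ ((HY.mk μ)^[n] w) α * li μ ((HY.mk μ)^[n] w) β| ≤ 1 := by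
      rw [abs_mul]
      exact mul_le_one₀ lα (abs_nonneg _) lβ
    linarith
  by_cases hm : 0 ≤ k + n + m
  · have hkm : k + ((n + m : ℕ) : ℤ) = k + n + m := by push_cast; ring
    by_cases hs : C * Real.exp (-(σ * 4 ^ (k + n + m))) ≤ 1 / 2
    · -- the main case
      have nn : Near μ ((HY.mk μ)^[n + m] w) (C * Real.exp (-(σ * 4 ^ (k + n + m)))) := by
        have h1 := t.near (i := n + m) (by rw [hkm]; exact hm) (by rw [hkm]; exact hs)
        rwa [hkm] at h1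
      have hit : (HY.mk μ)^[m] ((HY.mk μ)^[n] w) = (HY.mk μ)^[n + m] w := by
        rw [← Function.iterate_add_apply, add_comm]
      have cαm := al_cc tn.pd tn.cls cα m
      have cβm := al_cc tn.pd tn.cls cβ m
      have bαm := al_abs tn.pd bα m
      have bβm := al_abs tn.pd bβ m
      rw [hit] at bαm bβm
      have h1 : γ = fun T => J μ (fun r => if r = x m then al μ ((HY.mk μ)^[n] w) α m else
          if r = y m then al μ ((HY.mk μ)^[n] w) β m else (HY.mk μ)^[n + m] w) T /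
          zz μ ((HY.mk μ)^[n + m] w) := by
        have h2 := nr_mark2 t.pd t.cls (inv_pos hA.Inv x m) (inv_pos hB.Inv y m) hxy
        rw [nr_pos t.pd t.cls hA.Inv x m, nr_pos t.pd t.cls hB.Inv y m] at h2
        exact h2
      have h2 := two_near nn cαm cβm bαm bβm hxy
      have h3 : ∫ T, γ T ∂μ = ∫ T, J μ (fun r => if r = x m then al μ ((HY.mk μ)^[n] w) α m else
          if r = y m then al μ ((HY.mk μ)^[n] w) β m else (HY.mk μ)^[n + m] w) T /
          zz μ ((HY.mk μ)^[n + m] w) ∂μ := by rw [h1]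
      rw [← h3] at h2
      have h4 : stp μ ((HY.mk μ)^[n + m] w) (al μ ((HY.mk μ)^[n] w) β m) =
          al μ ((HY.mk μ)^[n] w) β (m + 1) := by
        rw [← hit]
        rfl
      rw [h4] at h2
      have h5 := li_le tn cα bα m
      have h6 := li_le tn cβ bβ (m + 1)
      have h7 := li_le (t.shift (n + m + 1)) cγ bγ 0
      have h8 : Real.exp (-(σ * (4 : ℝ) ^ (k + n + ((m + 1 : ℕ) : ℤ)))) ≤
          Real.exp (-(σ * 4 ^ (k + n + m))) := by
        rw [Real.exp_le_exp, neg_le_neg_iff]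
        refine mul_le_mul_of_nonneg_left ?_ t.s0.le
        exact zpow_le_zpow_right₀ (by norm_num) (by push_cast; linarith)
      have h9 : Real.exp (-(σ * (4 : ℝ) ^ (k + ((n + m + 1 : ℕ) : ℤ) + ((0 : ℕ) : ℤ)))) ≤
          Real.exp (-(σ * 4 ^ (k + n + m))) := by
        rw [Real.exp_le_exp, neg_le_neg_iff]
        refine mul_le_mul_of_nonneg_left ?_ t.s0.le
        exact zpow_le_zpow_right₀ (by norm_num) (by push_cast; linarith)
      have h6' : |∫ T, al μ ((HY.mk μ)^[n] w) β (m + 1) T ∂μ - li μ ((HY.mk μ)^[n] w) β| ≤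
          DD C σ * Real.exp (-(σ * 4 ^ (k + n + m))) :=
        h6.trans (mul_le_mul_of_nonneg_left h8 hD.le)
      have h7' : |∫ T, γ T ∂μ - li μ ((HY.mk μ)^[n + m + 1] w) γ| ≤
          DD C σ * Real.exp (-(σ * 4 ^ (k + n + m))) :=
        h7.trans (mul_le_mul_of_nonneg_left h9 hD.le)
      have h10 : 7 * (C * Real.exp (-(σ * 4 ^ (k + n + m)))) ≤
          DD C σ * Real.exp (-(σ * 4 ^ (k + n + m))) := by
        rw [← mul_assoc]
        exact mul_le_mul_of_nonneg_right (le_DD t.c0 t.s0) hE.le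
      set E := DD C σ * Real.exp (-(σ * 4 ^ (k + n + m))) with hEdef
      set a := ∫ T, al μ ((HY.mk μ)^[n] w) α m T ∂μ with hadef
      set b := ∫ T, al μ ((HY.mk μ)^[n] w) β (m + 1) T ∂μ with hbdef
      set a' := li μ ((HY.mk μ)^[n] w) α with hadef'
      set b' := li μ ((HY.mk μ)^[n] w) β with hbdef'
      have ha1 : |a| ≤ 1 := al_int_le tn.pd tn.cls cα bα m
      have h11 : |a * b - a' * b'| ≤ E + E := by
        have h12 : a * b - a' * b' = a * (b - b') + (a - a') * b' := by ring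
        rw [h12]
        refine (abs_add_le _ _).trans ?_
        rw [abs_mul, abs_mul]
        have h13 : |a| * |b - b'| ≤ 1 * E := mul_le_mul ha1 h6' (abs_nonneg _) zero_le_one
        have h14 : |a - a'| * |b'| ≤ E * 1 := mul_le_mul h5 lβ (abs_nonneg _)
          ((abs_nonneg _).trans h5)
        linarith
      have h15 := abs_sub_le (li μ ((HY.mk μ)^[n + m + 1] w) γ) (∫ T, γ T ∂μ) (a' * b')
      have h16 := abs_sub_le (∫ T, γ T ∂μ) (a * b) (a' * b')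
      rw [abs_sub_comm (li μ ((HY.mk μ)^[n + m + 1] w) γ) (∫ T, γ T ∂μ)] at h15
      linarith
    · push Not at hs
      have h1 := mul_le_mul_of_nonneg_right (le_DD t.c0 t.s0) hE.le
      linarith
  · push Not at hm
    have h1 := triv_DD t.c0 t.s0 hm
    have h2 : 0 < DD C σ * Real.exp (-(σ * 4 ^ (k + n + m))) := mul_pos hD hE
    linarith

end

end Pool.Agent.T2H03.HX
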