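import Mathlib
import Pool.Agent.T2H03.HX.Lim

/-!
# Consistency of the scales, trajectories near the constant function, joint limits
-/

open MeasureTheory Filter
open scoped Topology
open Pool.Agent.T2H04.HY (cnv cnv4 continuous_cnv continuous_cnv4 right_inv' inv_inv' PD norm_pos
  pd_mk)
open Pool.Agent.T2H04

namespace Pool.Agent.T2H03.HX

set_option linter.unusedSectionVars false

noncomputable section

variable {G : Type} [Group G] [TopologicalSpace G] [IsTopologicalGroup G] [CompactSpace G]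
  [SecondCountableTopology G] [MeasurableSpace G] [BorelSpace G] (μ : Measure G)
  [IsProbabilityMeasure μ] [μ.IsHaarMeasure]

/-! ### Consistency of the scales -/

lemma C_smul (X : Cx) (c : ℝ) (F : (X.ref.E → G) → ℝ) (V : X.E → G) :
    C μ X (fun U => c * F U) V = c * C μ X F V := by
  unfold C
  rw [integral_const_mul]

lemma Cn_blk {w : G → ℝ} (hw : PD μ w) (hc : IsCls w) (n : ℕ) (X : Cx) :
    ∃ c : ℝ, ∀ (A : ((X.refs n).E → G) → ℝ) (V : X.E → G),
      Cn μ (n + 1) X (fun U => A (blkL n X U) * wt (X.refs (n + 1)) w U) V =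
        c * Cn μ n X (fun U => A U * wt (X.refs n) (HY.mk μ w) U) V := by
  induction n generalizing X with
  | zero =>
    refine ⟨(∫ y, (cnv4 μ w y) ^ 4 ∂μ) ^ Fintype.card X.F, fun A V => ?_⟩
    show C μ X (fun U => A (blk X U) * wt X.ref w U) V = _ * (A V * wt X (HY.mk μ w) V)
    have h2 : C μ X (fun U => A (blk X U) * wt X.ref w U) V = A V * C μ X (wt X.ref w) V := by
      unfold C
      rw [← integral_const_mul]
      refine integral_congr_ae (Filter.Eventually.of_forall fun u => ?_)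
      simp only
      rw [blk_asm]
    rw [h2, C_wt μ X hw hc]
    ring
  | succ n ih =>
    obtain ⟨c, h⟩ := ih X.ref
    refine ⟨c, fun A V => ?_⟩
    show C μ X (Cn μ (n + 1) X.ref (fun U => A (blkL n X.ref U) * wt (X.ref.refs (n + 1)) w U)) V =
      c * C μ X (Cn μ n X.ref (fun U => A U * wt (X.ref.refs n) (HY.mk μ w) U)) V
    rw [← C_smul]
    congr 1
    funext V'
    exact h A V'

variable {μ}

theorem nr_blk {w : G → ℝ} (hw : PD μ w) (hc : IsCls w) (n : ℕ) (A : ((Bx n).E → G) → ℝ) :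
    nr μ w (n + 1) (fun U => A (blkL n sq U)) = nr μ (HY.mk μ w) n A := by
  obtain ⟨c, h⟩ := Cn_blk μ hw hc n sq
  have hw' := pd_mk μ w hw
  have hc' : IsCls (HY.mk μ w) := HY.Asm.mk_cls μ hc
  have h0 := cc_pos hw (n + 1)
  have h0' := cc_pos hw' n
  have key : ∀ A : ((Bx n).E → G) → ℝ, nr μ w (n + 1) (fun U => A (blkL n sq U)) =
      fun T => (c * cc μ (HY.mk μ w) n / cc μ w (n + 1)) * nr μ (HY.mk μ w) n A T := by
    intro A
    funext T
    show Cn μ (n + 1) sq (fun U => A (blkL n sq U) * wt (sq.refs (n + 1)) w U) ![T, 1, 1, 1] /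
      cc μ w (n + 1) = c * cc μ (HY.mk μ w) n / cc μ w (n + 1) *
      (Cn μ n sq (fun U => A U * wt (sq.refs n) (HY.mk μ w) U) ![T, 1, 1, 1] /
        cc μ (HY.mk μ w) n)
    rw [h]
    field_simp
  have h1 := key fun _ => 1
  rw [nr_one hw hc, nr_one hw' hc', ← Function.iterate_succ_apply] at h1
  have h2 := (HY.Asm.iter_pd μ hw (n + 1)).int
  have h3 : ∫ x, (c * cc μ (HY.mk μ w) n / cc μ w (n + 1)) * (HY.mk μ)^[n + 1] w x ∂μ = 1 := by
    rw [← h2]
    refine integral_congr_ae (Filter.Eventually.of_forall fun x => ?_)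
    exact (congrFun h1 x).symm
  rw [integral_const_mul, h2, mul_one] at h3
  rw [key, h3]
  simp only [one_mul]

/-! ### Trajectories near the constant function -/

lemma cnv_one {f : G → ℝ} (hf : PD μ f) {δ : ℝ} (h : ∀ x, |f x - 1| ≤ δ) (x : G) :
    |cnv μ f f x - 1| ≤ δ ^ 2 := by
  have hc := hf.cont
  have h1 : cnv μ f f x - 1 = cnv μ (fun y => f y - 1) (fun y => f y - 1) x := by
    have h2 : ∫ y, f (y⁻¹ * x) ∂μ = 1 := by rw [shr' μ f x, hf.int]
    have h3 : cnv μ (fun y => f y - 1) (fun y => f y - 1) x =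
        ∫ y, (f y * f (y⁻¹ * x) - (f y + f (y⁻¹ * x) - 1)) ∂μ := by
      unfold cnv
      exact integral_congr_ae (Filter.Eventually.of_forall fun y => by simp only; ring)
    rw [h3, integral_sub (ig μ (by fun_prop)) (ig μ (by fun_prop)),
      integral_sub (ig μ (by fun_prop)) (ig μ (by fun_prop)),
      integral_add (ig μ (by fun_prop)) (ig μ (by fun_prop)), h2, hf.int, integral_const,
      probReal_univ, one_smul]
    unfold cnv
    ring
  rw [h1]
  have h2 := cnv_left μ (g := fun y => f y - 1) (h := fun y => f y - 1) (by fun_prop) h x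
  have h0 : 0 ≤ δ := (abs_nonneg _).trans (h 1)
  have h3 : N1 μ (fun y => f y - 1) ≤ δ := by
    unfold N1
    have h4 := integral_mono (μ := μ) (f := fun y => |f y - 1|) (g := fun _ => δ)
      (ig μ (by fun_prop)) (ig μ continuous_const) h
    rwa [integral_const, probReal_univ, one_smul] at h4
  nlinarith

lemma pd_cnv {f : G → ℝ} (hf : PD μ f) : PD μ (cnv μ f f) := by
  refine ⟨continuous_cnv μ hf.cont hf.cont, cnv_nonneg hf.nonneg hf.nonneg, ?_⟩
  rw [HY.Low.int_cnv μ hf.cont hf.cont, hf.int, one_mul]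

lemma mk_one {f : G → ℝ} (hf : PD μ f) {δ : ℝ} (h : ∀ x, |f x - 1| ≤ δ) (hδ : δ ≤ 1 / 4) (x : G) :
    |HY.mk μ f x - 1| ≤ 9 * δ ^ 4 := by
  have h0 : 0 ≤ δ := (abs_nonneg _).trans (h 1)
  have h1 : ∀ x, |cnv4 μ f x - 1| ≤ δ ^ 4 := by
    intro x
    have h2 := cnv_one (pd_cnv hf) (cnv_one hf h) x
    have h3 : (δ ^ 2) ^ 2 = δ ^ 4 := by ring
    rwa [h3] at h2
  set η := δ ^ 4 with hη
  have h2 : 0 ≤ η := by positivity
  have h3 : η ≤ 1 / 8 := by
    have h4 : δ ^ 4 ≤ (1 / 4) ^ 4 := pow_le_pow_left₀ h0 hδ 4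
    norm_num at h4
    linarith
  have hz := zz_ge μ hf
  have h4 : ∀ x, |cnv4 μ f x ^ 4 - 1| ≤ 5 * η ∧ 1 - 4 * η ≤ cnv4 μ f x ^ 4 := by
    intro x
    obtain ⟨h5, h6⟩ := abs_le.1 (h1 x)
    set u := cnv4 μ f x with hu
    have hu0 : 0 ≤ u := by linarith
    have h7 : u ^ 4 ≤ (1 + η) ^ 4 := pow_le_pow_left₀ hu0 (by linarith) 4
    have h8 : (1 - η) ^ 4 ≤ u ^ 4 := pow_le_pow_left₀ (by linarith) (by linarith) 4
    have h9 : (1 + η) ^ 4 ≤ 1 + 5 * η := by
      have e : (1 + η) ^ 4 = 1 + 4 * η + η * (6 * η + 4 * η ^ 2 + η ^ 3) := by ring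
      have e2 : 6 * η + 4 * η ^ 2 + η ^ 3 ≤ 1 := by nlinarith [pow_le_pow_left₀ h2 h3 3]
      rw [e]
      nlinarith
    have h10 : 1 - 4 * η ≤ (1 - η) ^ 4 := by
      have := one_add_mul_le_pow (a := -η) (by linarith) 4
      push_cast at this
      have e : 1 + -η = 1 - η := by ring
      rw [e] at this
      linarith
    refine ⟨?_, by linarith⟩
    rw [abs_le]
    constructor <;> linarith
  have hc4 := continuous_cnv4 μ hf.cont
  have hz2 : zz μ f ≤ 1 + 5 * η := by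
    unfold zz
    have h5 := integral_mono (μ := μ) (f := fun y => cnv4 μ f y ^ 4) (g := fun _ => 1 + 5 * η)
      (ig μ (by fun_prop)) (ig μ continuous_const) (fun y => by
        have := (abs_le.1 (h4 y).1).2
        simp only
        linarith)
    rwa [integral_const, probReal_univ, one_smul] at h5
  rw [mk_eq]
  have hz0 : 0 < zz μ f := by linarith
  have h6 : cnv4 μ f x ^ 4 / zz μ f - 1 = (cnv4 μ f x ^ 4 - zz μ f) / zz μ f := by
    field_simp
  rw [h6, abs_div, abs_of_pos hz0, div_le_iff₀ hz0]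
  have h7 : |cnv4 μ f x ^ 4 - zz μ f| ≤ 9 * η := by
    obtain ⟨h8, h9⟩ := abs_le.1 (h4 x).1
    have h10 := (h4 x).2
    rw [abs_le]
    constructor <;> linarith
  nlinarith

lemma iter_one {f : G → ℝ} (hf : PD μ f) (h : ∀ x, |f x - 1| ≤ 1 / 4) (i : ℕ) (x : G) :
    |(HY.mk μ)^[i] f x - 1| ≤ (3 / 4 : ℝ) ^ 4 ^ i / 3 := by
  induction i generalizing x with
  | zero =>
    have h1 := h x
    simp only [Function.iterate_zero, id, pow_zero, pow_one]
    norm_num
    exact h1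
  | succ i ih =>
    rw [Function.iterate_succ_apply']
    have h1 : (3 / 4 : ℝ) ^ 4 ^ i / 3 ≤ 1 / 4 := by
      have h2 : (3 / 4 : ℝ) ^ 4 ^ i ≤ (3 / 4) ^ 1 :=
        pow_le_pow_of_le_one (by norm_num) (by norm_num) (Nat.one_le_pow _ _ (by norm_num))
      linarith
    have h2 := mk_one (HY.Asm.iter_pd μ hf i) ih h1 x
    refine h2.trans ?_
    have h3 : (3 / 4 : ℝ) ^ 4 ^ (i + 1) = ((3 / 4 : ℝ) ^ 4 ^ i) ^ 4 := by
      rw [pow_succ 4 i, pow_mul]
    rw [h3]
    have h4 : 0 ≤ ((3 / 4 : ℝ) ^ 4 ^ i) ^ 4 := by positivity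
    have h5 : 9 * ((3 / 4 : ℝ) ^ 4 ^ i / 3) ^ 4 = ((3 / 4 : ℝ) ^ 4 ^ i) ^ 4 / 9 := by ring
    rw [h5]
    linarith

/-- the rate of the trajectories near the constant function -/
def s0 : ℝ := -Real.log (3 / 4)

lemma s0_pos : 0 < s0 := by
  unfold s0
  have := Real.log_neg (x := 3 / 4) (by norm_num) (by norm_num)
  linarith

lemma s0_pow (i : ℕ) : (3 / 4 : ℝ) ^ 4 ^ i = Real.exp (-(s0 * 4 ^ i)) := by
  unfold s0
  have h1 : -(-Real.log (3 / 4) * 4 ^ i) = ((4 ^ i : ℕ) : ℝ) * Real.log (3 / 4) := by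
    push_cast
    ring
  rw [h1, Real.exp_nat_mul, Real.exp_log (by norm_num)]

lemma tail_of {v : G → ℝ} (hv : PD μ v) (hc : IsCls v) {K : ℕ}
    (h : ∀ x, |(HY.mk μ)^[K] v x - 1| ≤ 1 / 4) : Tail μ v 1 s0 (-K) := by
  refine ⟨hv, hc, zero_le_one, s0_pos, fun i hi x => ?_⟩
  have hi' : K ≤ i := by omega
  obtain ⟨j, rfl⟩ := Nat.exists_eq_add_of_le hi'
  have h1 := iter_one (HY.Asm.iter_pd μ hv K) h j x
  rw [← Function.iterate_add_apply, add_comm j K, s0_pow] at h1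
  have h2 : -(K : ℤ) + ((K + j : ℕ) : ℤ) = (j : ℤ) := by push_cast; ring
  rw [h2, zpow_natCast]
  have h3 := Real.exp_pos (-(s0 * 4 ^ j))
  linarith

/-! ### Joint limits -/

theorem joint {f : G → ℝ} {C σ : ℝ} {k : ℤ} (t : Tail μ f C σ k) (hpos : ∀ x, 0 < f x)
    {w : ℕ → G → ℝ} (hw : ∀ j, PD μ (w j)) (hc : ∀ j, IsCls (w j)) {N : ℕ → ℕ}
    (h : TendstoUniformly (fun j => (HY.mk μ)^[N j] (w j)) f atTop) {n : ℕ}
    {A : ((Bx n).E → G) → ℝ} (hA : Obs (Bx n) A) (x : ℕ → Fin 4 × Fin 4) :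
    Tendsto (fun p : ℕ × ℕ => ex μ (Bx (n + p.2 + N p.1)) (w p.1)
      fun U => A (blks sq (n + p.2) (N p.1) U ∘ pos n x p.2)) (atTop ×ˢ atTop)
      (𝓝 (li μ ((HY.mk μ)^[n] f) (nr μ f n A))) := by
  set v : ℕ → G → ℝ := fun j => (HY.mk μ)^[N j] (w j) with hv
  have vpd : ∀ j, PD μ (v j) := fun j => HY.Asm.iter_pd μ (hw j) (N j)
  have vcls : ∀ j, IsCls (v j) := fun j => HY.Asm.iter_cls μ (hc j) (N j)
  -- the expectations in terms of `v`
  have h1 : ∀ j m, ex μ (Bx (n + m + N j)) (w j) (fun U => A (blks sq (n + m) (N j) U ∘ pos n x m)) =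
      ex μ (Bx (n + m)) (v j) (fun U => A (U ∘ pos n x m)) := fun j m =>
    ex_refs μ sq (n + m) (N j) (hw j) (hc j) (A := fun U => A (U ∘ pos n x m))
      (inv_pos hA.Inv x m).cont
  -- a scale at which everything is near the constant function
  have h2 : ∃ K : ℕ, ∀ᶠ j in atTop, ∀ x, |(HY.mk μ)^[K] (v j) x - 1| ≤ 1 / 4 := by
    have h3 := (ex_tendsto_zero t.s0 k).const_mul C
    rw [mul_zero] at h3
    have h4 : ∀ᶠ K : ℕ in atTop, C * Real.exp (-(σ * (4 : ℝ) ^ (k + (K : ℤ)))) < 1 / 8 :=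
      h3.eventually (gt_mem_nhds (by norm_num))
    have h5 : ∀ᶠ K : ℕ in atTop, 0 ≤ k + (K : ℤ) := by
      filter_upwards [eventually_ge_atTop k.natAbs] with K hK
      omega
    obtain ⟨K, h6, h7⟩ := (h4.and h5).exists
    refine ⟨K, ?_⟩
    have h8 := HY.Asm.iter_tendsto μ vpd t.pd h K
    have h9 := Metric.tendstoUniformly_iff.1 h8 (1 / 8) (by norm_num)
    filter_upwards [h9] with j hj x
    have h10 := hj x
    rw [Real.dist_eq, abs_sub_comm] at h10
    have h11 := t.le K h7 x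
    have h12 := abs_sub_le ((HY.mk μ)^[K] (v j) x) ((HY.mk μ)^[K] f x) 1
    linarith
  obtain ⟨K, hK⟩ := h2
  -- the limit in infinite volume
  set S := li μ ((HY.mk μ)^[n] f) (nr μ f n A) with hS
  rw [Metric.tendsto_nhds]
  intro ε hε
  have h3 := (ex_tendsto_zero t.s0 (k + n)).const_mul (DD C σ)
  have h4 := (ex_tendsto_zero s0_pos (-K + n)).const_mul (DD 1 s0)
  rw [mul_zero] at h3 h4
  have h5 := h3.eventually (gt_mem_nhds (show (0 : ℝ) < ε / 4 by positivity))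
  have h6 := h4.eventually (gt_mem_nhds (show (0 : ℝ) < ε / 4 by positivity))
  obtain ⟨m0, h7, h8⟩ := (h5.and h6).exists
  have h9 := ex_tendsto μ (Bx (n + m0)) (fun j => (vpd j).cont) t.pd.cont hpos h
    (A := fun U => A (U ∘ pos n x m0)) (inv_pos hA.Inv x m0).cont
  have h10 := (Metric.tendsto_nhds.1 h9) (ε / 4) (by positivity)
  have h11 := (hK.and h10).prod_mk (eventually_ge_atTop m0)
  filter_upwards [h11] with p hp
  obtain ⟨⟨hp1, hp2⟩, hp3⟩ := hp
  have tj := tail_of (vpd p.1) (vcls p.1) hp1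
  have h12 := inf_vol t hA x m0
  obtain ⟨i, hi⟩ := Nat.exists_eq_add_of_le hp3
  have h13 : |ex μ (Bx (n + p.2)) (v p.1) (fun U => A (U ∘ pos n x p.2)) -
      ex μ (Bx (n + m0)) (v p.1) (fun U => A (U ∘ pos n x m0))| ≤
      DD 1 s0 * Real.exp (-(s0 * 4 ^ (-(K : ℤ) + n + m0))) := by
    rw [nr_int tj.pd tj.cls (inv_pos hA.Inv x p.2), nr_pos tj.pd tj.cls hA.Inv x p.2,
      nr_int tj.pd tj.cls (inv_pos hA.Inv x m0), nr_pos tj.pd tj.cls hA.Inv x m0, hi]
    exact al_cauchy (tj.shift n) (nr_cc tj.pd tj.cls hA.Inv) (nr_abs tj.pd tj.cls hA.le) m0 i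
  rw [Real.dist_eq] at hp2
  rw [Real.dist_eq, h1]
  have h14 := abs_sub_le (ex μ (Bx (n + p.2)) (v p.1) (fun U => A (U ∘ pos n x p.2)))
    (ex μ (Bx (n + m0)) (v p.1) (fun U => A (U ∘ pos n x m0))) S
  have h15 := abs_sub_le (ex μ (Bx (n + m0)) (v p.1) (fun U => A (U ∘ pos n x m0)))
    (ex μ (Bx (n + m0)) f (fun U => A (U ∘ pos n x m0))) S
  linarith

/-! ### Wilson loops -/

lemma nr_zero (w : G → ℝ) {χ : G → ℝ} :
    nr μ w 0 (fun U => χ (hol sq U ())) = fun T => χ T * w T := by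
  funext T
  show (χ (hol sq ![T, 1, 1, 1] ()) * ∏ f : sq.F, w (hol sq ![T, 1, 1, 1] f)) / 1 = χ T * w T
  rw [div_one, Fintype.prod_unique]
  show χ (hol sq ![T, 1, 1, 1] ()) * w (hol sq ![T, 1, 1, 1] ()) = χ T * w T
  rw [hol_sq]

theorem wilson {w : G → ℝ} {C σ : ℝ} {k : ℤ} (t : Tail μ w C σ k) {χ : G → ℝ} (hχ : Continuous χ)
    (hc : IsCls χ) (h1 : ∀ x, |χ x| ≤ 1) (h0 : ∫ x, χ x ∂μ = 0) :
    |li μ w (nr μ w 0 (fun U => χ (hol sq U ())))| ≤
      (DD C σ + C) * Real.exp (-(σ * 4 ^ k)) := by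
  have hwc := t.pd.cont
  have hE := Real.exp_pos (-(σ * (4 : ℝ) ^ k))
  have hD := DD_pos t.c0 t.s0
  have hC := t.c0
  rw [nr_zero]
  have hα : CC fun T => χ T * w T := ⟨by fun_prop, fun x y => by rw [hc x y, t.cls x y]⟩
  have ha : ∀ x, |χ x * w x| ≤ w x := by
    intro x
    rw [abs_mul, abs_of_nonneg (t.pd.nonneg x)]
    exact mul_le_of_le_one_left (t.pd.nonneg x) (h1 x)
  by_cases hk : 0 ≤ k
  · have h2 := li_le t hα ha 0
    have h3 : ∫ T, al μ w (fun T => χ T * w T) 0 T ∂μ = ∫ T, χ T * (w T - 1) ∂μ := by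
      show ∫ T, χ T * w T ∂μ = _
      have h4 : ∫ T, χ T * (w T - 1) ∂μ = ∫ T, χ T * w T ∂μ - ∫ T, χ T ∂μ := by
        rw [← integral_sub (ig μ (by fun_prop)) (ig μ hχ)]
        exact integral_congr_ae (Filter.Eventually.of_forall fun y => by simp only; ring)
      rw [h4, h0, sub_zero]
    have h4 : |∫ T, χ T * (w T - 1) ∂μ| ≤ C * Real.exp (-(σ * 4 ^ k)) := by
      have h5 := norm_integral_le_of_norm_le_const (μ := μ)
        (f := fun T => χ T * (w T - 1)) (C := C * Real.exp (-(σ * 4 ^ k)))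
        (Filter.Eventually.of_forall fun T => by
          rw [Real.norm_eq_abs, abs_mul]
          have h6 := t.le 0 (by simpa using hk) T
          simp only [Nat.cast_zero, add_zero, Function.iterate_zero, id] at h6
          exact (mul_le_of_le_one_left (abs_nonneg _) (h1 T)).trans h6)
      rwa [probReal_univ, mul_one] at h5
    rw [h3] at h2
    simp only [Nat.cast_zero, add_zero] at h2
    have h5 := abs_sub_abs_le_abs_sub (li μ w (fun T => χ T * w T)) (∫ T, χ T * (w T - 1) ∂μ)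
    rw [abs_sub_comm] at h5
    rw [add_mul]
    linarith
  · push Not at hk
    have h2 := li_abs t hα ha
    have h3 := triv_DD hC t.s0 hk
    rw [add_mul]
    have h4 : 0 ≤ C * Real.exp (-(σ * 4 ^ k)) := by positivity
    linarith

end

end Pool.Agent.T2H03.HX
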