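import Mathlib
import Pool.Agent.T2H03.HX.Top

/-!
# Independence of the surroundings of a box
-/

open MeasureTheory Filter
open scoped Topology
open Pool.Agent.T2H04.HY (cnv cnv4 continuous_cnv continuous_cnv4 right_inv' inv_inv' PD norm_pos
  pd_mk)
open Pool.Agent.T2H04

namespace Pool.Agent.T2H03.HX

set_option linter.unusedSectionVars false

noncomputable section

variable {G : Type} [Group G] [TopologicalSpace G] [IsTopologicalGroup G] [CompactSpace G]
  [SecondCountableTopology G] [MeasurableSpace G] [BorelSpace G] {μ : Measure G}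
  [IsProbabilityMeasure μ] [μ.IsHaarMeasure]

/-- expectations of functions which are nearly constant -/
lemma ex_near (X : Cx) {v : G → ℝ} (hc : Continuous v) (hpos : ∀ x, 0 < v x)
    {B : (X.E → G) → ℝ} (hB : Continuous B) {a b : ℝ} (h : ∀ V, |B V - a| ≤ b) :
    |ex μ X v B - a| ≤ b := by
  have hZ := Z_pos μ X hc hpos
  have hw := wt_cont X hc
  have h1 : ex μ X v B - a = (∫ V, (B V - a) * wt X v V ∂P μ X.E) / ∫ V, wt X v V ∂P μ X.E := by
    have h2 : ∫ V, (B V - a) * wt X v V ∂P μ X.E =
        ∫ V, B V * wt X v V ∂P μ X.E - a * ∫ V, wt X v V ∂P μ X.E := by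
      rw [← integral_const_mul, ← integral_sub (integ μ (F := fun V => B V * wt X v V) (hB.mul hw))
        (integ μ (F := fun V => a * wt X v V) (continuous_const.mul hw))]
      exact integral_congr_ae (Filter.Eventually.of_forall fun V => by simp only; ring)
    rw [h2]
    unfold ex
    field_simp
  rw [h1, abs_div, abs_of_pos hZ, div_le_iff₀ hZ, ← integral_const_mul]
  refine (abs_integral_le_integral_abs).trans ?_
  refine integral_mono (integ μ ((hB.sub continuous_const).mul hw).abs)
    (integ μ (continuous_const.mul hw)) fun V => ?_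
  simp only
  rw [abs_mul, abs_of_pos (wt_pos X hpos V)]
  exact mul_le_mul_of_nonneg_right (h V) (wt_pos X hpos V).le

lemma num_env {w : G → ℝ} (hw : PD μ w) (hc : IsCls w) {N : ℕ}
    (hpos : ∀ x, 0 < (HY.mk μ)^[N] w x) (X : Cx) (g : X.F) {K : ((Bx N).E → G) → ℝ}
    (hK : Inv (Bx N) K) :
    ∫ U, K (U ∘ ((X.face g).refs N).e) * wt (X.refs N) w U ∂P μ (X.refs N).E =
      cc μ w N ^ Fintype.card X.F * ∫ V, (nr μ w N K (hol X V g) / (HY.mk μ)^[N] w (hol X V g)) *
        wt X ((HY.mk μ)^[N] w) V ∂P μ X.E := by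
  classical
  have hcN := cc_pos hw N
  have hinv : Inv (X.refs N) fun U => K (U ∘ ((X.face g).refs N).e) * wt (X.refs N) w U :=
    (hK.comp ((X.face g).refs N)).mul (inv_wt (X.refs N) (wc hw hc))
  rw [int_refs μ N X hinv.cont hinv.inv, ← integral_const_mul]
  refine integral_congr_ae (Filter.Eventually.of_forall fun V => ?_)
  simp only
  set K' : X.F → ((Bx N).E → G) → ℝ := fun i U => (if i = g then K U else 1) * wt (Bx N) w U
    with hK'
  have hK'i : ∀ i, Inv (Bx N) (K' i) := by
    intro i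
    refine Inv.mul ?_ (inv_wt (Bx N) (wc hw hc))
    by_cases hi : i = g
    · simp only [hi, if_true]
      exact hK
    · simp only [hi, if_false]
      exact Inv.const (Bx N) 1
  have h1 : (fun U : (X.refs N).E → G => K (U ∘ ((X.face g).refs N).e) * wt (X.refs N) w U) =
      fun U => ∏ i, K' i (U ∘ ((X.face i).refs N).e) := by
    funext U
    rw [wt_cov ((cov_face X).refs N), hK', Finset.prod_mul_distrib]
    congr 1
    rw [Finset.prod_eq_single g]
    · rw [if_pos rfl]
    · intro r _ hr
      rw [if_neg hr]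
    · intro h
      exact absurd (Finset.mem_univ g) h
  have h2 : Cn μ N X (fun U => K (U ∘ ((X.face g).refs N).e) * wt (X.refs N) w U) V =
      ∏ i, red μ N (K' i) (hol X V i) := by
    rw [h1, Cn_cover μ (cov_face X) N K' V]
    refine Finset.prod_congr rfl fun i _ => ?_
    rw [red_eq μ (hK'i i), ← hol_hom (X.face i)]
    rfl
  have h3 : ∀ i T, red μ N (K' i) T = cc μ w N *
      ((if i = g then nr μ w N K T / (HY.mk μ)^[N] w T else 1) * (HY.mk μ)^[N] w T) := by
    intro i T
    have hT := (hpos T).ne'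
    by_cases hi : i = g
    · rw [if_pos hi]
      have e1 : K' i = fun U => K U * wt (Bx N) w U := by
        funext U
        rw [hK']
        simp only [hi, if_true]
      rw [e1]
      unfold nr
      field_simp
    · rw [if_neg hi]
      have e1 : K' i = fun U => 1 * wt (Bx N) w U := by
        funext U
        rw [hK']
        simp only [hi, if_false]
      have e2 := congrFun (nr_one hw hc N) T
      rw [e1, ← e2]
      unfold nr
      field_simp
  rw [h2]
  simp only [h3]
  rw [Finset.prod_mul_distrib, Finset.prod_mul_distrib, Finset.prod_const, Finset.card_univ]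
  congr 2
  rw [Finset.prod_eq_single g]
  · rw [if_pos rfl]
  · intro r _ hr
    rw [if_neg hr]
  · intro h
    exact absurd (Finset.mem_univ g) h

/-- the expectation of an observable in a box, which is a part of an arbitrary complex -/
theorem ex_env {w : G → ℝ} (hw : PD μ w) (hc : IsCls w) {N : ℕ}
    (hpos : ∀ x, 0 < (HY.mk μ)^[N] w x) (X : Cx) (g : X.F) {K : ((Bx N).E → G) → ℝ}
    (hK : Inv (Bx N) K) :
    ex μ (X.refs N) w (fun U => K (U ∘ ((X.face g).refs N).e)) =
      ex μ X ((HY.mk μ)^[N] w) fun V =>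
        nr μ w N K (hol X V g) / (HY.mk μ)^[N] w (hol X V g) := by
  have hcN := cc_pos hw N
  have h1 := num_env hw hc hpos X g hK
  have h2 := num_env hw hc hpos X g (Inv.const (Bx N) 1)
  have h3 : ∀ T, nr μ w N (fun _ => 1) T / (HY.mk μ)^[N] w T = 1 := by
    intro T
    rw [nr_one hw hc, div_self (hpos T).ne']
  simp only [one_mul, h3] at h2
  unfold ex
  rw [show (∫ U, K (U ∘ ((X.face g).refs N).e) * wt (X.refs N) w U ∂Measure.pi fun _ => μ) = _
    from h1, show (∫ U, wt (X.refs N) w U ∂Measure.pi fun _ => μ) = _ from h2,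
    mul_div_mul_left _ _ (pow_pos hcN _).ne']

/-- **Infinite volume limit, with arbitrary surroundings.** -/
theorem env {w : G → ℝ} {C σ : ℝ} {k : ℤ} (t : Tail μ w C σ k) (hwp : ∀ x, 0 < w x)
    (hpos : ∀ i x, 0 < (HY.mk μ)^[i] w x) {n : ℕ}
    {A : ((Bx n).E → G) → ℝ} (hA : Obs (Bx n) A) (X : Cx) (g : X.F)
    (x : ℕ → Fin 4 × Fin 4) (m : ℕ) :
    |ex μ (X.refs (n + m + 1)) w
      (fun U => A (U ∘ ((X.face g).refs (n + m + 1)).e ∘ pos n x (m + 1))) -
      li μ ((HY.mk μ)^[n] w) (nr μ w n A)| ≤ 4 * DD C σ * Real.exp (-(σ * 4 ^ (k + n + m))) := by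
  have hD := DD_pos t.c0 t.s0
  have hE := Real.exp_pos (-(σ * (4 : ℝ) ^ (k + n + m)))
  have tn := t.shift n
  set α := nr μ w n A with hα
  have cα : CC α := nr_cc t.pd t.cls hA.Inv
  have bα : ∀ T, |α T| ≤ (HY.mk μ)^[n] w T := nr_abs t.pd t.cls hA.le
  have lα := li_abs tn cα bα
  have hAm := inv_pos hA.Inv x (m + 1)
  have h0 : |ex μ (X.refs (n + m + 1)) w
      (fun U => A (U ∘ ((X.face g).refs (n + m + 1)).e ∘ pos n x (m + 1)))| ≤ 1 := by
    have h1 := ex_near (μ := μ) (X.refs (n + m + 1)) t.pd.cont hwp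
      (B := fun U => A (U ∘ ((X.face g).refs (n + m + 1)).e ∘ pos n x (m + 1)))
      (hAm.comp ((X.face g).refs (n + m + 1))).cont (a := 0) (b := 1) (fun V => by
        rw [sub_zero]
        exact hA.le _)
    rwa [sub_zero] at h1
  have triv : |ex μ (X.refs (n + m + 1)) w
      (fun U => A (U ∘ ((X.face g).refs (n + m + 1)).e ∘ pos n x (m + 1))) -
      li μ ((HY.mk μ)^[n] w) α| ≤ 2 := by
    have h1 := abs_sub (ex μ (X.refs (n + m + 1)) w
      (fun U => A (U ∘ ((X.face g).refs (n + m + 1)).e ∘ pos n x (m + 1))))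
      (li μ ((HY.mk μ)^[n] w) α)
    linarith
  by_cases hm : 0 ≤ k + n + m
  · have hkm : k + ((n + m : ℕ) : ℤ) = k + n + m := by push_cast; ring
    by_cases hs : C * Real.exp (-(σ * 4 ^ (k + n + m))) ≤ 1 / 4
    · have nn : Near μ ((HY.mk μ)^[n + m] w) (C * Real.exp (-(σ * 4 ^ (k + n + m)))) := by
        have h1 := t.near (i := n + m) (by rw [hkm]; exact hm) (by rw [hkm]; linarith)
        rwa [hkm] at h1
      have hit : (HY.mk μ)^[m] ((HY.mk μ)^[n] w) = (HY.mk μ)^[n + m] w := by
        rw [← Function.iterate_add_apply, add_comm]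
      have cαm := al_cc tn.pd tn.cls cα m
      have bαm := al_abs tn.pd bα m
      rw [hit] at bαm
      have h1 := stp_near nn cαm.cont bαm
      have h4 : stp μ ((HY.mk μ)^[n + m] w) (al μ ((HY.mk μ)^[n] w) α m) =
          al μ ((HY.mk μ)^[n] w) α (m + 1) := by
        rw [← hit]
        rfl
      have h5 : HY.mk μ ((HY.mk μ)^[n + m] w) = (HY.mk μ)^[n + m + 1] w := by
        rw [Function.iterate_succ_apply']
      rw [h4, h5] at h1
      have h6 : ∀ T, 1 / 2 ≤ (HY.mk μ)^[n + m + 1] w T := by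
        intro T
        have h7 := iter_one (HY.Asm.iter_pd μ t.pd (n + m)) (fun y => (nn.near y).trans hs) 1 T
        rw [Function.iterate_one, h5] at h7
        have h8 := (abs_le.1 h7).1
        have h9 : (3 / 4 : ℝ) ^ 4 ^ 1 / 3 ≤ 1 / 2 := by norm_num
        linarith
      have h7 := ex_env t.pd t.cls (hpos (n + m + 1)) X g hAm
      have h8 : nr μ w (n + m + 1) (fun U => A (U ∘ pos n x (m + 1))) =
          al μ ((HY.mk μ)^[n] w) α (m + 1) := nr_pos t.pd t.cls hA.Inv x (m + 1)
      have h9 : ex μ (X.refs (n + m + 1)) w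
          (fun U => A (U ∘ ((X.face g).refs (n + m + 1)).e ∘ pos n x (m + 1))) =
          ex μ X ((HY.mk μ)^[n + m + 1] w) fun V =>
            al μ ((HY.mk μ)^[n] w) α (m + 1) (hol X V g) / (HY.mk μ)^[n + m + 1] w (hol X V g) := by
        rw [← h8]
        exact h7
      have c1 := (al_cc tn.pd tn.cls cα (m + 1)).cont
      have c2 := (HY.Asm.iter_pd μ t.pd (n + m + 1)).cont
      have h10 := ex_near (μ := μ) X c2 (hpos (n + m + 1))
        (B := fun V => al μ ((HY.mk μ)^[n] w) α (m + 1) (hol X V g) /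
          (HY.mk μ)^[n + m + 1] w (hol X V g))
        ((c1.comp (hol_cont X g)).div (c2.comp (hol_cont X g)) fun V => (hpos _ _).ne')
        (a := ∫ y, al μ ((HY.mk μ)^[n] w) α m y ∂μ)
        (b := 14 * (C * Real.exp (-(σ * 4 ^ (k + n + m))))) (fun V => by
          set T := hol X V g with hT
          have hp := hpos (n + m + 1) T
          have e1 : al μ ((HY.mk μ)^[n] w) α (m + 1) T / (HY.mk μ)^[n + m + 1] w T -
              ∫ y, al μ ((HY.mk μ)^[n] w) α m y ∂μ =
              (al μ ((HY.mk μ)^[n] w) α (m + 1) T - (∫ y, al μ ((HY.mk μ)^[n] w) α m y ∂μ) *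
                (HY.mk μ)^[n + m + 1] w T) / (HY.mk μ)^[n + m + 1] w T := by
            field_simp
          rw [e1, abs_div, abs_of_pos hp, div_le_iff₀ hp]
          have e2 := h1 T
          have e3 := h6 T
          have e4 := nn.eps
          nlinarith)
      rw [h9]
      have h11 := li_le tn cα bα m
      have h12 := abs_sub_le (ex μ X ((HY.mk μ)^[n + m + 1] w) fun V =>
        al μ ((HY.mk μ)^[n] w) α (m + 1) (hol X V g) / (HY.mk μ)^[n + m + 1] w (hol X V g))
        (∫ y, al μ ((HY.mk μ)^[n] w) α m y ∂μ) (li μ ((HY.mk μ)^[n] w) α)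
      have h13 := mul_le_mul_of_nonneg_right (le_DD t.c0 t.s0) hE.le
      have h14 := mul_pos hD hE
      linarith
    · push Not at hs
      have h1 := mul_le_mul_of_nonneg_right (le_DD t.c0 t.s0) hE.le
      linarith
  · push Not at hm
    have h1 := triv_DD t.c0 t.s0 hm
    have h2 : 0 < DD C σ * Real.exp (-(σ * 4 ^ (k + n + m))) := mul_pos hD hE
    linarith

end

end Pool.Agent.T2H03.HX
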