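import Mathlib
import Pool.Agent.T2H03.HX.Env

/-!
# The holonomy around the boundary of a box; plaquette functions which are not normalised
-/

open MeasureTheory Filter
open scoped Topology
open Pool.Agent.T2H04.HY (cnv cnv4 continuous_cnv continuous_cnv4 right_inv' inv_inv' PD norm_pos
  pd_mk)
open Pool.Agent.T2H04

namespace Pool.Agent.T2H03.HX

set_option linter.unusedSectionVars false

noncomputable section

variable {G : Type} [Group G] [TopologicalSpace G] [IsTopologicalGroup G] [CompactSpace G]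
  [SecondCountableTopology G] [MeasurableSpace G] [BorelSpace G] (μ : Measure G)
  [IsProbabilityMeasure μ] [μ.IsHaarMeasure]

lemma wt_scale (X : Cx) (w : G → ℝ) (c : ℝ) (U : X.E → G) :
    wt X (fun x => c * w x) U = c ^ Fintype.card X.F * wt X w U := by
  unfold wt
  rw [Finset.prod_mul_distrib, Finset.prod_const, Finset.card_univ]

/-- expectations do not depend on the normalisation of the plaquette function -/
theorem ex_scale (X : Cx) (w : G → ℝ) {c : ℝ} (hc : c ≠ 0) (A : (X.E → G) → ℝ) :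
    ex μ X (fun x => c * w x) A = ex μ X w A := by
  have hcn : c ^ Fintype.card X.F ≠ 0 := pow_ne_zero _ hc
  have h1 : ∫ U, A U * wt X (fun x => c * w x) U ∂P μ X.E =
      c ^ Fintype.card X.F * ∫ U, A U * wt X w U ∂P μ X.E := by
    rw [← integral_const_mul]
    refine integral_congr_ae (Filter.Eventually.of_forall fun U => ?_)
    simp only [wt_scale]
    ring
  have h2 : ∫ U, wt X (fun x => c * w x) U ∂P μ X.E =
      c ^ Fintype.card X.F * ∫ U, wt X w U ∂P μ X.E := by
    rw [← integral_const_mul]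
    refine integral_congr_ae (Filter.Eventually.of_forall fun U => ?_)
    simp only [wt_scale]
  unfold ex
  rw [show (∫ U, A U * wt X (fun x => c * w x) U ∂Measure.pi fun _ => μ) = _ from h1,
    show (∫ U, wt X (fun x => c * w x) U ∂Measure.pi fun _ => μ) = _ from h2,
    mul_div_mul_left _ _ hcn]

omit [SecondCountableTopology G] in
lemma mk_scale (w : G → ℝ) {c : ℝ} (hc : c ≠ 0) : HY.mk μ (fun x => c * w x) = HY.mk μ w := by
  have h1 : cnv4 μ (fun x => c * w x) = fun x => c ^ 4 * cnv4 μ w x := by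
    have h2 : ∀ (f : G → ℝ) (a : ℝ), cnv μ (fun x => a * f x) (fun x => a * f x) =
        fun x => (a * a) * cnv μ f f x := by
      intro f a
      funext x
      unfold cnv
      rw [← integral_const_mul]
      exact integral_congr_ae (Filter.Eventually.of_forall fun y => by simp only; ring)
    unfold cnv4
    rw [h2, h2]
    funext x
    ring
  funext x
  unfold HY.mk
  rw [h1]
  have h3 : ∫ y, (fun x => c ^ 4 * cnv4 μ w x) y ^ 4 ∂μ = (c ^ 4) ^ 4 * ∫ y, cnv4 μ w y ^ 4 ∂μ := by
    rw [← integral_const_mul]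
    exact integral_congr_ae (Filter.Eventually.of_forall fun y => by simp only; ring)
  rw [h3]
  simp only
  rw [mul_pow, mul_div_mul_left _ _ (pow_ne_zero _ (pow_ne_zero _ hc))]

/-- a positive continuous function is a multiple of a density -/
lemma exists_pd {w : G → ℝ} (hc : Continuous w) (hw : ∀ x, 0 < w x) :
    0 < ∫ x, w x ∂μ ∧ PD μ fun x => (∫ x, w x ∂μ)⁻¹ * w x := by
  have h0 : 0 < ∫ x, w x ∂μ := by
    refine Continuous.integral_pos_of_hasCompactSupport_nonneg_nonzero (x := 1) hc
      (HasCompactSupport.of_compactSpace _) (fun x => (hw x).le) (hw 1).ne'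
  refine ⟨h0, by fun_prop, fun x => mul_nonneg (inv_nonneg.2 h0.le) (hw x).le, ?_⟩
  rw [integral_const_mul, inv_mul_cancel₀ h0.ne']

/-- **Exactness** for plaquette functions which are not normalised. -/
theorem ex_refs' (X : Cx) (n q : ℕ) {w : G → ℝ} (hwc : Continuous w) (hw : ∀ x, 0 < w x)
    (hc : ∀ x y, w (y * x * y⁻¹) = w x) {A : ((X.refs n).E → G) → ℝ} (hA : Continuous A) :
    ex μ (X.refs (n + q)) w (fun U => A (blks X n q U)) = ex μ (X.refs n) ((HY.mk μ)^[q] w) A := by
  obtain ⟨h0, hpd⟩ := exists_pd μ hwc hw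
  have h1 := ex_refs μ X n q hpd (fun x y => by simp only [hc]) hA
  have h2 := inv_ne_zero h0.ne'
  rw [ex_scale μ _ w h2] at h1
  rw [h1]
  cases q with
  | zero => exact ex_scale μ _ w h2 A
  | succ q => rw [Function.iterate_succ_apply, Function.iterate_succ_apply, mk_scale μ w h2]

/-- the holonomy around the square -/
theorem ex_sq {v : G → ℝ} (hv : Continuous v) {φ : G → ℝ} (hφ : Continuous φ) :
    ex μ sq v (fun U => φ (hol sq U ())) = (∫ x, φ x * v x ∂μ) / ∫ x, v x ∂μ := by
  have h1 : ∀ U : sq.E → G, wt sq v U = v (hol sq U ()) := by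
    intro U
    unfold wt
    rw [Fintype.prod_unique]
  unfold ex
  simp only [h1]
  rw [show (∫ U, φ (hol sq U ()) * v (hol sq U ()) ∂Measure.pi fun _ => μ) = _ from
    int_hol μ (h := fun x => φ x * v x) (by fun_prop),
    show (∫ U, v (hol sq U ()) ∂Measure.pi fun _ => μ) = _ from int_hol μ hv]

lemma iter_cont {w : G → ℝ} (hwc : Continuous w) (hw : ∀ x, 0 < w x) (q : ℕ) :
    Continuous ((HY.mk μ)^[q] w) := by
  obtain ⟨h0, hpd⟩ := exists_pd μ hwc hw
  cases q with
  | zero => exact hwc
  | succ q =>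
    have h1 := (HY.Asm.iter_pd μ hpd (q + 1)).cont
    rwa [Function.iterate_succ_apply, mk_scale μ w (inv_ne_zero h0.ne'),
      ← Function.iterate_succ_apply] at h1

/-- **The holonomy around the boundary of a box.** -/
theorem ex_loop {w : G → ℝ} (hwc : Continuous w) (hw : ∀ x, 0 < w x)
    (hc : ∀ x y, w (y * x * y⁻¹) = w x) {φ : G → ℝ} (hφ : Continuous φ) (q : ℕ) :
    ex μ (Bx (0 + q)) w (fun U => φ (hol sq (blks sq 0 q U) ())) =
      (∫ x, φ x * (HY.mk μ)^[q] w x ∂μ) / ∫ x, (HY.mk μ)^[q] w x ∂μ := by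
  have h1 := ex_refs' μ sq 0 q hwc hw hc (A := fun U : sq.E → G => φ (hol sq U ()))
    (hφ.comp (hol_cont sq ()))
  rw [← ex_sq μ (iter_cont μ hwc hw q) hφ]
  exact h1

/-- **The ultraviolet limit** for plaquette functions which are not normalised. -/
theorem uv_limit {w : ℕ → G → ℝ} (hwc : ∀ j, Continuous (w j)) (hw : ∀ j x, 0 < w j x)
    (hc : ∀ j x y, w j (y * x * y⁻¹) = w j x) {N : ℕ → ℕ} {f : G → ℝ} (hf : Continuous f)
    (hpos : ∀ x, 0 < f x)
    (h : TendstoUniformly (fun j => (HY.mk μ)^[N j] (w j)) f atTop) (X : Cx) (n : ℕ)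
    {A : ((X.refs n).E → G) → ℝ} (hA : Continuous A) :
    Tendsto (fun j => ex μ (X.refs (n + N j)) (w j) fun U => A (blks X n (N j) U)) atTop
      (𝓝 (ex μ (X.refs n) f A)) := by
  have h1 : ∀ j, ex μ (X.refs (n + N j)) (w j) (fun U => A (blks X n (N j) U)) =
      ex μ (X.refs n) ((HY.mk μ)^[N j] (w j)) A := fun j => ex_refs' μ X n (N j) (hwc j) (hw j)
    (hc j) hA
  simp only [h1]
  exact ex_tendsto μ (X.refs n) (fun j => iter_cont μ (hwc j) (hw j) (N j)) hf hpos h hA

end

end Pool.Agent.T2H03.HX
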