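import Mathlib
import Pool.Agent.T2H03.HX.Top

/-!
# The lattice gauge theories of a renormalisation group trajectory
-/

open MeasureTheory Filter
open scoped Topology
open Pool.Agent.T2H04.HY (cnv cnv4 continuous_cnv continuous_cnv4 right_inv' inv_inv' PD norm_pos
  pd_mk)
open Pool.Agent.T2H04

namespace Pool.Agent.T2H03.HX

set_option linter.unusedSectionVars false

noncomputable section

variable {G : Type} [Group G] [TopologicalSpace G] [IsTopologicalGroup G] [CompactSpace G]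
  [SecondCountableTopology G] [MeasurableSpace G] [BorelSpace G] {μ : Measure G}
  [IsProbabilityMeasure μ] [μ.IsHaarMeasure]

lemma traj_iter {f : ℤ → G → ℝ} (hmk : ∀ k, HY.mk μ (f k) = f (k + 1)) (k : ℤ) (i : ℕ) :
    (HY.mk μ)^[i] (f k) = f (k + i) := by
  induction i with
  | zero => simp
  | succ i ih =>
    rw [Function.iterate_succ_apply', ih, hmk]
    congr 1
    push_cast
    ring

lemma traj_tail {f : ℤ → G → ℝ} (hpd : ∀ k, PD μ (f k)) (hcls : ∀ k x y, f k (y * x * y⁻¹) = f k x)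
    (hmk : ∀ k, HY.mk μ (f k) = f (k + 1)) {C σ : ℝ} (hC : 0 < C) (hσ : 0 < σ)
    (hup : ∀ k : ℕ, ∀ x, |f k x - 1| ≤ C * Real.exp (-(σ * 4 ^ k))) (k : ℤ) :
    Tail μ (f k) C σ k := by
  refine ⟨hpd k, hcls k, hC.le, hσ, fun i hi x => ?_⟩
  rw [traj_iter hmk]
  obtain ⟨l, hl⟩ := Int.eq_ofNat_of_zero_le hi
  rw [hl, zpow_natCast]
  exact hup l x

/-- **The infinite volume lattice gauge theories of a renormalisation group trajectory.** -/
theorem lattice {f : ℤ → G → ℝ} (hpd : ∀ k, PD μ (f k))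
    (hcls : ∀ k x y, f k (y * x * y⁻¹) = f k x) (hpos : ∀ k x, 0 < f k x)
    (hmk : ∀ k, HY.mk μ (f k) = f (k + 1))
    (hup : ∃ C σ : ℝ, 0 < C ∧ 0 < σ ∧ ∀ k : ℕ, ∀ x, |f k x - 1| ≤ C * Real.exp (-(σ * 4 ^ k))) :
    ∃ (S : ℤ → (n : ℕ) → (((Bx n).E → G) → ℝ) → ℝ) (C σ : ℝ), 0 < C ∧ 0 < σ ∧
      -- infinite volume limit
      (∀ k n A, Obs (Bx n) A → ∀ x m, |ex μ (Bx (n + m)) (f k) (fun U => A (U ∘ pos n x m)) -
        S k n A| ≤ C * Real.exp (-(σ * 4 ^ (k + n + m)))) ∧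
      -- consistency of the scales
      (∀ k n A, Obs (Bx n) A → S k (n + 1) (fun U => A (blkL n sq U)) = S (k + 1) n A) ∧
      -- clustering
      (∀ k n A B, Obs (Bx n) A → Obs (Bx n) B → ∀ x y m, x m ≠ y m →
        |S k (n + m + 1) (fun U => A (U ∘ pos n x (m + 1)) * B (U ∘ pos n y (m + 1))) -
          S k n A * S k n B| ≤ C * Real.exp (-(σ * 4 ^ (k + n + m)))) ∧
      -- area law
      (∀ k (χ : G → ℝ), Continuous χ → (∀ x y, χ (y * x * y⁻¹) = χ x) → (∀ x, |χ x| ≤ 1) →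
        ∫ x, χ x ∂μ = 0 → |S k 0 fun U => χ (hol sq U ())| ≤ C * Real.exp (-(σ * 4 ^ k))) ∧
      -- joint limit
      (∀ k (w : ℕ → G → ℝ) (N : ℕ → ℕ), (∀ j, PD μ (w j)) →
        (∀ j x y, w j (y * x * y⁻¹) = w j x) →
        TendstoUniformly (fun j => (HY.mk μ)^[N j] (w j)) (f k) atTop →
        ∀ n A, Obs (Bx n) A → ∀ x, Tendsto (fun p : ℕ × ℕ => ex μ (Bx (n + p.2 + N p.1)) (w p.1)
          fun U => A (blks sq (n + p.2) (N p.1) U ∘ pos n x p.2)) (atTop ×ˢ atTop)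
          (𝓝 (S k n A))) := by
  obtain ⟨C, σ, hC, hσ, hup⟩ := hup
  have t := traj_tail hpd hcls hmk hC hσ hup
  have hD := DD_pos hC.le hσ
  refine ⟨fun k n A => li μ (f (k + n)) (nr μ (f k) n A), 4 * DD C σ + C, σ, by positivity, hσ,
    ?_, ?_, ?_, ?_, ?_⟩
  · intro k n A hA x m
    have h1 := inf_vol (t k) hA x m
    rw [traj_iter hmk] at h1
    refine h1.trans (mul_le_mul_of_nonneg_right (by linarith) (Real.exp_pos _).le)
  · intro k n A hA
    simp only
    rw [nr_blk (hpd k) (hcls k), hmk]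
    have h1 : k + ((n + 1 : ℕ) : ℤ) = k + 1 + n := by push_cast; ring
    rw [h1]
  · intro k n A B hA hB x y m hxy
    have h1 := cluster (t k) hA hB x y m hxy
    rw [traj_iter hmk, traj_iter hmk] at h1
    refine h1.trans (mul_le_mul_of_nonneg_right (by linarith) (Real.exp_pos _).le)
  · intro k χ hχ hc h1 h0
    have h2 := wilson (t k) hχ hc h1 h0
    simp only [Nat.cast_zero, add_zero]
    refine h2.trans (mul_le_mul_of_nonneg_right (by linarith) (Real.exp_pos _).le)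
  · intro k w N hw hc h n A hA x
    have h1 := joint (t k) (hpos k) hw hc h hA x
    rw [traj_iter hmk] at h1
    exact h1

end

end Pool.Agent.T2H03.HX
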