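import Mathlib

/-!
# Products of commuting positive operators
-/

open Filter
open scoped Topology

namespace Pool.Agent.T2H03.HX.Rn

noncomputable section

variable {V : Type*} [AddCommGroup V] [Module ℝ V] {ip : V →ₗ[ℝ] V →ₗ[ℝ] ℝ}

lemma cs (hs : ∀ u v, ip u v = ip v u) (hp : ∀ v, 0 ≤ ip v v) (u v : V) :
    (ip u v) ^ 2 ≤ ip u u * ip v v := by
  have h1 : ∀ t : ℝ, 0 ≤ ip v v * (t * t) + 2 * ip u v * t + ip u u := by
    intro t
    have h2 := hp (u + t • v)
    simp only [map_add, map_smul, LinearMap.add_apply, LinearMap.smul_apply, smul_eq_mul] at h2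
    rw [hs v u] at h2
    linarith
  have h2 := discrim_le_zero h1
  unfold discrim at h2
  nlinarith

/-- the iteration `B ↦ B - B ^ 2` -/
def It (B : V →ₗ[ℝ] V) : ℕ → V →ₗ[ℝ] V
  | 0 => B
  | n + 1 => It B n - It B n ∘ₗ It B n

lemma It_succ (B : V →ₗ[ℝ] V) (n : ℕ) (v : V) :
    It B (n + 1) v = It B n v - It B n (It B n v) := rfl

variable {A B : V →ₗ[ℝ] V}

lemma It_sym (hB : ∀ u v, ip (B u) v = ip u (B v)) (n : ℕ) :
    ∀ u v, ip (It B n u) v = ip u (It B n v) := by
  induction n with
  | zero => exact hB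
  | succ n ih =>
    intro u v
    simp only [It_succ, map_sub, LinearMap.sub_apply]
    rw [ih, ih, ih]

lemma It_comm (hAB : ∀ v, A (B v) = B (A v)) (n : ℕ) : ∀ v, A (It B n v) = It B n (A v) := by
  induction n with
  | zero => exact hAB
  | succ n ih =>
    intro v
    simp only [It_succ, map_sub]
    rw [ih, ih, ih]

lemma It_bd (hp : ∀ v, 0 ≤ ip v v)
    (hB : ∀ u v, ip (B u) v = ip u (B v)) (hB0 : ∀ v, 0 ≤ ip (B v) v)
    (hB1 : ∀ v, ip (B v) v ≤ ip v v) (n : ℕ) :
    ∀ v, 0 ≤ ip (It B n v) v ∧ ip (It B n v) v ≤ ip v v := by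
  induction n with
  | zero => exact fun v => ⟨hB0 v, hB1 v⟩
  | succ n ih =>
    intro v
    have h1 := (ih (It B n v)).2
    have h2 := (ih (v - It B n v)).1
    have h3 := (ih v).2
    have h4 := It_sym hB n (It B n v) v
    have h5 := hp (It B n v)
    simp only [map_sub, LinearMap.sub_apply] at h2
    simp only [It_succ, map_sub, LinearMap.sub_apply]
    constructor <;> linarith

theorem mul_pos (hs : ∀ u v, ip u v = ip v u) (hp : ∀ v, 0 ≤ ip v v)
    (hA : ∀ u v, ip (A u) v = ip u (A v)) (hA0 : ∀ v, 0 ≤ ip (A v) v)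
    (hB : ∀ u v, ip (B u) v = ip u (B v)) (hB0 : ∀ v, 0 ≤ ip (B v) v)
    (hB1 : ∀ v, ip (B v) v ≤ ip v v) (hAB : ∀ v, A (B v) = B (A v)) (v : V) :
    0 ≤ ip (A (B v)) v := by
  set s : ℕ → ℝ := fun n => ip (It B n v) (It B n v) with hsdef
  have h1 : ∀ N, ip (A (It B N v)) v ≤ ip (A (B v)) v := by
    intro N
    induction N with
    | zero => exact le_rfl
    | succ N ih =>
      have h2 := hA0 (It B N v)
      have h3 := It_sym hB N (A (It B N v)) v
      have h4 := It_comm hAB N (It B N v)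
      rw [← h4] at h3
      simp only [It_succ, map_sub, LinearMap.sub_apply]
      linarith
  have h2 : ∀ N, ∑ n ∈ Finset.range N, s n ≤ ip (B v) v := by
    intro N
    have h3 : ∀ N, ∑ n ∈ Finset.range N, s n = ip (B v) v - ip (It B N v) v := by
      intro N
      induction N with
      | zero => simp [It]
      | succ N ih =>
        rw [Finset.sum_range_succ, ih]
        have h4 := It_sym hB N (It B N v) v
        simp only [It_succ, map_sub, LinearMap.sub_apply, hsdef]
        linarith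
    rw [h3]
    have h4 := (It_bd hp hB hB0 hB1 N v).1
    linarith
  have h3 : Tendsto s atTop (𝓝 0) :=
    (summable_of_sum_range_le (fun n => hp _) h2).tendsto_atTop_zero
  have h4 : ∀ N, -Real.sqrt (s N * ip (A v) (A v)) ≤ ip (A (B v)) v := by
    intro N
    have h5 := cs hs hp (It B N v) (A v)
    have h6 := Real.abs_le_sqrt h5
    have h7 := (abs_le.1 h6).1
    rw [← hA (It B N v) v] at h7
    exact h7.trans (h1 N)
  have h5 : Tendsto (fun N => -Real.sqrt (s N * ip (A v) (A v))) atTop (𝓝 0) := by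
    have h6 := ((Real.continuous_sqrt.tendsto _).comp (h3.mul_const (ip (A v) (A v)))).neg
    simpa using h6
  exact le_of_tendsto' h5 h4

end

end Pool.Agent.T2H03.HX.Rn
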