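import Mathlib
import Pool.Agent.T2H03.HX.Rn
import Pool.Agent.T2H03.HX.Top

/-!
# Positive definite functions and a lower bound for Wilson loops in infinite volume
-/

open MeasureTheory Filter
open scoped Topology
open Pool.Agent.T2H04.HY (cnv cnv4 continuous_cnv continuous_cnv4 right_inv' inv_inv' PD norm_pos
  pd_mk)
open Pool.Agent.T2H04

namespace Pool.Agent.T2H03.HX

set_option linter.unusedSectionVars false

noncomputable section

variable {G : Type} [Group G] [TopologicalSpace G] [IsTopologicalGroup G] [CompactSpace G]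
  [SecondCountableTopology G] [MeasurableSpace G] [BorelSpace G] (μ : Measure G)
  [IsProbabilityMeasure μ] [μ.IsHaarMeasure]

/-- continuous symmetric class functions -/
structure CS (f : G → ℝ) : Prop where
  cont : Continuous f
  cls : IsCls f
  sym : ∀ x, f x⁻¹ = f x

/-- positive definite functions -/
def Ps (f : G → ℝ) : Prop := HY.Low.Pos μ fun x y => f (x⁻¹ * y)

variable {μ}

lemma CS.cc {f : G → ℝ} (h : CS f) : CC f := ⟨h.cont, h.cls⟩

lemma cnv_cs {f g : G → ℝ} (hf : CS f) (hg : CS g) : CS (cnv μ f g) := by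
  have h1 := cnv_cc μ hf.cc hg.cc
  refine ⟨h1.cont, h1.cls, fun x => ?_⟩
  have h2 : cnv μ f g x = cnv μ g f x := congrFun (cnv_comm hf.cls) x
  rw [h2]
  unfold cnv
  rw [← shl μ (fun y => f y * g (y⁻¹ * x⁻¹)) x⁻¹]
  refine integral_congr_ae (Filter.Eventually.of_forall fun y => ?_)
  simp only
  have e1 : (x⁻¹ * y)⁻¹ * x⁻¹ = y⁻¹ := by group
  rw [e1, hg.sym, ← hf.sym, mul_comm]
  congr 2
  group

lemma cnv_assoc {f g h : G → ℝ} (hf : Continuous f) (hg : Continuous g) (hh : Continuous h) :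
    cnv μ (cnv μ f g) h = cnv μ f (cnv μ g h) := by
  funext x
  unfold cnv
  have h1 : ∀ y, (∫ z, f z * g (z⁻¹ * y) ∂μ) * h (y⁻¹ * x) =
      ∫ z, f z * g (z⁻¹ * y) * h (y⁻¹ * x) ∂μ := fun y => by rw [integral_mul_const]
  simp only [h1]
  rw [HY.Low.swap μ (F := fun y z => f z * g (z⁻¹ * y) * h (y⁻¹ * x)) (by
    unfold Function.uncurry
    fun_prop)]
  refine integral_congr_ae (Filter.Eventually.of_forall fun z => ?_)
  simp only
  rw [← shl μ (fun y => f z * g (z⁻¹ * y) * h (y⁻¹ * x)) z, ← integral_const_mul]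
  refine integral_congr_ae (Filter.Eventually.of_forall fun y => ?_)
  simp only
  have e1 : z⁻¹ * (z * y) = y := by group
  have e2 : (z * y)⁻¹ * x = y⁻¹ * (z⁻¹ * x) := by group
  rw [e1, e2, mul_assoc]

variable (μ)

/-- the scalar product -/
def sp : C(G, ℝ) →ₗ[ℝ] C(G, ℝ) →ₗ[ℝ] ℝ :=
  LinearMap.mk₂ ℝ (fun φ ψ => ∫ x, φ x * ψ x ∂μ)
    (fun φ φ' ψ => by
      rw [← integral_add (ig μ (by fun_prop)) (ig μ (by fun_prop))]
      exact integral_congr_ae (Filter.Eventually.of_forall fun x => by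
        simp only [ContinuousMap.add_apply]; ring))
    (fun c φ ψ => by
      rw [smul_eq_mul, ← integral_const_mul]
      exact integral_congr_ae (Filter.Eventually.of_forall fun x => by
        simp only [ContinuousMap.smul_apply, smul_eq_mul]; ring))
    (fun φ ψ ψ' => by
      rw [← integral_add (ig μ (by fun_prop)) (ig μ (by fun_prop))]
      exact integral_congr_ae (Filter.Eventually.of_forall fun x => by
        simp only [ContinuousMap.add_apply]; ring))
    (fun c φ ψ => by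
      rw [smul_eq_mul, ← integral_const_mul]
      exact integral_congr_ae (Filter.Eventually.of_forall fun x => by
        simp only [ContinuousMap.smul_apply, smul_eq_mul]; ring))

lemma sp_apply (φ ψ : C(G, ℝ)) : sp μ φ ψ = ∫ x, φ x * ψ x ∂μ := rfl

/-- convolution with a continuous function -/
def op (g : C(G, ℝ)) : C(G, ℝ) →ₗ[ℝ] C(G, ℝ) where
  toFun φ := ⟨cnv μ φ g, continuous_cnv μ φ.continuous g.continuous⟩
  map_add' φ ψ := by
    ext x
    have h1 := congrFun (cnv_add (μ := μ) φ.continuous ψ.continuous g.continuous 1) x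
    simp only [one_mul] at h1
    exact h1
  map_smul' c φ := by
    ext x
    show ∫ y, (c * φ y) * g (y⁻¹ * x) ∂μ = c * ∫ y, φ y * g (y⁻¹ * x) ∂μ
    rw [← integral_const_mul]
    exact integral_congr_ae (Filter.Eventually.of_forall fun y => by simp only; ring)

variable {μ}

lemma op_apply (g φ : C(G, ℝ)) (x : G) : op μ g φ x = cnv μ φ g x := rfl

lemma sp_symm (u v : C(G, ℝ)) : sp μ u v = sp μ v u := by
  rw [sp_apply, sp_apply]
  exact integral_congr_ae (Filter.Eventually.of_forall fun x => mul_comm _ _)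

lemma sp_nonneg (v : C(G, ℝ)) : 0 ≤ sp μ v v := integral_nonneg fun _ => mul_self_nonneg _

lemma op_adj {g : C(G, ℝ)} (hg : ∀ x, g x⁻¹ = g x) (u v : C(G, ℝ)) :
    sp μ (op μ g u) v = sp μ u (op μ g v) := by
  rw [sp_apply, sp_apply]
  simp only [op_apply]
  unfold cnv
  have h1 : ∀ x, (∫ y, u y * g (y⁻¹ * x) ∂μ) * v x = ∫ y, u y * g (y⁻¹ * x) * v x ∂μ :=
    fun x => by rw [integral_mul_const]
  simp only [h1]
  rw [HY.Low.swap μ (F := fun x y => u y * g (y⁻¹ * x) * v x) (by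
    unfold Function.uncurry
    fun_prop)]
  refine integral_congr_ae (Filter.Eventually.of_forall fun y => ?_)
  simp only
  rw [← integral_const_mul]
  refine integral_congr_ae (Filter.Eventually.of_forall fun x => ?_)
  simp only
  have h2 : g (y⁻¹ * x) = g (x⁻¹ * y) := by
    rw [← hg (y⁻¹ * x)]
    congr 1
    group
  rw [h2]
  ring

lemma op_form {g : C(G, ℝ)} (hg : ∀ x, g x⁻¹ = g x) (v : C(G, ℝ)) :
    sp μ (op μ g v) v = ∫ x, ∫ y, g (x⁻¹ * y) * (v x * v y) ∂μ ∂μ := by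
  rw [sp_apply]
  simp only [op_apply]
  unfold cnv
  refine integral_congr_ae (Filter.Eventually.of_forall fun x => ?_)
  simp only
  rw [← integral_mul_const]
  refine integral_congr_ae (Filter.Eventually.of_forall fun y => ?_)
  simp only
  have h2 : g (y⁻¹ * x) = g (x⁻¹ * y) := by
    rw [← hg (y⁻¹ * x)]
    congr 1
    group
  rw [h2]
  ring

lemma op_bd {g : C(G, ℝ)} (hg : ∀ x, g x⁻¹ = g x) {c : ℝ} (hc : ∀ x, |g x| ≤ c) (v : C(G, ℝ)) :
    sp μ (op μ g v) v ≤ c * sp μ v v := by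
  rw [op_form hg, sp_apply]
  have h0 : 0 ≤ c := (abs_nonneg _).trans (hc 1)
  have hI : ∫ y, v y * v y ∂μ = ∫ y, v y * v y ∂μ := rfl
  have h1 : ∀ x, ∫ y, g (x⁻¹ * y) * (v x * v y) ∂μ ≤
      c / 2 * (v x * v x) + c / 2 * ∫ y, v y * v y ∂μ := by
    intro x
    have h2 : ∫ y, g (x⁻¹ * y) * (v x * v y) ∂μ ≤
        ∫ y, (c / 2 * (v x * v x) + c / 2 * (v y * v y)) ∂μ := by
      refine integral_mono (ig μ (by fun_prop)) (ig μ (by fun_prop)) fun y => ?_
      simp only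
      obtain ⟨h3, h4⟩ := abs_le.1 (hc (x⁻¹ * y))
      nlinarith [sq_nonneg (v x - v y), sq_nonneg (v x + v y), mul_nonneg (sub_nonneg.2 h4)
        (sq_nonneg (v x + v y)), mul_nonneg (by linarith : 0 ≤ c + g (x⁻¹ * y))
        (sq_nonneg (v x - v y))]
    rw [integral_add (ig μ (by fun_prop)) (ig μ (by fun_prop)), integral_const, probReal_univ,
      one_smul, integral_const_mul] at h2
    exact h2
  have hcont : Continuous fun x => ∫ y, g (x⁻¹ * y) * (v x * v y) ∂μ :=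
    HY.Low.cont_param μ (F := fun x y => g (x⁻¹ * y) * (v x * v y)) (by
      unfold Function.uncurry
      fun_prop)
  have h2 := integral_mono (μ := μ) (f := fun x => ∫ y, g (x⁻¹ * y) * (v x * v y) ∂μ)
    (g := fun x => c / 2 * (v x * v x) + c / 2 * ∫ y, v y * v y ∂μ) (ig μ hcont)
    (ig μ (by fun_prop)) h1
  rw [integral_add (ig μ (by fun_prop)) (ig μ (by fun_prop)), integral_const, probReal_univ,
      one_smul, integral_const_mul] at h2
  linarith

/-- **Convolutions of positive definite class functions are positive definite.** -/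
theorem ps_cnv {g h : G → ℝ} (hg : CS g) (hh : CS h) (pg : Ps μ g) (ph : Ps μ h) :
    Ps μ (cnv μ g h) := by
  intro φ hφ
  set g' : C(G, ℝ) := ⟨g, hg.cont⟩ with hg'
  set h' : C(G, ℝ) := ⟨h, hh.cont⟩ with hh'
  set v : C(G, ℝ) := ⟨φ, hφ⟩ with hv
  have hgh := cnv_cs (μ := μ) hg hh
  set gh : C(G, ℝ) := ⟨cnv μ g h, hgh.cont⟩ with hgh'
  obtain ⟨c, hc0, hc⟩ : ∃ c : ℝ, 0 < c ∧ ∀ x, |h x| ≤ c := by
    refine ⟨‖h'‖ + 1, by positivity, fun x => ?_⟩
    have h1 := h'.norm_coe_le_norm x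
    rw [Real.norm_eq_abs] at h1
    have h2 : h' x = h x := rfl
    rw [h2] at h1
    linarith
  have key := Rn.mul_pos (ip := sp μ) (A := op μ g') (B := c⁻¹ • op μ h') (sp_symm (μ := μ))
    (sp_nonneg (μ := μ))
    (op_adj (μ := μ) (g := g') hg.sym) (fun v => by
      rw [op_form (g := g') hg.sym]
      exact pg v v.continuous) (fun u v => by
      simp only [LinearMap.smul_apply, map_smul, smul_eq_mul]
      rw [op_adj (g := h') hh.sym]) (fun v => by
      simp only [LinearMap.smul_apply, map_smul, smul_eq_mul]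
      rw [op_form (g := h') hh.sym]
      exact mul_nonneg (inv_nonneg.2 hc0.le) (ph v v.continuous)) (fun v => by
      simp only [LinearMap.smul_apply, map_smul, smul_eq_mul]
      have h1 := op_bd (μ := μ) (g := h') hh.sym hc v
      rw [inv_mul_le_iff₀ hc0]
      exact h1) (fun v => by
      simp only [LinearMap.smul_apply, map_smul]
      congr 1
      ext x
      simp only [op_apply]
      show cnv μ (cnv μ v h) g x = cnv μ (cnv μ v g) h x
      rw [cnv_assoc v.continuous hh.cont hg.cont, cnv_assoc v.continuous hg.cont hh.cont,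
        cnv_comm hh.cls]) v
  have h1 : op μ g' (op μ h' v) = op μ gh v := by
    ext x
    simp only [op_apply]
    show cnv μ (cnv μ v h) g x = cnv μ v (cnv μ g h) x
    rw [cnv_assoc v.continuous hh.cont hg.cont, cnv_comm hh.cls]
  simp only [LinearMap.smul_apply, map_smul, smul_eq_mul] at key
  rw [h1, op_form (g := gh) hgh.sym] at key
  have h2 : 0 < c⁻¹ := _root_.inv_pos.2 hc0
  exact nonneg_of_mul_nonneg_right key h2

lemma ps_int {g : G → ℝ} (pg : Ps μ g) : 0 ≤ ∫ x, g x ∂μ := by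
  have h1 := pg (fun _ => 1) continuous_const
  simp only [mul_one] at h1
  have h2 : ∀ x : G, ∫ y, g (x⁻¹ * y) ∂μ = ∫ y, g y ∂μ := fun x => shl μ g x⁻¹
  simp only [h2] at h1
  rwa [integral_const, probReal_univ, one_smul] at h1

lemma ps_add {g h : G → ℝ} (hg : Continuous g) (hh : Continuous h) (pg : Ps μ g) (ph : Ps μ h) :
    Ps μ fun x => g x + h x := by
  intro φ hφ
  have h1 := pg φ hφ
  have h2 := ph φ hφ
  have c1 : Continuous fun x => ∫ y, g (x⁻¹ * y) * (φ x * φ y) ∂μ :=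
    HY.Low.cont_param μ (F := fun x y => g (x⁻¹ * y) * (φ x * φ y)) (by
      unfold Function.uncurry
      fun_prop)
  have c2 : Continuous fun x => ∫ y, h (x⁻¹ * y) * (φ x * φ y) ∂μ :=
    HY.Low.cont_param μ (F := fun x y => h (x⁻¹ * y) * (φ x * φ y)) (by
      unfold Function.uncurry
      fun_prop)
  have h3 : ∫ x, ∫ y, (g (x⁻¹ * y) + h (x⁻¹ * y)) * (φ x * φ y) ∂μ ∂μ =
      ∫ x, ∫ y, g (x⁻¹ * y) * (φ x * φ y) ∂μ ∂μ + ∫ x, ∫ y, h (x⁻¹ * y) * (φ x * φ y) ∂μ ∂μ := by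
    rw [← integral_add (ig μ c1) (ig μ c2)]
    refine integral_congr_ae (Filter.Eventually.of_forall fun x => ?_)
    simp only
    rw [← integral_add (ig μ (by fun_prop)) (ig μ (by fun_prop))]
    exact integral_congr_ae (Filter.Eventually.of_forall fun y => by simp only; ring)
  rw [h3]
  linarith

lemma ps_smul {g : G → ℝ} {c : ℝ} (hc : 0 ≤ c) (pg : Ps μ g) : Ps μ fun x => c * g x := by
  intro φ hφ
  have h1 := pg φ hφ
  have h2 : ∫ x, ∫ y, (c * g (x⁻¹ * y)) * (φ x * φ y) ∂μ ∂μ =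
      c * ∫ x, ∫ y, g (x⁻¹ * y) * (φ x * φ y) ∂μ ∂μ := by
    rw [← integral_const_mul]
    refine integral_congr_ae (Filter.Eventually.of_forall fun x => ?_)
    simp only
    rw [← integral_const_mul]
    exact integral_congr_ae (Filter.Eventually.of_forall fun y => by simp only; ring)
  rw [h2]
  exact mul_nonneg hc h1

lemma ps_one : Ps μ fun _ : G => (1 : ℝ) := HY.Low.pos_one μ

/-- the decomposition of the convolution power -/
lemma u_eq {v : G → ℝ} (hv : PD μ v) (hs : ∀ x, v x⁻¹ = v x) :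
    ∃ g : G → ℝ, Continuous g ∧ (∀ x, g x⁻¹ = g x) ∧
      ∀ x, cnv4 μ v x = 1 + cnv μ g g x := by
  have hc := continuous_cnv μ hv.cont hv.cont
  refine ⟨fun x => cnv μ v v x - 1, by fun_prop, fun x => ?_, fun x => ?_⟩
  · simp only
    rw [HY.Low.cnv_sym μ hs]
  · have h1 := HY.Low.cnv_sub_one μ hc (HY.Low.cnv_sym μ hs) (by
      rw [HY.Low.int_cnv μ hv.cont hv.cont, hv.int, one_mul]) x
    rw [h1]
    unfold cnv4
    ring

lemma ps_u {v F : G → ℝ} (hv : PD μ v) (hs : ∀ x, v x⁻¹ = v x) (hF : Continuous F)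
    (pF : Ps μ F) : Ps μ (fun x => F x * cnv4 μ v x) ∧
      ∫ x, F x ∂μ ≤ ∫ x, F x * cnv4 μ v x ∂μ := by
  obtain ⟨g, hg, hgs, hu⟩ := u_eq hv hs
  have hgg := continuous_cnv μ hg hg
  have h1 : Ps μ fun x => cnv μ g g x * F x := HY.Low.pos_mul μ hg hgs
    (K := fun x y => F (x⁻¹ * y)) (by unfold Function.uncurry; fun_prop) pF
  have h2 : (fun x => F x * cnv4 μ v x) = fun x => F x + cnv μ g g x * F x := by
    funext x
    rw [hu]
    ring
  rw [h2]
  refine ⟨ps_add hF (by fun_prop) pF h1, ?_⟩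
  rw [integral_add (ig μ hF) (ig μ (by fun_prop))]
  have h3 := ps_int h1
  linarith

lemma ps_mk {v : G → ℝ} (hv : PD μ v) (hs : ∀ x, v x⁻¹ = v x) : Ps μ (HY.mk μ v) := by
  have hc := continuous_cnv4 μ hv.cont
  have h1 := (ps_u hv hs continuous_const (ps_one (μ := μ) (G := G))).1
  have h2 := (ps_u hv hs (by fun_prop) h1).1
  have h3 := (ps_u hv hs (by fun_prop) h2).1
  have h4 := (ps_u hv hs (by fun_prop) h3).1
  have h5 := ps_smul (c := (zz μ v)⁻¹)
    (inv_nonneg.2 (zero_le_one.trans (zz_ge μ hv))) h4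
  have h6 : HY.mk μ v = fun x => (zz μ v)⁻¹ *
      (1 * cnv4 μ v x * cnv4 μ v x * cnv4 μ v x * cnv4 μ v x) := by
    funext x
    rw [mk_eq]
    ring
  rw [h6]
  exact h5

/-! ### The Griffiths inequality for one step -/

lemma cs_cnv4 {v : G → ℝ} (hv : CS v) : CS (cnv4 μ v) := cnv_cs (cnv_cs hv hv) (cnv_cs hv hv)

theorem gks_step {v α : G → ℝ} (hv : PD μ v) (cv : CS v) (pv : Ps μ v) (cα : CS α)
    (pα : Ps μ α) : CS (stp μ v α) ∧ Ps μ (stp μ v α) ∧
      (∫ x, α x ∂μ) / zz μ v ≤ ∫ x, stp μ v α x ∂μ := by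
  set β := cnv μ (cnv μ α v) (cnv μ v v) with hβ
  have cβ : CS β := cnv_cs (cnv_cs cα cv) (cnv_cs cv cv)
  have pβ : Ps μ β := ps_cnv (cnv_cs cα cv) (cnv_cs cv cv) (ps_cnv cα cv pα pv)
    (ps_cnv cv cv pv pv)
  have cu := cs_cnv4 (μ := μ) cv
  have cuc := cu.cont
  have cβc := cβ.cont
  have hz : 0 < zz μ v := lt_of_lt_of_le one_pos (zz_ge μ hv)
  have h1 := ps_u hv cv.sym cβ.cont pβ
  have h2 := ps_u hv cv.sym (by fun_prop) h1.1
  have h3 := ps_u hv cv.sym (by fun_prop) h2.1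
  have h4 : stp μ v α = fun x => (zz μ v)⁻¹ *
      (β x * cnv4 μ v x * cnv4 μ v x * cnv4 μ v x) := by
    funext x
    unfold stp
    rw [J_eq α cv.cc]
    simp only [← hβ]
    ring
  have h5 : ∫ x, β x ∂μ = ∫ x, α x ∂μ := by
    rw [hβ, HY.Low.int_cnv μ (cnv_cs cα cv).cont (cnv_cs cv cv).cont,
      HY.Low.int_cnv μ cα.cont cv.cont, HY.Low.int_cnv μ cv.cont cv.cont, hv.int]
    ring
  refine ⟨?_, ?_, ?_⟩
  · have h6 := stp_cc (μ := μ) cv.cc cα.cc
    refine ⟨h6.cont, h6.cls, fun x => ?_⟩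
    rw [h4]
    simp only [cβ.sym, cu.sym]
  · rw [h4]
    exact ps_smul (inv_nonneg.2 hz.le) h3.1
  · rw [h4, integral_const_mul, div_eq_inv_mul]
    refine mul_le_mul_of_nonneg_left ?_ (inv_nonneg.2 hz.le)
    rw [← h5]
    exact h1.2.trans (h2.2.trans h3.2)

lemma mk_cs {v : G → ℝ} (hv : PD μ v) (cv : CS v) : CS (HY.mk μ v) :=
  ⟨(pd_mk μ v hv).cont, HY.Asm.mk_cls μ cv.cls, HY.Low.mk_sym μ cv.sym⟩

lemma iter_cs {v : G → ℝ} (hv : PD μ v) (cv : CS v) (pv : Ps μ v) (i : ℕ) :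
    CS ((HY.mk μ)^[i] v) ∧ Ps μ ((HY.mk μ)^[i] v) := by
  induction i with
  | zero => exact ⟨cv, pv⟩
  | succ i ih =>
    rw [Function.iterate_succ_apply']
    have h1 := HY.Asm.iter_pd μ hv i
    exact ⟨mk_cs h1 ih.1, ps_mk h1 ih.1.sym⟩

/-- **The Griffiths inequality.** -/
theorem gks {v α : G → ℝ} (hv : PD μ v) (cv : CS v) (pv : Ps μ v) (cα : CS α) (pα : Ps μ α)
    (m : ℕ) : CS (al μ v α m) ∧ Ps μ (al μ v α m) ∧
      Real.exp (-∑ i ∈ Finset.range m, Real.log (zz μ ((HY.mk μ)^[i] v))) * ∫ x, α x ∂μ ≤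
        ∫ x, al μ v α m x ∂μ := by
  induction m with
  | zero => exact ⟨cα, pα, by simp [al]⟩
  | succ m ih =>
    obtain ⟨h1, h2, h3⟩ := ih
    have h4 := iter_cs hv cv pv m
    have h5 := HY.Asm.iter_pd μ hv m
    obtain ⟨h6, h7, h8⟩ := gks_step h5 h4.1 h4.2 h1 h2
    refine ⟨h6, h7, le_trans ?_ h8⟩
    have hz : 0 < zz μ ((HY.mk μ)^[m] v) := lt_of_lt_of_le one_pos (zz_ge μ h5)
    rw [Finset.sum_range_succ, neg_add, Real.exp_add, Real.exp_neg (Real.log _),
      Real.exp_log hz, le_div_iff₀ hz]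
    have h9 : Real.exp (-∑ i ∈ Finset.range m, Real.log (zz μ ((HY.mk μ)^[i] v))) *
        (zz μ ((HY.mk μ)^[m] v))⁻¹ * (∫ x, α x ∂μ) * zz μ ((HY.mk μ)^[m] v) =
        Real.exp (-∑ i ∈ Finset.range m, Real.log (zz μ ((HY.mk μ)^[i] v))) *
        ∫ x, α x ∂μ := by
      field_simp
    rw [h9]
    exact h3

/-- multiplication by a function with a finite Gram representation -/
lemma ps_gram {ι : Type*} [Fintype ι] {e : ι → G → ℝ} {χ F : G → ℝ} (he : ∀ i, Continuous (e i))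
    (hχ : ∀ x y, ∑ i, e i x * e i y = χ (x⁻¹ * y)) (hF : Continuous F) (pF : Ps μ F) :
    Ps μ fun x => χ x * F x := by
  intro φ hφ
  have h1 : ∀ x, ∫ y, χ (x⁻¹ * y) * F (x⁻¹ * y) * (φ x * φ y) ∂μ =
      ∑ i, ∫ y, F (x⁻¹ * y) * ((e i x * φ x) * (e i y * φ y)) ∂μ := by
    intro x
    rw [← integral_finsetSum _ fun i _ => ig μ (by have := he i; fun_prop)]
    refine integral_congr_ae (Filter.Eventually.of_forall fun y => ?_)
    simp only
    rw [← hχ, Finset.sum_mul, Finset.sum_mul]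
    exact Finset.sum_congr rfl fun i _ => by ring
  simp only [h1]
  rw [integral_finsetSum _ fun i _ => ig μ (by
    refine HY.Low.cont_param μ
      (F := fun x y => F (x⁻¹ * y) * ((e i x * φ x) * (e i y * φ y))) ?_
    have := he i
    unfold Function.uncurry
    fun_prop)]
  refine Finset.sum_nonneg fun i _ => ?_
  have := he i
  exact pF (fun x => e i x * φ x) (by fun_prop)

/-- a bound for the normalising factor -/
lemma zz_le {f : G → ℝ} (hf : PD μ f) {δ : ℝ} (h : ∀ x, |f x - 1| ≤ δ) (hδ : δ ≤ 1 / 4) :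
    zz μ f ≤ 1 + δ := by
  have h0 : 0 ≤ δ := (abs_nonneg _).trans (h 1)
  have h1 : ∀ x, |cnv4 μ f x - 1| ≤ δ ^ 4 := by
    intro x
    have h2 := cnv_one (pd_cnv hf) (cnv_one hf h) x
    have h3 : (δ ^ 2) ^ 2 = δ ^ 4 := by ring
    rwa [h3] at h2
  have hd4 : δ ^ 4 ≤ δ / 64 := by
    have h4 : δ ^ 3 ≤ (1 / 4) ^ 3 := pow_le_pow_left₀ h0 hδ 3
    have h5 : δ ^ 4 = δ * δ ^ 3 := by ring
    rw [h5]
    nlinarith
  have hc4 := continuous_cnv4 μ hf.cont
  unfold zz
  have h5 := integral_mono (μ := μ) (f := fun y => cnv4 μ f y ^ 4) (g := fun _ => 1 + δ)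
    (ig μ (by fun_prop)) (ig μ continuous_const) (fun y => by
      obtain ⟨h6, h7⟩ := abs_le.1 (h1 y)
      simp only
      set u := cnv4 μ f y with hu
      have h8 : u ≤ 1 + δ / 64 := by linarith
      have h9 : 0 ≤ u := by linarith
      have h10 : u ^ 4 ≤ (1 + δ / 64) ^ 4 := pow_le_pow_left₀ h9 h8 4
      have h11 : (1 + δ / 64) ^ 2 ≤ 1 + δ / 16 := by nlinarith
      have h12 : (1 + δ / 64) ^ 4 ≤ (1 + δ / 16) ^ 2 := by
        have h13 : (1 + δ / 64) ^ 4 = ((1 + δ / 64) ^ 2) ^ 2 := by ring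
        rw [h13]
        exact pow_le_pow_left₀ (by positivity) h11 2
      have h14 : (1 + δ / 16) ^ 2 ≤ 1 + δ := by nlinarith
      linarith)
  rwa [integral_const, probReal_univ, one_smul] at h5

lemma log_summable {f : ℤ → G → ℝ} (hpd : ∀ k, PD μ (f k)) {C σ : ℝ} (hσ : 0 < σ)
    (hup : ∀ k : ℕ, ∀ x, |f k x - 1| ≤ C * Real.exp (-(σ * 4 ^ k))) :
    Summable fun j : ℕ => Real.log (zz μ (f j)) := by
  have h1 : Tendsto (fun j : ℕ => C * Real.exp (-(σ * 4 ^ j))) atTop (𝓝 0) := by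
    have h2 := (ex_tendsto_zero hσ 0).const_mul C
    simpa using h2
  have h2 : ∀ᶠ j : ℕ in atTop, C * Real.exp (-(σ * 4 ^ j)) ≤ 1 / 4 :=
    h1.eventually (ge_mem_nhds (by norm_num))
  have hr := r_lt hσ
  have hr0 := Real.exp_pos (-(3 * σ))
  have hC : 0 ≤ C := by
    have h3 := (abs_nonneg _).trans (hup 0 1)
    exact nonneg_of_mul_nonneg_left h3 (Real.exp_pos _)
  refine Summable.of_norm_bounded_eventually_nat
    (g := fun j : ℕ => C * Real.exp (-(3 * σ)) ^ j)
    ((summable_geometric_of_lt_one hr0.le hr).mul_left C) ?_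
  filter_upwards [h2] with j hj
  have h3 := zz_le (hpd j) (hup j) hj
  have h4 := zz_ge μ (hpd j)
  have h5 : Real.log (zz μ (f j)) ≤ zz μ (f j) - 1 :=
    Real.log_le_sub_one_of_pos (lt_of_lt_of_le one_pos h4)
  have h6 : 0 ≤ Real.log (zz μ (f j)) := Real.log_nonneg h4
  rw [Real.norm_eq_abs, abs_of_nonneg h6]
  have h7 := ex_le hσ (z := 0) le_rfl j
  simp only [zero_add, zpow_natCast, zpow_zero, mul_one] at h7
  have h8 : Real.exp (-σ) ≤ 1 := Real.exp_le_one_iff.2 (by linarith)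
  have h9 : Real.exp (-σ) * Real.exp (-(3 * σ)) ^ j ≤ 1 * Real.exp (-(3 * σ)) ^ j :=
    mul_le_mul_of_nonneg_right h8 (by positivity)
  have h10 : C * Real.exp (-(σ * 4 ^ j)) ≤ C * Real.exp (-(3 * σ)) ^ j :=
    mul_le_mul_of_nonneg_left (by linarith) hC
  linarith

end

end Pool.Agent.T2H03.HX
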