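import Mathlib
import Pool.Agent.T2H03.HX.Gks

/-!
# The infinite volume expectation of a Wilson loop up to a smaller order
-/

open MeasureTheory Filter
open scoped Topology
open Pool.Agent.T2H04.HY (cnv cnv4 continuous_cnv continuous_cnv4 right_inv' inv_inv' PD norm_pos
  pd_mk)
open Pool.Agent.T2H04

namespace Pool.Agent.T2H03.HX

set_option linter.unusedSectionVars false

noncomputable section

variable {G : Type} [Group G] [TopologicalSpace G] [IsTopologicalGroup G] [CompactSpace G]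
  [SecondCountableTopology G] [MeasurableSpace G] [BorelSpace G] {μ : Measure G}
  [IsProbabilityMeasure μ] [μ.IsHaarMeasure]

/-! ### Linearity -/

lemma stp_lin {v α β : G → ℝ} (hv : CC v) (hα : Continuous α) (hβ : Continuous β) (c : ℝ) :
    stp μ v (fun x => α x + c * β x) = fun T => stp μ v α T + c * stp μ v β T := by
  funext T
  unfold stp
  rw [J_lin (μ := μ) (β := α) (γ := β) (k := fun _ => v) (fun _ => hv.cont) hα hβ c (0, 0) T]
  ring

lemma al_lin {v α β : G → ℝ} (hv : PD μ v) (hc : IsCls v) (hα : CC α) (hβ : CC β) (c : ℝ)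
    (m : ℕ) : al μ v (fun x => α x + c * β x) m = fun T => al μ v α m T + c * al μ v β m T := by
  induction m with
  | zero => rfl
  | succ m ih =>
    show stp μ ((HY.mk μ)^[m] v) (al μ v (fun x => α x + c * β x) m) = _
    rw [ih, stp_lin (iter_cc hv hc m) (al_cc hv hc hα m).cont (al_cc hv hc hβ m).cont]
    rfl

lemma cc_zero : CC (fun _ : G => (0 : ℝ)) := ⟨continuous_const, fun _ _ => rfl⟩

lemma stp_zero {v : G → ℝ} (hv : CC v) : stp μ v (fun _ => 0) = fun _ => 0 := by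
  have h1 := stp_lin (μ := μ) hv (α := fun _ => 0) (β := fun _ => 0) continuous_const
    continuous_const (-1)
  simp only [mul_zero, add_zero] at h1
  rw [h1]
  funext T
  ring

lemma al_zero {v : G → ℝ} (hv : PD μ v) (hc : IsCls v) (m : ℕ) :
    al μ v (fun _ => 0) m = fun _ => 0 := by
  induction m with
  | zero => rfl
  | succ m ih =>
    show stp μ ((HY.mk μ)^[m] v) (al μ v (fun _ => 0) m) = _
    rw [ih, stp_zero (iter_cc hv hc m)]

lemma al_smul {v α : G → ℝ} (hv : PD μ v) (hc : IsCls v) (hα : CC α) (c : ℝ) (m : ℕ) :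
    al μ v (fun x => c * α x) m = fun T => c * al μ v α m T := by
  have h1 := al_lin hv hc cc_zero hα c m
  simp only [zero_add] at h1
  rw [h1, al_zero hv hc]
  simp only [zero_add]

lemma stp_self {v : G → ℝ} : stp μ v v = HY.mk μ v := by
  funext T
  have h2 : (fun r : Fin 4 × Fin 4 => if r = (0, 0) then v else v) = fun _ => v := by
    funext r
    split_ifs <;> rfl
  unfold stp
  rw [h2, J_const, mk_eq]

lemma al_self (v : G → ℝ) (m : ℕ) : al μ v v m = (HY.mk μ)^[m] v := by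
  induction m with
  | zero => rfl
  | succ m ih =>
    show stp μ ((HY.mk μ)^[m] v) (al μ v v m) = _
    rw [ih, stp_self, Function.iterate_succ_apply']

lemma al_shift (v α : G → ℝ) (m : ℕ) : al μ v α (m + 1) = al μ (HY.mk μ v) (stp μ v α) m := by
  induction m with
  | zero => rfl
  | succ m ih =>
    show stp μ ((HY.mk μ)^[m + 1] v) (al μ v α (m + 1)) =
      stp μ ((HY.mk μ)^[m] (HY.mk μ v)) (al μ (HY.mk μ v) (stp μ v α) m)
    rw [ih, Function.iterate_succ_apply]

/-- bounds for multiples -/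
lemma al_abs' {v α : G → ℝ} (hv : PD μ v) (hc : IsCls v) (hα : CC α) {M : ℝ} (hM : 0 ≤ M)
    (ha : ∀ x, |α x| ≤ M * v x) (m : ℕ) (T : G) : |al μ v α m T| ≤ M * (HY.mk μ)^[m] v T := by
  rcases hM.eq_or_lt with h0 | h0
  · have h1 : α = fun _ => 0 := by
      funext x
      have h2 := ha x
      rw [← h0, zero_mul] at h2
      exact abs_eq_zero.1 (le_antisymm h2 (abs_nonneg _))
    rw [h1, al_zero hv hc, ← h0]
    simp
  · have h1 : α = fun x => M * (M⁻¹ * α x) := by
      funext x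
      field_simp
    have hα' : CC fun x => M⁻¹ * α x := ⟨continuous_const.mul hα.cont, fun x y => by
      rw [hα.cls x y]⟩
    have h2 := al_abs hv (α := fun x => M⁻¹ * α x) (fun x => by
      rw [abs_mul, abs_of_pos (_root_.inv_pos.2 h0), inv_mul_le_iff₀ h0]
      exact ha x) m T
    rw [h1, al_smul hv hc hα' M m, abs_mul, abs_of_pos h0]
    exact mul_le_mul_of_nonneg_left h2 h0.le

lemma al_int_le' {v α : G → ℝ} (hv : PD μ v) (hc : IsCls v) (hα : CC α) {M : ℝ} (hM : 0 ≤ M)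
    (ha : ∀ x, |α x| ≤ M * v x) (m : ℕ) : |∫ T, al μ v α m T ∂μ| ≤ M := by
  have h0 := HY.Asm.iter_pd μ hv m
  refine (abs_int_le μ _).trans ?_
  have h1 : N1 μ (al μ v α m) ≤ ∫ T, M * (HY.mk μ)^[m] v T ∂μ := by
    unfold N1
    exact integral_mono (ig μ (al_cc hv hc hα m).cont.abs)
      (ig μ (continuous_const.mul h0.cont)) (al_abs' hv hc hα hM ha m)
  rwa [integral_const_mul, h0.int, mul_one] at h1

lemma li_tendsto' {v α : G → ℝ} {C σ : ℝ} {k : ℤ} (t : Tail μ v C σ k) (hα : CC α) {M : ℝ}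
    (hM : 0 < M) (ha : ∀ x, |α x| ≤ M * v x) :
    Tendsto (fun m => ∫ T, al μ v α m T ∂μ) atTop (𝓝 (li μ v α)) := by
  have h1 : α = fun x => M * (M⁻¹ * α x) := by
    funext x
    field_simp
  have hα' : CC fun x => M⁻¹ * α x := ⟨continuous_const.mul hα.cont, fun x y => by
    rw [hα.cls x y]⟩
  have h2 := (li_tendsto t hα' (fun x => by
      rw [abs_mul, abs_of_pos (_root_.inv_pos.2 hM), inv_mul_le_iff₀ hM]
      exact ha x)).const_mul M
  have h3 : (fun m => ∫ T, al μ v α m T ∂μ) =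
      fun m => M * ∫ T, al μ v (fun x => M⁻¹ * α x) m T ∂μ := by
    funext m
    rw [← integral_const_mul]
    refine integral_congr_ae (Filter.Eventually.of_forall fun T => ?_)
    have h4 := congrFun (al_smul t.pd t.cls hα' M m) T
    rw [← h1] at h4
    exact h4
  rw [← h3] at h2
  exact tendsto_nhds_limUnder ⟨_, h2⟩

/-! ### One step near the constant function -/

lemma beta_near {v α : G → ℝ} {ε : ℝ} (h : Near μ v ε) (hα : Continuous α) (x : G) :
    |cnv μ (cnv μ α v) (cnv μ v v) x - ∫ y, α y ∂μ| ≤ N1 μ α * ε ^ 2 := by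
  have hpd := h.pd
  have hav := continuous_cnv μ hα h.cont
  have h1 := cnv_near (μ := μ) (f := cnv μ v v) (continuous_cnv μ h.cont h.cont) hav
    (cnv_one hpd h.near) x
  rw [HY.Low.int_cnv μ hα h.cont, h.int, mul_one] at h1
  refine h1.trans (mul_le_mul_of_nonneg_right ?_ (sq_nonneg _))
  have h2 := N1_cnv (μ := μ) hα h.cont
  rwa [h.N1, mul_one] at h2

lemma cnv4_near {v : G → ℝ} {ε : ℝ} (h : Near μ v ε) (x : G) : |cnv4 μ v x - 1| ≤ ε ^ 4 := by
  have h2 := cnv_one (pd_cnv h.pd) (cnv_one h.pd h.near) x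
  have h3 : (ε ^ 2) ^ 2 = ε ^ 4 := by ring
  rwa [h3] at h2

theorem stp_near2 {v α : G → ℝ} {ε : ℝ} (h : Near μ v ε) (hα : CC α) (T : G) :
    |stp μ v α T - (∫ y, α y ∂μ) * HY.mk μ v T| ≤ (3 * N1 μ α * ε ^ 2) * HY.mk μ v T := by
  have hvc : CC v := ⟨h.cont, h.cls⟩
  have hz : 0 < zz μ v := lt_of_lt_of_le one_pos (zz_ge μ h.pd)
  have he0 := h.eps
  have he1 := h.small
  have h1 := beta_near h hα.cont T
  have h2 := cnv4_near h T
  have hN := N1_nonneg μ α
  have ha := abs_int_le μ α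
  set a := ∫ y, α y ∂μ with hadef
  set u := cnv4 μ v T with hu
  have hsq : ε ^ 2 ≤ 1 / 4 := by nlinarith
  have h4e : ε ^ 4 ≤ ε ^ 2 / 4 := by
    have e1 : ε ^ 4 = ε ^ 2 * ε ^ 2 := by ring
    rw [e1]
    nlinarith [sq_nonneg ε]
  obtain ⟨h3, h4⟩ := abs_le.1 h2
  have hu1 : 15 / 16 ≤ u := by nlinarith
  have h5 : stp μ v α T - a * HY.mk μ v T =
      ((cnv μ (cnv μ α v) (cnv μ v v) T - a) + a * (1 - u)) * (u ^ 3 / zz μ v) := by
    unfold stp
    rw [J_eq α hvc, mk_eq, ← hu]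
    field_simp
    ring
  have h6 : |(cnv μ (cnv μ α v) (cnv μ v v) T - a) + a * (1 - u)| ≤ N1 μ α * (5 / 4 * ε ^ 2) := by
    refine (abs_add_le _ _).trans ?_
    rw [abs_mul, abs_sub_comm 1 u]
    have h7 : |a| * |u - 1| ≤ N1 μ α * ε ^ 4 := mul_le_mul ha h2 (abs_nonneg _) hN
    nlinarith
  have hu3 : 0 ≤ u ^ 3 / zz μ v := by positivity
  rw [h5, abs_mul, abs_of_nonneg hu3]
  have h7 : u ^ 3 / zz μ v ≤ 16 / 15 * HY.mk μ v T := by
    rw [mk_eq, ← hu, ← mul_div_assoc]
    refine div_le_div_of_nonneg_right ?_ hz.le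
    have e1 : (16 : ℝ) / 15 * u ^ 4 = u ^ 3 * (16 / 15 * u) := by ring
    rw [e1]
    exact le_mul_of_one_le_right (by positivity) (by linarith)
  have hmk : 0 ≤ HY.mk μ v T := (pd_mk μ v h.pd).nonneg T
  have h8 : |(cnv μ (cnv μ α v) (cnv μ v v) T - a) + a * (1 - u)| * (u ^ 3 / zz μ v) ≤
      N1 μ α * (5 / 4 * ε ^ 2) * (16 / 15 * HY.mk μ v T) :=
    mul_le_mul h6 h7 hu3 (by positivity)
  refine h8.trans ?_
  have h9 : 0 ≤ N1 μ α * ε ^ 2 * HY.mk μ v T := by positivity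
  nlinarith

/-- **The infinite volume expectation up to a smaller order.** -/
theorem li_near {v α : G → ℝ} {C σ ε : ℝ} {k : ℤ} (t : Tail μ v C σ k) (h : Near μ v ε)
    (hα : CC α) {M : ℝ} (hM : 0 < M) (ha : ∀ x, |α x| ≤ M * v x) :
    |li μ v α - ∫ x, α x ∂μ| ≤ 3 * N1 μ α * ε ^ 2 := by
  have hpd := pd_mk μ v t.pd
  have hcl : IsCls (HY.mk μ v) := HY.Asm.mk_cls μ t.cls
  have hN := N1_nonneg μ α
  set a := ∫ y, α y ∂μ with hadef
  set ρ : G → ℝ := fun T => stp μ v α T - a * HY.mk μ v T with hρ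
  have hs := stp_cc (μ := μ) ⟨t.pd.cont, t.cls⟩ hα
  have cρ : CC ρ := ⟨hs.cont.sub (continuous_const.mul hpd.cont), fun x y => by
    rw [hρ]
    simp only
    rw [hs.cls x y, hcl x y]⟩
  have h1 : ∀ m, ∫ T, al μ v α (m + 1) T ∂μ - a = ∫ T, al μ (HY.mk μ v) ρ m T ∂μ := by
    intro m
    have h2 : stp μ v α = fun T => ρ T + a * HY.mk μ v T := by
      funext T
      rw [hρ]
      ring
    have h0 := HY.Asm.iter_pd μ hpd m
    have h5 := integral_add (μ := μ) (f := fun T => al μ (HY.mk μ v) ρ m T)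
      (g := fun T => a * (HY.mk μ)^[m] (HY.mk μ v) T) (ig μ (al_cc hpd hcl cρ m).cont)
      (ig μ (continuous_const.mul h0.cont))
    rw [integral_const_mul, h0.int, mul_one] at h5
    rw [al_shift, h2, al_lin hpd hcl cρ ⟨hpd.cont, hcl⟩ a m, al_self, h5]
    ring
  have h2 : ∀ m, |∫ T, al μ v α (m + 1) T ∂μ - a| ≤ 3 * N1 μ α * ε ^ 2 := by
    intro m
    rw [h1]
    exact al_int_le' hpd hcl cρ (by positivity) (stp_near2 h hα) m
  have h3 := ((tendsto_add_atTop_iff_nat 1).2 (li_tendsto' t hα hM ha)).sub_const a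
  exact le_of_tendsto h3.abs (Eventually.of_forall h2)

end

end Pool.Agent.T2H03.HX
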