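import Mathlib
import Pool.Agent.T2H03.HX.Ten
import Pool.Agent.T2H03.HX.Fin

/-!
# The string tension in infinite volume
-/

open MeasureTheory Filter
open scoped Topology
open Pool.Agent.T2H04.HY (cnv cnv4 continuous_cnv continuous_cnv4 right_inv' inv_inv' PD norm_pos
  pd_mk)
open Pool.Agent.T2H04

namespace Pool.Agent.T2H03.HX

set_option linter.unusedSectionVars false

noncomputable section

variable {G : Type} [Group G] [TopologicalSpace G] [IsTopologicalGroup G] [CompactSpace G]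
  [SecondCountableTopology G] [MeasurableSpace G] [BorelSpace G] (μ : Measure G)
  [IsProbabilityMeasure μ] [μ.IsHaarMeasure]

/-- the largest expectation of a class function `χ` with `∫ χ = 0`, `∫ χ ^ 2 ≤ 1` -/
def conf (E : (G → ℝ) → ℝ) : ℝ :=
  sSup {r | ∃ χ : G → ℝ, Continuous χ ∧ (∀ x y, χ (y * x * y⁻¹) = χ x) ∧ ∫ x, χ x ∂μ = 0 ∧
    ∫ x, χ x ^ 2 ∂μ ≤ 1 ∧ r = E χ}

/-- the square of the distance to the constant function -/
def e2 (v : G → ℝ) : ℝ := ∫ x, (v x - 1) ^ 2 ∂μ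

variable {μ}

lemma e2_nonneg (v : G → ℝ) : 0 ≤ e2 μ v := integral_nonneg fun _ => sq_nonneg _

lemma cnv_sub {f : G → ℝ} (hf : PD μ f) (x : G) :
    cnv μ f f x - 1 = cnv μ (fun y => f y - 1) (fun y => f y - 1) x := by
  have hc := hf.cont
  have h2 : ∫ y, f (y⁻¹ * x) ∂μ = 1 := by rw [shr' μ f x, hf.int]
  have h3 : cnv μ (fun y => f y - 1) (fun y => f y - 1) x =
      ∫ y, (f y * f (y⁻¹ * x) - (f y + f (y⁻¹ * x) - 1)) ∂μ := by
    unfold cnv
    exact integral_congr_ae (Filter.Eventually.of_forall fun y => by simp only; ring)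
  rw [h3, integral_sub (ig μ (by fun_prop)) (ig μ (by fun_prop)),
    integral_sub (ig μ (by fun_prop)) (ig μ (by fun_prop)),
    integral_add (ig μ (by fun_prop)) (ig μ (by fun_prop)), h2, hf.int, integral_const,
    probReal_univ, one_smul]
  unfold cnv
  ring

lemma cnv_e2 {f : G → ℝ} (hf : PD μ f) (x : G) : |cnv μ f f x - 1| ≤ e2 μ f := by
  have hc := hf.cont
  rw [cnv_sub hf]
  unfold cnv e2
  refine (abs_integral_le_integral_abs).trans ?_
  have h1 : ∫ y, |(f y - 1) * (f (y⁻¹ * x) - 1)| ∂μ ≤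
      ∫ y, ((f y - 1) ^ 2 / 2 + (f (y⁻¹ * x) - 1) ^ 2 / 2) ∂μ := by
    refine integral_mono (ig μ (by fun_prop)) (ig μ (by fun_prop)) fun y => ?_
    simp only
    rw [abs_mul]
    nlinarith [sq_nonneg (|f y - 1| - |f (y⁻¹ * x) - 1|), sq_abs (f y - 1),
      sq_abs (f (y⁻¹ * x) - 1)]
  refine h1.trans (le_of_eq ?_)
  have h2 : ∫ y, (f (y⁻¹ * x) - 1) ^ 2 / 2 ∂μ = ∫ y, (f y - 1) ^ 2 / 2 ∂μ :=
    shr' μ (fun z => (f z - 1) ^ 2 / 2) x
  rw [integral_add (ig μ (by fun_prop)) (ig μ (by fun_prop)), h2, ← integral_add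
    (ig μ (by fun_prop)) (ig μ (by fun_prop))]
  exact integral_congr_ae (Filter.Eventually.of_forall fun y => by simp only; ring)

lemma e2_cnv {f : G → ℝ} (hf : PD μ f) : e2 μ (cnv μ f f) ≤ e2 μ f ^ 2 := by
  have hc := continuous_cnv μ hf.cont hf.cont
  have h1 : ∫ x, (cnv μ f f x - 1) ^ 2 ∂μ ≤ ∫ _x, e2 μ f ^ 2 ∂μ := by
    refine integral_mono (ig μ (by fun_prop)) (ig μ continuous_const) fun x => ?_
    simp only
    rw [← sq_abs]
    exact pow_le_pow_left₀ (abs_nonneg _) (cnv_e2 hf x) 2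
  rwa [integral_const, probReal_univ, one_smul] at h1

lemma cnv4_e2 {f : G → ℝ} (hf : PD μ f) (x : G) : |cnv4 μ f x - 1| ≤ e2 μ f ^ 2 :=
  (cnv_e2 (pd_cnv hf) x).trans (e2_cnv hf)

lemma mk_eta {f : G → ℝ} (hf : PD μ f) {η : ℝ} (h1 : ∀ x, |cnv4 μ f x - 1| ≤ η) (h3 : η ≤ 1 / 8)
    (x : G) : |HY.mk μ f x - 1| ≤ 9 * η := by
  have h2 : 0 ≤ η := (abs_nonneg _).trans (h1 1)
  have hz := zz_ge μ hf
  have h4 : ∀ x, |cnv4 μ f x ^ 4 - 1| ≤ 5 * η ∧ 1 - 4 * η ≤ cnv4 μ f x ^ 4 := by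
    intro x
    obtain ⟨h5, h6⟩ := abs_le.1 (h1 x)
    set u := cnv4 μ f x with hu
    have hu0 : 0 ≤ u := by linarith
    have h7 : u ^ 4 ≤ (1 + η) ^ 4 := pow_le_pow_left₀ hu0 (by linarith) 4
    have h8 : (1 - η) ^ 4 ≤ u ^ 4 := pow_le_pow_left₀ (by linarith) (by linarith) 4
    have h9 : (1 + η) ^ 4 ≤ 1 + 5 * η := by
      have e : (1 + η) ^ 4 = 1 + 4 * η + η * (6 * η + 4 * η ^ 2 + η ^ 3) := by ring
      have e2 : 6 * η + 4 * η ^ 2 + η ^ 3 ≤ 1 := by nlinarith [pow_le_pow_left₀ h2 h3 3]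
      rw [e]
      nlinarith
    have h10 : 1 - 4 * η ≤ (1 - η) ^ 4 := by
      have := one_add_mul_le_pow (a := -η) (by linarith) 4
      push_cast at this
      have e : 1 + -η = 1 - η := by ring
      rw [e] at this
      linarith
    refine ⟨?_, by linarith⟩
    rw [abs_le]
    constructor <;> linarith
  have hc4 := continuous_cnv4 μ hf.cont
  have hz2 : zz μ f ≤ 1 + 5 * η := by
    unfold zz
    have h5 := integral_mono (μ := μ) (f := fun y => cnv4 μ f y ^ 4) (g := fun _ => 1 + 5 * η)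
      (ig μ (by fun_prop)) (ig μ continuous_const) (fun y => by
        have := (abs_le.1 (h4 y).1).2
        simp only
        linarith)
    rwa [integral_const, probReal_univ, one_smul] at h5
  rw [mk_eq]
  have hz0 : 0 < zz μ f := by linarith
  have h6 : cnv4 μ f x ^ 4 / zz μ f - 1 = (cnv4 μ f x ^ 4 - zz μ f) / zz μ f := by
    field_simp
  rw [h6, abs_div, abs_of_pos hz0, div_le_iff₀ hz0]
  have h7 : |cnv4 μ f x ^ 4 - zz μ f| ≤ 9 * η := by
    obtain ⟨h8, h9⟩ := abs_le.1 (h4 x).1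
    have h10 := (h4 x).2
    rw [abs_le]
    constructor <;> linarith
  nlinarith

/-- Cauchy-Schwarz -/
lemma int_cs {φ ψ : G → ℝ} (hφ : Continuous φ) (hψ : Continuous ψ) :
    |∫ x, φ x * ψ x ∂μ| ≤ Real.sqrt ((∫ x, φ x ^ 2 ∂μ) * ∫ x, ψ x ^ 2 ∂μ) := by
  refine Real.abs_le_sqrt ?_
  have h1 : (∫ x, φ x * ψ x ∂μ) ^ 2 ≤ (∫ x, φ x * φ x ∂μ) * ∫ x, ψ x * ψ x ∂μ :=
    Rn.cs (ip := sp μ) (sp_symm (μ := μ)) (sp_nonneg (μ := μ)) ⟨φ, hφ⟩ ⟨ψ, hψ⟩
  simp only [pow_two] at h1 ⊢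
  exact h1

/-- the expectations of the class functions in infinite volume -/
lemma exp_near {v : G → ℝ} {C σ ε : ℝ} {k : ℤ} (t : Tail μ v C σ k) (h : Near μ v ε) {χ : G → ℝ}
    (hχ : Continuous χ) (hc : ∀ x y, χ (y * x * y⁻¹) = χ x) (h0 : ∫ x, χ x ∂μ = 0)
    (h2 : ∫ x, χ x ^ 2 ∂μ ≤ 1) :
    |li μ v (nr μ v 0 fun U => χ (hol sq U ())) - ∫ x, χ x * (v x - 1) ∂μ| ≤ 5 * ε ^ 2 := by
  have hvc := h.cont
  rw [nr_zero]
  have hα : CC fun T => χ T * v T := ⟨by fun_prop, fun x y => by rw [hc x y, h.cls x y]⟩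
  obtain ⟨M, hM, hMb⟩ : ∃ M : ℝ, 0 < M ∧ ∀ x, |χ x| ≤ M := by
    set χ' : C(G, ℝ) := ⟨χ, hχ⟩ with hχ'
    refine ⟨‖χ'‖ + 1, by positivity, fun x => ?_⟩
    have h1 := χ'.norm_coe_le_norm x
    rw [Real.norm_eq_abs] at h1
    have h2 : χ' x = χ x := rfl
    rw [h2] at h1
    linarith
  have h3 := li_near t h hα hM (fun x => by
    rw [abs_mul, abs_of_nonneg (h.nonneg x)]
    exact mul_le_mul_of_nonneg_right (hMb x) (h.nonneg x))
  have h4 : ∫ x, χ x * (v x - 1) ∂μ = ∫ x, χ x * v x ∂μ := by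
    have h5 : ∫ x, χ x * (v x - 1) ∂μ = ∫ x, (χ x * v x - χ x) ∂μ :=
      integral_congr_ae (Filter.Eventually.of_forall fun y => by simp only; ring)
    rw [h5, integral_sub (ig μ (by fun_prop)) (ig μ hχ), h0, sub_zero]
  rw [h4]
  refine h3.trans ?_
  have h5 : N1 μ (fun T => χ T * v T) ≤ 3 / 2 := by
    unfold N1
    have h6 : ∫ x, |χ x * v x| ∂μ ≤ ∫ x, (3 / 4 * χ x ^ 2 + 3 / 4) ∂μ := by
      refine integral_mono (ig μ (by fun_prop)) (ig μ (by fun_prop)) fun x => ?_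
      simp only
      rw [abs_mul, abs_of_nonneg (h.nonneg x)]
      have h7 : |χ x| * v x ≤ |χ x| * (3 / 2) :=
        mul_le_mul_of_nonneg_left (h.le x) (abs_nonneg _)
      nlinarith [sq_nonneg (|χ x| - 1), sq_abs (χ x)]
    rw [integral_add (ig μ (by fun_prop)) (ig μ (by fun_prop)), integral_const_mul,
      integral_const, probReal_univ, one_smul] at h6
    linarith
  have h6 : 0 ≤ ε ^ 2 := sq_nonneg _
  nlinarith

theorem conf_bounds {v : G → ℝ} {C σ ε : ℝ} {k : ℤ} (t : Tail μ v C σ k) (h : Near μ v ε)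
    (hE : 0 < e2 μ v) :
    |conf μ (fun χ => li μ v (nr μ v 0 fun U => χ (hol sq U ()))) - Real.sqrt (e2 μ v)| ≤
      5 * ε ^ 2 := by
  have hvc := h.cont
  have hs : 0 < Real.sqrt (e2 μ v) := Real.sqrt_pos.2 hE
  have hss : Real.sqrt (e2 μ v) * Real.sqrt (e2 μ v) = e2 μ v := Real.mul_self_sqrt hE.le
  set S : Set ℝ := {r | ∃ χ : G → ℝ, Continuous χ ∧ (∀ x y, χ (y * x * y⁻¹) = χ x) ∧
    ∫ x, χ x ∂μ = 0 ∧ ∫ x, χ x ^ 2 ∂μ ≤ 1 ∧
    r = li μ v (nr μ v 0 fun U => χ (hol sq U ()))} with hS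
  have hup : ∀ r ∈ S, r ≤ Real.sqrt (e2 μ v) + 5 * ε ^ 2 := by
    rintro r ⟨χ, hχ, hc, h0, h2, rfl⟩
    have h3 := (abs_le.1 (exp_near t h hχ hc h0 h2)).2
    have h4 := int_cs (μ := μ) hχ (ψ := fun x => v x - 1) (by fun_prop)
    have h5 : Real.sqrt ((∫ x, χ x ^ 2 ∂μ) * ∫ x, (v x - 1) ^ 2 ∂μ) ≤ Real.sqrt (e2 μ v) := by
      refine Real.sqrt_le_sqrt ?_
      exact mul_le_of_le_one_left (e2_nonneg v) h2
    have h6 := le_abs_self (∫ x, χ x * (v x - 1) ∂μ)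
    linarith
  have hlow : ∃ r ∈ S, Real.sqrt (e2 μ v) - 5 * ε ^ 2 ≤ r := by
    set χ : G → ℝ := fun x => (Real.sqrt (e2 μ v))⁻¹ * (v x - 1) with hχdef
    have hχ : Continuous χ := by fun_prop
    have hc : ∀ x y, χ (y * x * y⁻¹) = χ x := fun x y => by
      simp only [hχdef]
      rw [h.cls x y]
    have h0 : ∫ x, χ x ∂μ = 0 := by
      simp only [hχdef]
      rw [integral_const_mul, integral_sub (ig μ hvc) (ig μ continuous_const), h.int,
        integral_const, probReal_univ, one_smul]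
      ring
    have h2 : ∫ x, χ x ^ 2 ∂μ = 1 := by
      simp only [hχdef, mul_pow]
      rw [integral_const_mul]
      show (Real.sqrt (e2 μ v))⁻¹ ^ 2 * e2 μ v = 1
      have h3 : (Real.sqrt (e2 μ v))⁻¹ ^ 2 * e2 μ v =
          (Real.sqrt (e2 μ v))⁻¹ ^ 2 * (Real.sqrt (e2 μ v) * Real.sqrt (e2 μ v)) := by rw [hss]
      rw [h3]
      field_simp
    refine ⟨_, ⟨χ, hχ, hc, h0, h2.le, rfl⟩, ?_⟩
    have h3 := (abs_le.1 (exp_near t h hχ hc h0 h2.le)).1
    have h4 : ∫ x, χ x * (v x - 1) ∂μ = Real.sqrt (e2 μ v) := by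
      have h5 : ∫ x, χ x * (v x - 1) ∂μ = (Real.sqrt (e2 μ v))⁻¹ * e2 μ v := by
        unfold e2
        rw [← integral_const_mul]
        exact integral_congr_ae (Filter.Eventually.of_forall fun y => by
          simp only [hχdef, e2]; ring)
      have h6 : (Real.sqrt (e2 μ v))⁻¹ * e2 μ v =
          (Real.sqrt (e2 μ v))⁻¹ * (Real.sqrt (e2 μ v) * Real.sqrt (e2 μ v)) := by rw [hss]
      rw [h5, h6]
      field_simp
    linarith
  have hbdd : BddAbove S := ⟨_, hup⟩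
  obtain ⟨r, hr, hr2⟩ := hlow
  have h1 : sSup S ≤ Real.sqrt (e2 μ v) + 5 * ε ^ 2 := csSup_le ⟨r, hr⟩ hup
  have h2 : r ≤ sSup S := le_csSup hbdd hr
  unfold conf
  rw [← hS, abs_le]
  constructor <;> linarith

/-- **The string tension in infinite volume.** -/
theorem conf_limit {f : ℤ → G → ℝ} (hpd : ∀ k, PD μ (f k))
    (hcls : ∀ k x y, f k (y * x * y⁻¹) = f k x) (hmk : ∀ k, HY.mk μ (f k) = f (k + 1))
    (hup : ∃ C σ : ℝ, 0 < C ∧ 0 < σ ∧ ∀ k : ℕ, ∀ x, |f k x - 1| ≤ C * Real.exp (-(σ * 4 ^ k)))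
    {s : ℝ} (hs : 0 < s)
    (he : Tendsto (fun k : ℕ => -Real.log (e2 μ (f k)) / (2 * 4 ^ k)) atTop (𝓝 s)) :
    Tendsto (fun k : ℕ => -Real.log (conf μ fun χ =>
      li μ (f k) (nr μ (f k) 0 fun U => χ (hol sq U ()))) / 4 ^ k) atTop (𝓝 s) := by
  obtain ⟨C, σ, hC, hσ, hup⟩ := hup
  have t := traj_tail hpd hcls hmk hC hσ hup
  set a : ℕ → ℝ := fun k => -Real.log (e2 μ (f k)) / (2 * 4 ^ k) with ha
  set c : ℕ → ℝ := fun k => conf μ fun χ => li μ (f k) (nr μ (f k) 0 fun U => χ (hol sq U ()))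
    with hcdef
  have hpow : Tendsto (fun k : ℕ => (4 : ℝ) ^ k) atTop atTop :=
    tendsto_pow_atTop_atTop_of_one_lt (by norm_num)
  -- positivity
  have hpos : ∀ᶠ k : ℕ in atTop, 0 < e2 μ (f k) := by
    filter_upwards [he.eventually (lt_mem_nhds hs)] with k hk
    rcases (e2_nonneg (μ := μ) (f k)).eq_or_lt with h0 | h0
    · exfalso
      rw [ha] at hk
      simp only at hk
      rw [← h0, Real.log_zero, neg_zero, zero_div] at hk
      exact lt_irrefl _ hk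
    · exact h0
  have hexp : ∀ᶠ k : ℕ in atTop, e2 μ (f k) = Real.exp (-(2 * (4 ^ k * a k))) := by
    filter_upwards [hpos] with k hk
    have h1 : -(2 * (4 ^ k * a k)) = Real.log (e2 μ (f k)) := by
      rw [ha]
      field_simp
    rw [h1, Real.exp_log hk]
  have hinf : Tendsto (fun k : ℕ => 4 ^ k * a k) atTop atTop := hpow.atTop_mul_pos hs he
  have hzero : Tendsto (fun k : ℕ => e2 μ (f k)) atTop (𝓝 0) := by
    have h1 : Tendsto (fun k : ℕ => Real.exp (-(2 * (4 ^ k * a k)))) atTop (𝓝 0) :=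
      Real.tendsto_exp_neg_atTop_nhds_zero.comp (hinf.const_mul_atTop two_pos)
    exact h1.congr' (hexp.mono fun k hk => hk.symm)
  -- the ratio
  set q : ℕ → ℝ := fun k => 5 * (9 * e2 μ (f k) ^ 2) ^ 2 / Real.sqrt (e2 μ (f (k + 1))) with hq
  have hqz : Tendsto q atTop (𝓝 0) := by
    have h1 : ∀ᶠ k : ℕ in atTop, q k =
        405 * Real.exp (-(4 ^ (k + 1) * (2 * a k - a (k + 1)))) := by
      filter_upwards [hexp, (tendsto_add_atTop_nat 1).eventually hexp] with k h2 h3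
      have h3' : e2 μ (f ((k : ℤ) + 1)) = Real.exp (-(2 * (4 ^ (k + 1) * a (k + 1)))) := by
        have h4 : ((k + 1 : ℕ) : ℤ) = (k : ℤ) + 1 := by push_cast; ring
        rw [← h4]
        exact h3
      have h4 : Real.sqrt (e2 μ (f ((k : ℤ) + 1))) = Real.exp (-(4 ^ (k + 1) * a (k + 1))) := by
        rw [h3']
        have h5 : -(2 * ((4 : ℝ) ^ (k + 1) * a (k + 1))) =
            -(4 ^ (k + 1) * a (k + 1)) + -(4 ^ (k + 1) * a (k + 1)) := by ring
        rw [h5, Real.exp_add, Real.sqrt_mul_self (Real.exp_pos _).le]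
      rw [hq]
      simp only
      rw [h4, h2, div_eq_iff (Real.exp_pos _).ne', mul_assoc 405, ← Real.exp_add]
      have h6 : (5 : ℝ) * (9 * Real.exp (-(2 * (4 ^ k * a k))) ^ 2) ^ 2 =
          405 * Real.exp (-(2 * (4 ^ k * a k))) ^ 4 := by ring
      rw [h6, ← Real.exp_nat_mul]
      congr 2
      push_cast
      ring
    have h2 : Tendsto (fun k : ℕ => 2 * a k - a (k + 1)) atTop (𝓝 s) := by
      have h3 := (he.const_mul 2).sub ((tendsto_add_atTop_iff_nat 1).2 he)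
      have h4 : 2 * s - s = s := by ring
      rwa [h4] at h3
    have h3 : Tendsto (fun k : ℕ => (4 : ℝ) ^ (k + 1) * (2 * a k - a (k + 1))) atTop atTop :=
      (hpow.comp (tendsto_add_atTop_nat 1)).atTop_mul_pos hs h2
    have h4 := (Real.tendsto_exp_neg_atTop_nhds_zero.comp h3).const_mul 405
    rw [mul_zero] at h4
    exact h4.congr' (h1.mono fun k hk => hk.symm)
  -- the bounds
  have hb : ∀ᶠ k : ℕ in atTop, |c (k + 1) / Real.sqrt (e2 μ (f (k + 1))) - 1| ≤ q k := by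
    have h1 := hzero.eventually (gt_mem_nhds (show (0 : ℝ) < 1 / 9 by norm_num))
    filter_upwards [h1, (tendsto_add_atTop_nat 1).eventually hpos] with k h2 h3
    have hE := e2_nonneg (μ := μ) (f k)
    have h4 : e2 μ (f k) ^ 2 ≤ 1 / 81 := by nlinarith
    have h5 : ∀ x, |f ((k : ℤ) + 1) x - 1| ≤ 9 * e2 μ (f k) ^ 2 := by
      intro x
      rw [← hmk]
      exact mk_eta (hpd k) (cnv4_e2 (hpd k)) (by linarith) x
    have hk1 : ((k + 1 : ℕ) : ℤ) = (k : ℤ) + 1 := by push_cast; ring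
    have h6 : Near μ (f ((k : ℤ) + 1)) (9 * e2 μ (f k) ^ 2) :=
      ⟨(hpd _).cont, hcls _, (hpd _).nonneg, (hpd _).int, h5, by linarith⟩
    have h3' : 0 < e2 μ (f ((k : ℤ) + 1)) := by
      rw [← hk1]
      exact h3
    have h7 := conf_bounds (t ((k : ℤ) + 1)) h6 h3'
    have h8 : 0 < Real.sqrt (e2 μ (f ((k : ℤ) + 1))) := Real.sqrt_pos.2 h3'
    have h9 : c (k + 1) = conf μ fun χ => li μ (f ((k : ℤ) + 1))
        (nr μ (f ((k : ℤ) + 1)) 0 fun U => χ (hol sq U ())) := by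
      rw [hcdef]
      simp only [hk1]
    rw [h9, hq]
    simp only
    rw [div_sub_one h8.ne', abs_div, abs_of_pos h8]
    exact div_le_div_of_nonneg_right h7 h8.le
  have hr : Tendsto (fun k : ℕ => c (k + 1) / Real.sqrt (e2 μ (f (k + 1)))) atTop (𝓝 1) := by
    have h1 : Tendsto (fun k : ℕ => c (k + 1) / Real.sqrt (e2 μ (f (k + 1))) - 1) atTop (𝓝 0) :=
      squeeze_zero_norm' (hb.mono fun k hk => by rw [Real.norm_eq_abs]; exact hk) hqz
    have h2 := h1.add_const 1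
    simpa using h2
  -- the conclusion
  rw [← tendsto_add_atTop_iff_nat 1]
  have h1 : Tendsto (fun k : ℕ => a (k + 1) -
      Real.log (c (k + 1) / Real.sqrt (e2 μ (f (k + 1)))) / 4 ^ (k + 1)) atTop (𝓝 (s - 0)) := by
    refine ((tendsto_add_atTop_iff_nat 1).2 he).sub ?_
    have h2 : Tendsto (fun k : ℕ => Real.log (c (k + 1) / Real.sqrt (e2 μ (f (k + 1))))) atTop
        (𝓝 0) := by
      have h3 := (Real.continuousAt_log one_ne_zero).tendsto.comp hr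
      rwa [Real.log_one] at h3
    exact h2.div_atTop (hpow.comp (tendsto_add_atTop_nat 1))
  rw [sub_zero] at h1
  refine h1.congr' ?_
  have h2 := hr.eventually (lt_mem_nhds (show (1 : ℝ) / 2 < 1 by norm_num))
  filter_upwards [h2, (tendsto_add_atTop_nat 1).eventually hpos,
    (tendsto_add_atTop_nat 1).eventually hexp] with k h3 h4 h5
  have hk1 : ((k + 1 : ℕ) : ℤ) = (k : ℤ) + 1 := by push_cast; ring
  have h4' : 0 < e2 μ (f ((k : ℤ) + 1)) := by
    rw [← hk1]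
    exact h4
  have h6 : 0 < Real.sqrt (e2 μ (f ((k : ℤ) + 1))) := Real.sqrt_pos.2 h4'
  have h7 : 0 < c (k + 1) := by
    have h8 : 0 < c (k + 1) / Real.sqrt (e2 μ (f ((k : ℤ) + 1))) := by linarith
    exact (div_pos_iff_of_pos_right h6).1 h8
  have h8 : Real.log (c (k + 1) / Real.sqrt (e2 μ (f ((k : ℤ) + 1)))) =
      Real.log (c (k + 1)) + 4 ^ (k + 1) * a (k + 1) := by
    rw [Real.log_div h7.ne' h6.ne', Real.log_sqrt h4'.le]
    have h9 : a (k + 1) = -Real.log (e2 μ (f ((k : ℤ) + 1))) / (2 * 4 ^ (k + 1)) := by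
      rw [ha]
      simp only [hk1]
    rw [h9]
    field_simp
    ring
  rw [h8]
  have h9 : (4 : ℝ) ^ (k + 1) ≠ 0 := by positivity
  have h10 : -Real.log (c (k + 1)) / 4 ^ (k + 1) =
      a (k + 1) - (Real.log (c (k + 1)) + 4 ^ (k + 1) * a (k + 1)) / 4 ^ (k + 1) := by
    field_simp
    ring
  rw [← h10]

end

end Pool.Agent.T2H03.HX
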