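import Mathlib
import Pool.Agent.T2H03.HX.Loop
import Pool.Agent.T2H03.HX.Conf

/-!
# The lattice gauge theories of a renormalisation group trajectory
-/

open MeasureTheory Filter
open scoped Topology
open Pool.Agent.T2H04.HY (cnv cnv4 continuous_cnv continuous_cnv4 right_inv' inv_inv' PD norm_pos
  pd_mk)
open Pool.Agent.T2H04

namespace Pool.Agent.T2H03.HX

set_option linter.unusedSectionVars false

noncomputable section

variable {G : Type} [Group G] [TopologicalSpace G] [IsTopologicalGroup G] [CompactSpace G]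
  [SecondCountableTopology G] [MeasurableSpace G] [BorelSpace G] {μ : Measure G}
  [IsProbabilityMeasure μ] [μ.IsHaarMeasure]

/-- **Lower bound for Wilson loops in infinite volume.** -/
theorem wil_lower {f : ℤ → G → ℝ} (hpd : ∀ k, PD μ (f k))
    (hcls : ∀ k x y, f k (y * x * y⁻¹) = f k x) (hsym : ∀ k x, f k x⁻¹ = f k x)
    (hmk : ∀ k, HY.mk μ (f k) = f (k + 1)) {C σ : ℝ} (hC : 0 < C) (hσ : 0 < σ)
    (hup : ∀ k : ℕ, ∀ x, |f k x - 1| ≤ C * Real.exp (-(σ * 4 ^ k))) :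
    ∃ c : ℝ, 0 < c ∧ ∀ (k : ℕ) (ι : Type) (_ : Fintype ι) (e : ι → G → ℝ) (χ : G → ℝ),
      (∀ i, Continuous (e i)) → (∀ x y, ∑ i, e i x * e i y = χ (x⁻¹ * y)) → χ 1 = 1 →
      (∀ x y, χ (y * x * y⁻¹) = χ x) →
      c * ∫ x, χ x * f k x ∂μ ≤ li μ (f k) (nr μ (f k) 0 fun U => χ (hol sq U ())) := by
  have hsum := log_summable hpd hσ hup
  refine ⟨Real.exp (-∑' j : ℕ, Real.log (zz μ (f j))), Real.exp_pos _,
    fun k ι _ e χ he hχ h1 hχc => ?_⟩
  have t := traj_tail hpd hcls hmk hC hσ hup k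
  have cf : CS (f k) := ⟨(hpd k).cont, hcls k, hsym k⟩
  have pf : Ps μ (f k) := by
    have h2 := ps_mk (hpd ((k : ℤ) - 1)) (hsym _)
    rwa [hmk, sub_add_cancel] at h2
  have hχ0 : Continuous χ := HY.Low.chi_cont he hχ
  have hle := HY.Low.chi_le hχ h1
  have hχs : ∀ x, χ x⁻¹ = χ x := by
    intro x
    have e1 := hχ x 1
    have e2 := hχ 1 x
    rw [mul_one] at e1
    rw [inv_one, one_mul] at e2
    rw [← e1, ← e2]
    exact Finset.sum_congr rfl fun i _ => mul_comm _ _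
  have hfc := (hpd k).cont
  have cα : CS fun x => χ x * f k x := ⟨by fun_prop, fun x y => by rw [hχc x y, hcls k x y],
    fun x => by simp only [hχs, hsym]⟩
  have pα : Ps μ fun x => χ x * f k x := ps_gram he hχ hfc pf
  have bα : ∀ x, |χ x * f k x| ≤ f k x := by
    intro x
    rw [abs_mul, abs_of_nonneg ((hpd k).nonneg x)]
    exact mul_le_of_le_one_left ((hpd k).nonneg x) (hle x)
  have hi : 0 ≤ ∫ x, χ x * f k x ∂μ := ps_int pα
  rw [nr_zero]
  refine ge_of_tendsto (li_tendsto t cα.cc bα) (Eventually.of_forall fun m => ?_)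
  refine le_trans ?_ (gks (hpd k) cf pf cα pα m).2.2
  refine mul_le_mul_of_nonneg_right ?_ hi
  rw [Real.exp_le_exp, neg_le_neg_iff]
  have h2 : ∀ i ∈ Finset.range m, Real.log (zz μ ((HY.mk μ)^[i] (f k))) =
      Real.log (zz μ (f ((k + i : ℕ) : ℤ))) := by
    intro i _
    rw [traj_iter hmk]
    push_cast
    rfl
  rw [Finset.sum_congr rfl h2]
  have h3 : ∀ j : ℕ, 0 ≤ Real.log (zz μ (f j)) := fun j => Real.log_nonneg (zz_ge μ (hpd j))
  have h4 := hsum.sum_le_tsum (Finset.range (k + m)) fun j _ => h3 j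
  rw [Finset.sum_range_add] at h4
  have h5 : 0 ≤ ∑ x ∈ Finset.range k, Real.log (zz μ (f x)) := Finset.sum_nonneg fun j _ => h3 j
  linarith

/-- **The infinite volume lattice gauge theories of a renormalisation group trajectory.** -/
theorem lattice2 {f : ℤ → G → ℝ} (hpd : ∀ k, PD μ (f k))
    (hcls : ∀ k x y, f k (y * x * y⁻¹) = f k x) (hsym : ∀ k x, f k x⁻¹ = f k x)
    (hpos : ∀ k x, 0 < f k x) (hmk : ∀ k, HY.mk μ (f k) = f (k + 1))
    (hup : ∃ C σ : ℝ, 0 < C ∧ 0 < σ ∧ ∀ k : ℕ, ∀ x, |f k x - 1| ≤ C * Real.exp (-(σ * 4 ^ k))) :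
    ∃ (S : ℤ → (n : ℕ) → (((Bx n).E → G) → ℝ) → ℝ) (C σ c : ℝ), 0 < C ∧ 0 < σ ∧ 0 < c ∧
      -- infinite volume limit
      (∀ k n A, Obs (Bx n) A → ∀ x m, |ex μ (Bx (n + m)) (f k) (fun U => A (U ∘ pos n x m)) -
        S k n A| ≤ C * Real.exp (-(σ * 4 ^ (k + n + m)))) ∧
      -- the same for a box in an arbitrary complex, uniformly
      (∀ k n A, Obs (Bx n) A → ∀ (X : Cx) (g : X.F) x m, |ex μ (X.refs (n + m + 1)) (f k)
        (fun U => A (U ∘ ((X.face g).refs (n + m + 1)).e ∘ pos n x (m + 1))) - S k n A| ≤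
          C * Real.exp (-(σ * 4 ^ (k + n + m)))) ∧
      -- consistency of the scales
      (∀ k n A, Obs (Bx n) A → S k (n + 1) (fun U => A (blkL n sq U)) = S (k + 1) n A) ∧
      -- clustering
      (∀ k n A B, Obs (Bx n) A → Obs (Bx n) B → ∀ x y m, x m ≠ y m →
        |S k (n + m + 1) (fun U => A (U ∘ pos n x (m + 1)) * B (U ∘ pos n y (m + 1))) -
          S k n A * S k n B| ≤ C * Real.exp (-(σ * 4 ^ (k + n + m)))) ∧
      -- area law, upper bound
      (∀ k (χ : G → ℝ), Continuous χ → (∀ x y, χ (y * x * y⁻¹) = χ x) → (∀ x, |χ x| ≤ 1) →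
        ∫ x, χ x ∂μ = 0 → |S k 0 fun U => χ (hol sq U ())| ≤ C * Real.exp (-(σ * 4 ^ k))) ∧
      -- area law, lower bound
      (∀ (k : ℕ) (ι : Type) (_ : Fintype ι) (e : ι → G → ℝ) (χ : G → ℝ),
        (∀ i, Continuous (e i)) → (∀ x y, ∑ i, e i x * e i y = χ (x⁻¹ * y)) → χ 1 = 1 →
        (∀ x y, χ (y * x * y⁻¹) = χ x) →
        c * ∫ x, χ x * f k x ∂μ ≤ S k 0 fun U => χ (hol sq U ())) ∧
      -- continuum limit in infinite volume
      (∀ k (w : ℕ → G → ℝ) (N : ℕ → ℕ), (∀ j, Continuous (w j)) → (∀ j x, 0 < w j x) →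
        (∀ j x y, w j (y * x * y⁻¹) = w j x) → Tendsto N atTop atTop →
        TendstoUniformly (fun j => (HY.mk μ)^[N j] (w j)) (f k) atTop →
        ∀ n A, Obs (Bx n) A → ∀ x, Tendsto (fun p : ℕ × ℕ => ex μ (Bx (n + p.2 + N p.1)) (w p.1)
          fun U => A (blks sq (n + p.2) (N p.1) U ∘ pos n x p.2)) (atTop ×ˢ atTop)
          (𝓝 (S k n A))) ∧
      -- string tension
      (∀ s : ℝ, 0 < s → Tendsto (fun k : ℕ => -Real.log (e2 μ (f k)) / (2 * 4 ^ k)) atTop (𝓝 s) →
        Tendsto (fun k : ℕ => -Real.log (conf μ fun χ => S k 0 fun U => χ (hol sq U ())) / 4 ^ k)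
          atTop (𝓝 s)) := by
  have hup' := hup
  obtain ⟨C, σ, hC, hσ, hup⟩ := hup
  have t := traj_tail hpd hcls hmk hC hσ hup
  have hD := DD_pos hC.le hσ
  obtain ⟨c, hc, hlow⟩ := wil_lower hpd hcls hsym hmk hC hσ hup
  refine ⟨fun k n A => li μ (f (k + n)) (nr μ (f k) n A), 4 * DD C σ + C, σ, c, by positivity, hσ,
    hc, ?_, ?_, ?_, ?_, ?_, ?_, ?_, ?_⟩
  · intro k n A hA x m
    have h1 := inf_vol (t k) hA x m
    rw [traj_iter hmk] at h1
    refine h1.trans (mul_le_mul_of_nonneg_right (by linarith) (Real.exp_pos _).le)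
  · intro k n A hA X g x m
    have h1 := env (t k) (hpos k) (fun i y => by rw [traj_iter hmk]; exact hpos _ y) hA X g x m
    rw [traj_iter hmk] at h1
    refine h1.trans (mul_le_mul_of_nonneg_right (by linarith) (Real.exp_pos _).le)
  · intro k n A hA
    simp only
    rw [nr_blk (hpd k) (hcls k), hmk]
    have h1 : k + ((n + 1 : ℕ) : ℤ) = k + 1 + n := by push_cast; ring
    rw [h1]
  · intro k n A B hA hB x y m hxy
    have h1 := cluster (t k) hA hB x y m hxy
    rw [traj_iter hmk, traj_iter hmk] at h1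
    refine h1.trans (mul_le_mul_of_nonneg_right (by linarith) (Real.exp_pos _).le)
  · intro k χ hχ hc h1 h0
    have h2 := wilson (t k) hχ hc h1 h0
    simp only [Nat.cast_zero, add_zero]
    refine h2.trans (mul_le_mul_of_nonneg_right (by linarith) (Real.exp_pos _).le)
  · intro k ι hι e χ he hχ h1 hχc
    simp only [Nat.cast_zero, add_zero]
    exact hlow k ι hι e χ he hχ h1 hχc
  · intro k w N hwc hw hcl hN h n A hA x
    have hpdw : ∀ j, PD μ fun x => (∫ x, w j x ∂μ)⁻¹ * w j x := fun j =>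
      (exists_pd μ (hwc j) (hw j)).2
    have hne : ∀ j, (∫ x, w j x ∂μ)⁻¹ ≠ 0 := fun j =>
      inv_ne_zero (exists_pd μ (hwc j) (hw j)).1.ne'
    have h0 : TendstoUniformly (fun j => (HY.mk μ)^[N j] fun x => (∫ x, w j x ∂μ)⁻¹ * w j x)
        (f k) atTop := by
      intro u hu
      filter_upwards [h u hu, hN.eventually_ge_atTop 1] with j hj0 hj y
      have hy := hj0 y
      obtain ⟨q, hq⟩ := Nat.exists_eq_add_of_le' hj
      simp only [hq, Function.iterate_succ_apply] at hy ⊢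
      rw [mk_scale μ (w j) (hne j)]
      exact hy
    have h1 := joint (t k) (hpos k) hpdw (fun j x y => by simp only [hcl]) h0 hA x
    rw [traj_iter hmk] at h1
    refine h1.congr fun p => ?_
    exact ex_scale μ _ (w p.1) (hne p.1) _
  · intro s hs he
    have h1 := conf_limit hpd hcls hmk hup' hs he
    refine h1.congr fun k => ?_
    simp only [Nat.cast_zero, add_zero]

end

end Pool.Agent.T2H03.HX
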